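import Pool.Agent.H413R2.RP.Main

set_option autoImplicit false

namespace Pool.Agent.H413R2.RP

open Finset Polynomial

/-- Connectivity by the edges of `A`. -/
def conn {V : Type} (A : Finset (Sym2 V)) : Setoid V :=
  Relation.EqvGen.setoid (fun u v => s(u, v) ∈ A)

theorem conn_le_ker {V W : Type} (A : Finset (Sym2 V)) (x : V → W) :
    conn A ≤ Setoid.ker x ↔ ∀ e ∈ A, (Sym2.map x e).IsDiag := by
  constructor
  · intro h e he
    induction e using Sym2.ind with | _ u v => ?_
    have : (conn A) u v := Relation.EqvGen.rel _ _ he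
    have h2 : x u = x v := h this
    rw [Sym2.map_mk]
    simpa using h2
  · intro h
    refine Setoid.eqvGen_le ?_
    intro u v huv
    have := h _ huv
    rw [Sym2.map_mk] at this
    simpa using this

open Classical in
/-- Indicator. -/
noncomputable def ind (P : Prop) : ℝ := if P then 1 else 0

theorem ind_pos {P : Prop} (h : P) : ind P = 1 := by unfold ind; rw [if_pos h]

theorem ind_neg {P : Prop} (h : ¬ P) : ind P = 0 := by unfold ind; rw [if_neg h]

section count

open Classical

variable {V : Type} [Fintype V]

theorem proper_expand (H : SimpleGraph V) {W : Type} (x : V → W) :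
    ind (∀ u v, H.Adj u v → x u ≠ x v) =
      ∑ A ∈ H.edgeFinset.powerset, (-1) ^ A.card * ind (conn A ≤ Setoid.ker x) := by
  have h1 : ind (∀ u v, H.Adj u v → x u ≠ x v) =
      ∏ e ∈ H.edgeFinset, (-(ind ((Sym2.map x e).IsDiag)) + 1) := by
    by_cases h : ∀ u v, H.Adj u v → x u ≠ x v
    · rw [ind_pos h, Finset.prod_eq_one]
      intro e he
      induction e using Sym2.ind with | _ u v => ?_
      rw [SimpleGraph.mem_edgeFinset, SimpleGraph.mem_edgeSet] at he
      rw [Sym2.map_mk, ind_neg]
      · norm_num
      · simpa using h u v he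
    · rw [ind_neg h]
      push Not at h
      obtain ⟨u, v, huv, hx⟩ := h
      symm
      apply Finset.prod_eq_zero (i := s(u, v))
      · rw [SimpleGraph.mem_edgeFinset, SimpleGraph.mem_edgeSet]; exact huv
      · rw [Sym2.map_mk, ind_pos]
        · norm_num
        · simpa using hx
  rw [h1, Finset.prod_add]
  refine Finset.sum_congr rfl (fun A hA => ?_)
  rw [Finset.prod_const_one, mul_one]
  by_cases h : conn A ≤ Setoid.ker x
  · rw [ind_pos h, mul_one]
    rw [Finset.prod_congr rfl (g := fun _ => (-1 : ℝ)), Finset.prod_const]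
    intro e he
    rw [ind_pos ((conn_le_ker A x).mp h e he)]
  · rw [ind_neg h, mul_zero]
    rw [conn_le_ker] at h
    push Not at h
    obtain ⟨e, he, he2⟩ := h
    apply Finset.prod_eq_zero he
    rw [ind_neg he2]; norm_num

/-- Number of classes without a boundary vertex. -/
noncomputable def c0 {V : Type} {n : ℕ} (S : Setoid V) (b : Fin n → V) : ℕ :=
  Nat.card {c : Quotient S // ∀ i, Quotient.mk S (b i) ≠ c}

theorem count_respect {n m : ℕ} (S : Setoid V) (b : Fin n → V) (φ : Fin n → Fin m) :
    (Nat.card {x : V → Fin m // S ≤ Setoid.ker x ∧ ∀ i, x (b i) = φ i} : ℝ) =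
      (m : ℝ) ^ (c0 S b) * ind (Setoid.comap b S ≤ Setoid.ker φ) := by
  by_cases h : Setoid.comap b S ≤ Setoid.ker φ
  · rw [ind_pos h, mul_one]
    let f : {x : V → Fin m // S ≤ Setoid.ker x ∧ ∀ i, x (b i) = φ i} →
        ({c : Quotient S // ∀ i, Quotient.mk S (b i) ≠ c} → Fin m) :=
      fun x c => Quotient.lift x.1 (fun u v huv => x.2.1 huv) c.1
    have hf : Function.Bijective f := by
      constructor
      · intro x x' hx
        apply Subtype.ext
        funext v
        by_cases hv : ∃ i, S (b i) v
        · obtain ⟨i, hi⟩ := hv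
          have e1 : x.1 (b i) = x.1 v := x.2.1 hi
          have e2 : x'.1 (b i) = x'.1 v := x'.2.1 hi
          rw [← e1, ← e2, x.2.2 i, x'.2.2 i]
        · have hc : ∀ i, Quotient.mk S (b i) ≠ Quotient.mk S v :=
            fun i hi => hv ⟨i, Quotient.exact hi⟩
          have := congrFun hx ⟨Quotient.mk S v, hc⟩
          exact this
      · intro z
        have hcls : ∀ v, (¬ ∃ i, S (b i) v) → ∀ i, Quotient.mk S (b i) ≠ Quotient.mk S v :=
          fun v hv i hi => hv ⟨i, Quotient.exact hi⟩
        let y : V → Fin m := fun v => if hv : ∃ i, S (b i) v then φ hv.choose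
          else z ⟨Quotient.mk S v, hcls v hv⟩
        have hy1 : S ≤ Setoid.ker y := by
          intro u v huv
          change y u = y v
          by_cases hu : ∃ i, S (b i) u
          · have hv : ∃ i, S (b i) v := by
              obtain ⟨i, hi⟩ := hu
              exact ⟨i, S.trans hi huv⟩
            simp only [y]
            rw [dif_pos hu, dif_pos hv]
            have a1 := hu.choose_spec
            have a2 := hv.choose_spec
            have a3 : S (b hu.choose) (b hv.choose) := S.trans (S.trans a1 huv) (S.symm a2)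
            exact h a3
          · have hv : ¬ ∃ i, S (b i) v := by
              rintro ⟨i, hi⟩
              exact hu ⟨i, S.trans hi (S.symm huv)⟩
            simp only [y]
            rw [dif_neg hu, dif_neg hv]
            congr 2
            exact Quotient.sound huv
        have hy2 : ∀ i, y (b i) = φ i := by
          intro i
          have hi : ∃ j, S (b j) (b i) := ⟨i, S.refl _⟩
          simp only [y]
          rw [dif_pos hi]
          exact h hi.choose_spec
        refine ⟨⟨y, hy1, hy2⟩, ?_⟩
        funext c
        obtain ⟨c, hc⟩ := c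
        induction c using Quotient.inductionOn with | _ v => ?_
        change y v = _
        have hv : ¬ ∃ i, S (b i) v := by
          rintro ⟨i, hi⟩
          exact hc i (Quotient.sound hi)
        simp only [y]
        rw [dif_neg hv]
    rw [Nat.card_congr (Equiv.ofBijective f hf), Nat.card_fun]
    unfold c0
    simp
  · rw [ind_neg h, mul_zero]
    have : IsEmpty {x : V → Fin m // S ≤ Setoid.ker x ∧ ∀ i, x (b i) = φ i} := by
      constructor
      rintro ⟨x, h1, h2⟩
      apply h
      intro i j hij
      change φ i = φ j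
      rw [← h2 i, ← h2 j]
      exact h1 hij
    rw [Nat.card_of_isEmpty]
    simp

/-- The number of proper colourings with prescribed boundary values. -/
noncomputable def Nb {n : ℕ} (H : SimpleGraph V) (b : Fin n → V) (m : ℕ) (φ : Fin n → Fin m) : ℕ :=
  Nat.card {x : V → Fin m // (∀ u v, H.Adj u v → x u ≠ x v) ∧ ∀ i, x (b i) = φ i}

theorem card_eq_sum {α : Type} [Fintype α] (P : α → Prop) :
    (Nat.card {x : α // P x} : ℝ) = ∑ x : α, ind (P x) := by
  unfold ind
  rw [Nat.card_eq_fintype_card, Fintype.card_subtype, Finset.sum_boole]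

theorem ind_and (P Q : Prop) : ind (P ∧ Q) = ind P * ind Q := by
  by_cases h : P <;> by_cases h' : Q <;> simp [ind, h, h']

theorem Nb_eq {n : ℕ} (H : SimpleGraph V) (b : Fin n → V) (m : ℕ) (φ : Fin n → Fin m) :
    (Nb H b m φ : ℝ) = ∑ A ∈ H.edgeFinset.powerset, (-1) ^ A.card *
      ((m : ℝ) ^ (c0 (conn A) b) * ind (Setoid.comap b (conn A) ≤ Setoid.ker φ)) := by
  unfold Nb
  rw [card_eq_sum]
  have h1 : ∀ x : V → Fin m,
      ind ((∀ u v, H.Adj u v → x u ≠ x v) ∧ ∀ i, x (b i) = φ i) =
      ∑ A ∈ H.edgeFinset.powerset, (-1) ^ A.card *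
        ind (conn A ≤ Setoid.ker x ∧ ∀ i, x (b i) = φ i) := by
    intro x
    rw [ind_and, proper_expand H x, Finset.sum_mul]
    refine Finset.sum_congr rfl (fun A _ => ?_)
    rw [ind_and]; ring
  rw [Finset.sum_congr rfl (fun x _ => h1 x), Finset.sum_comm]
  refine Finset.sum_congr rfl (fun A _ => ?_)
  rw [← Finset.mul_sum, ← count_respect, card_eq_sum]

theorem count_phi {n m : ℕ} (r : Setoid (Fin n)) :
    ∑ φ : Fin n → Fin m, ind (r ≤ Setoid.ker φ) = (m : ℝ) ^ (cl r) := by
  rw [← card_eq_sum]
  let f : {φ : Fin n → Fin m // r ≤ Setoid.ker φ} → (Quotient r → Fin m) :=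
    fun φ => Quotient.lift φ.1 (fun u v huv => φ.2 huv)
  have hf : Function.Bijective f := by
    constructor
    · intro x y hxy
      apply Subtype.ext
      funext v
      exact congrFun hxy (Quotient.mk r v)
    · intro z
      refine ⟨⟨fun v => z (Quotient.mk r v), ?_⟩, ?_⟩
      · intro u v huv
        exact congrArg z (Quotient.sound huv)
      · funext c
        induction c using Quotient.inductionOn with | _ v => rfl
  rw [Nat.card_congr (Equiv.ofBijective f hf), Nat.card_fun]
  unfold cl
  simp

end count

end Pool.Agent.H413R2.RP
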