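import Mathlib
import Pool.Agent.Helper486.Saddle.Crossing

/-! Two arcs in the closed upper half plane with interlaced end points intersect
(proof by helper605, from Pool.Agent.H709Q.T1, after a plan of helper709, copied here to keep the imports small). -/

set_option autoImplicit false

open Real Set Topology

namespace Pool.Agent.H413R2.RP

noncomputable section

/-- points of the plane as complex numbers -/
def t1c (z : ℝ × ℝ) : ℂ := ⟨z.1, z.2⟩

lemma t1c_inj {z w : ℝ × ℝ} (h : t1c z = t1c w) : z = w := by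
  have h1 := congrArg Complex.re h
  have h2 := congrArg Complex.im h
  exact Prod.ext h1 h2

lemma t1c_cont : Continuous t1c := Complex.equivRealProdCLM.symm.continuous

lemma t1_seg {z w u : ℂ} (h : u ∈ range (Path.segment z w)) :
    ∃ t : ℝ, 0 ≤ t ∧ t ≤ 1 ∧ u.re = (1 - t) * z.re + t * w.re ∧
      u.im = (1 - t) * z.im + t * w.im := by
  rw [Path.range_segment, segment_eq_image] at h
  obtain ⟨t, ht, rfl⟩ := h
  refine ⟨t, ht.1, ht.2, ?_, ?_⟩ <;> simp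

lemma t1_re_le {z w u : ℂ} {x : ℝ} (h : u ∈ range (Path.segment z w)) (hz : z.re ≤ x)
    (hw : w.re ≤ x) : u.re ≤ x := by
  obtain ⟨t, h0, h1, h2, -⟩ := t1_seg h
  rw [h2]
  nlinarith

lemma t1_le_re {z w u : ℂ} {x : ℝ} (h : u ∈ range (Path.segment z w)) (hz : x ≤ z.re)
    (hw : x ≤ w.re) : x ≤ u.re := by
  obtain ⟨t, h0, h1, h2, -⟩ := t1_seg h
  rw [h2]
  nlinarith

lemma t1_im_le {z w u : ℂ} {x : ℝ} (h : u ∈ range (Path.segment z w)) (hz : z.im ≤ x)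
    (hw : w.im ≤ x) : u.im ≤ x := by
  obtain ⟨t, h0, h1, -, h2⟩ := t1_seg h
  rw [h2]
  nlinarith

lemma t1_le_im {z w u : ℂ} {x : ℝ} (h : u ∈ range (Path.segment z w)) (hz : x ≤ z.im)
    (hw : x ≤ w.im) : x ≤ u.im := by
  obtain ⟨t, h0, h1, -, h2⟩ := t1_seg h
  rw [h2]
  nlinarith

lemma t1_bound {f : ℝ → ℝ × ℝ} (hf : ContinuousOn f (Icc 0 1)) :
    ∃ B : ℝ, ∀ s ∈ Icc (0:ℝ) 1, |(f s).1| ≤ B ∧ |(f s).2| ≤ B := by
  obtain ⟨B, hB⟩ := (isCompact_Icc (a := (0:ℝ)) (b := 1)).exists_bound_of_continuousOn hf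
  refine ⟨B, fun s hs => ?_⟩
  have h1 := hB s hs
  exact ⟨(norm_fst_le (f s)).trans h1, (norm_snd_le (f s)).trans h1⟩

/-- a path from a continuous function -/
def t1p (f : ℝ → ℝ × ℝ) (hf : ContinuousOn f (Icc 0 1)) (a c : ℝ) (h0 : f 0 = (a, 0))
    (h1 : f 1 = (c, 0)) : Path (⟨a, 0⟩ : ℂ) ⟨c, 0⟩ where
  toFun t := t1c (f t)
  continuous_toFun := t1c_cont.comp (continuousOn_iff_continuous_domRestrict.1 hf)
  source' := by
    change t1c (f 0) = _
    rw [h0]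
    rfl
  target' := by
    change t1c (f 1) = _
    rw [h1]
    rfl

lemma t1p_range (f : ℝ → ℝ × ℝ) (hf : ContinuousOn f (Icc 0 1)) (a c : ℝ) (h0 : f 0 = (a, 0))
    (h1 : f 1 = (c, 0)) {z : ℂ} (hz : z ∈ range (t1p f hf a c h0 h1)) :
    ∃ s ∈ Icc (0:ℝ) 1, z = t1c (f s) := by
  obtain ⟨s, rfl⟩ := hz
  exact ⟨s, s.2, rfl⟩

theorem halfCross (f g : ℝ → ℝ × ℝ) (hf : ContinuousOn f (Icc 0 1)) (hg : ContinuousOn g (Icc 0 1))
    (hf0 : ∀ t ∈ Icc (0:ℝ) 1, 0 ≤ (f t).2) (hg0 : ∀ t ∈ Icc (0:ℝ) 1, 0 ≤ (g t).2)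
    (a b c d : ℝ) (hab : a < b) (hbc : b < c) (hcd : c < d) (hfa : f 0 = (a, 0))
    (hfc : f 1 = (c, 0)) (hgb : g 0 = (b, 0)) (hgd : g 1 = (d, 0)) :
    ∃ s ∈ Icc (0:ℝ) 1, ∃ t ∈ Icc (0:ℝ) 1, f s = g t := by
  obtain ⟨B₁, hB₁⟩ := t1_bound hf
  obtain ⟨B₂, hB₂⟩ := t1_bound hg
  obtain ⟨M, hM⟩ : ∃ M : ℝ, M = max B₁ B₂ + |a| + |b| + |c| + |d| + 1 := ⟨_, rfl⟩
  have hm1 := le_max_left B₁ B₂
  have hm2 := le_max_right B₁ B₂
  have ha1 := abs_le.1 (le_refl |a|)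
  have hb1 := abs_le.1 (le_refl |b|)
  have hc1 := abs_le.1 (le_refl |c|)
  have hd1 := abs_le.1 (le_refl |d|)
  have ha0 := abs_nonneg a
  have hb0 := abs_nonneg b
  have hc0 := abs_nonneg c
  have hd0 := abs_nonneg d
  have hB0 : 0 ≤ max B₁ B₂ :=
    (abs_nonneg _).trans ((hB₁ 0 (left_mem_Icc.2 zero_le_one)).1.trans hm1)
  let γ : Path (⟨-(M + 1), -1⟩ : ℂ) ⟨M + 1, -1⟩ :=
    ((((Path.segment (⟨-(M + 1), -1⟩ : ℂ) (⟨a, -1⟩ : ℂ)).trans
      (Path.segment (⟨a, -1⟩ : ℂ) (⟨a, 0⟩ : ℂ))).trans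
      (t1p f hf a c hfa hfc)).trans (Path.segment (⟨c, 0⟩ : ℂ) (⟨c, -1⟩ : ℂ))).trans
      (Path.segment (⟨c, -1⟩ : ℂ) (⟨M + 1, -1⟩ : ℂ))
  let δ : Path (⟨b, -2⟩ : ℂ) ⟨M, M⟩ :=
    ((((Path.segment (⟨b, -2⟩ : ℂ) (⟨b, 0⟩ : ℂ)).trans (t1p g hg b d hgb hgd)).trans
      (Path.segment (⟨d, 0⟩ : ℂ) (⟨d, -1 / 2⟩ : ℂ))).trans
      (Path.segment (⟨d, -1 / 2⟩ : ℂ) (⟨M, -1 / 2⟩ : ℂ))).trans
      (Path.segment (⟨M, -1 / 2⟩ : ℂ) (⟨M, M⟩ : ℂ))
  have hγ : ∀ s, ((γ s).im = -1 ∧ -(M + 1) ≤ (γ s).re ∧ (γ s).re ≤ a) ∨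
      ((γ s).re = a ∧ -1 ≤ (γ s).im ∧ (γ s).im ≤ 0) ∨ (∃ u ∈ Icc (0:ℝ) 1, γ s = t1c (f u)) ∨
      ((γ s).re = c ∧ -1 ≤ (γ s).im ∧ (γ s).im ≤ 0) ∨
      ((γ s).im = -1 ∧ c ≤ (γ s).re ∧ (γ s).re ≤ M + 1) := by
    intro s
    have h : γ s ∈ range γ := mem_range_self s
    simp only [γ, Path.trans_range, mem_union] at h
    rcases h with (((h | h) | h) | h) | h
    · exact Or.inl ⟨le_antisymm (t1_im_le h le_rfl le_rfl) (t1_le_im h le_rfl le_rfl),
        t1_le_re h le_rfl (by simp only; linarith), t1_re_le h (by simp only; linarith) le_rfl⟩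
    · exact Or.inr (Or.inl ⟨le_antisymm (t1_re_le h le_rfl le_rfl) (t1_le_re h le_rfl le_rfl),
        t1_le_im h le_rfl (by norm_num), t1_im_le h (by norm_num) le_rfl⟩)
    · exact Or.inr (Or.inr (Or.inl (t1p_range f hf a c hfa hfc h)))
    · exact Or.inr (Or.inr (Or.inr (Or.inl ⟨le_antisymm (t1_re_le h le_rfl le_rfl)
        (t1_le_re h le_rfl le_rfl), t1_le_im h (by norm_num) le_rfl,
        t1_im_le h le_rfl (by norm_num)⟩)))
    · exact Or.inr (Or.inr (Or.inr (Or.inr ⟨le_antisymm (t1_im_le h le_rfl le_rfl)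
        (t1_le_im h le_rfl le_rfl), t1_le_re h le_rfl (by simp only; linarith),
        t1_re_le h (by simp only; linarith) le_rfl⟩)))
  have hδ : ∀ s, ((δ s).re = b ∧ (δ s).im ≤ 0) ∨ (∃ u ∈ Icc (0:ℝ) 1, δ s = t1c (g u)) ∨
      ((δ s).re = d ∧ -1 / 2 ≤ (δ s).im ∧ (δ s).im ≤ 0) ∨
      ((δ s).im = -1 / 2 ∧ d ≤ (δ s).re ∧ (δ s).re ≤ M) ∨
      ((δ s).re = M ∧ -1 / 2 ≤ (δ s).im) := by
    intro s
    have h : δ s ∈ range δ := mem_range_self s
    simp only [δ, Path.trans_range, mem_union] at h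
    rcases h with (((h | h) | h) | h) | h
    · exact Or.inl ⟨le_antisymm (t1_re_le h le_rfl le_rfl) (t1_le_re h le_rfl le_rfl),
        t1_im_le h (by norm_num) le_rfl⟩
    · exact Or.inr (Or.inl (t1p_range g hg b d hgb hgd h))
    · exact Or.inr (Or.inr (Or.inl ⟨le_antisymm (t1_re_le h le_rfl le_rfl)
        (t1_le_re h le_rfl le_rfl), t1_le_im h (by norm_num) le_rfl,
        t1_im_le h le_rfl (by norm_num)⟩))
    · exact Or.inr (Or.inr (Or.inr (Or.inl ⟨le_antisymm (t1_im_le h le_rfl le_rfl)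
        (t1_le_im h le_rfl le_rfl), t1_le_re h le_rfl (by simp only; linarith),
        t1_re_le h (by simp only; linarith) le_rfl⟩)))
    · exact Or.inr (Or.inr (Or.inr (Or.inr ⟨le_antisymm (t1_re_le h le_rfl le_rfl)
        (t1_le_re h le_rfl le_rfl), t1_le_im h le_rfl (by simp only; linarith)⟩)))
  have hfb : ∀ u ∈ Icc (0:ℝ) 1, -M < (f u).1 ∧ (f u).1 < M ∧ 0 ≤ (f u).2 ∧ (f u).2 < M := by
    intro u hu
    obtain ⟨h1, h2⟩ := hB₁ u hu
    have h3 := abs_le.1 h1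
    have h4 := abs_le.1 h2
    exact ⟨by linarith [h3.1], by linarith [h3.2], hf0 u hu, by linarith [h4.2]⟩
  have hgb' : ∀ u ∈ Icc (0:ℝ) 1, -M < (g u).1 ∧ (g u).1 < M ∧ 0 ≤ (g u).2 ∧ (g u).2 < M := by
    intro u hu
    obtain ⟨h1, h2⟩ := hB₂ u hu
    have h3 := abs_le.1 h1
    have h4 := abs_le.1 h2
    exact ⟨by linarith [h3.1], by linarith [h3.2], hg0 u hu, by linarith [h4.2]⟩
  obtain ⟨s, t, hst⟩ := Saddle486.crossing γ δ (by
      intro t
      simp only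
      rcases hδ t with h | ⟨u, hu, h⟩ | h | h | h
      · rw [h.1]; linarith [hb1.1]
      · rw [h]
        have := hgb' u hu
        simp only [t1c]
        linarith
      · rw [h.1]; linarith [hd1.1]
      · linarith [h.2.1, hd1.1]
      · rw [h.1]; linarith)
    (by
      intro t
      simp only
      rcases hδ t with h | ⟨u, hu, h⟩ | h | h | h
      · rw [h.1]; linarith [hb1.2]
      · rw [h]
        have := hgb' u hu
        simp only [t1c]
        linarith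
      · rw [h.1]; linarith [hd1.2]
      · linarith [h.2.2]
      · rw [h.1]; linarith)
    (by
      intro s
      simp only
      rcases hγ s with h | h | ⟨u, hu, h⟩ | h | h
      · rw [h.1]; norm_num
      · linarith [h.2.1]
      · rw [h]
        have := hfb u hu
        simp only [t1c]
        linarith
      · linarith [h.2.1]
      · rw [h.1]; norm_num)
    (by
      intro s
      simp only
      rcases hγ s with h | h | ⟨u, hu, h⟩ | h | h
      · rw [h.1]; linarith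
      · linarith [h.2.2]
      · rw [h]
        have := hfb u hu
        simp only [t1c]
        linarith
      · linarith [h.2.2]
      · rw [h.1]; linarith)
  have hδ' := hδ t
  rw [← hst] at hδ'
  have h01 : (0:ℝ) ∈ Icc (0:ℝ) 1 := left_mem_Icc.2 zero_le_one
  have h11 : (1:ℝ) ∈ Icc (0:ℝ) 1 := right_mem_Icc.2 zero_le_one
  rcases hγ s with h | h | ⟨u, hu, h⟩ | h | h
  · rcases hδ' with h' | ⟨u', hu', h'⟩ | h' | h' | h'
    · exfalso; linarith [h.2.2, h'.1]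
    · exfalso
      have h1 := (hgb' u' hu').2.2.1
      rw [h'] at h
      simp only [t1c] at h
      linarith [h.1]
    · exfalso; linarith [h.1, h'.2.1]
    · exfalso; linarith [h.1, h'.1]
    · exfalso; linarith [h.1, h'.2]
  · rcases hδ' with h' | ⟨u', hu', h'⟩ | h' | h' | h'
    · exfalso; linarith [h.1, h'.1]
    · have h1 := (hgb' u' hu').2.2.1
      refine ⟨0, h01, u', hu', ?_⟩
      rw [h'] at h
      simp only [t1c] at h
      rw [hfa]
      exact Prod.ext h.1.symm (le_antisymm h1 h.2.2)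
    · exfalso; linarith [h.1, h'.1]
    · exfalso; linarith [h.1, h'.2.1]
    · exfalso; linarith [h.1, h'.1, ha1.2]
  · have h2 := hfb u hu
    rcases hδ' with h' | ⟨u', hu', h'⟩ | h' | h' | h'
    · refine ⟨u, hu, 0, h01, ?_⟩
      rw [h] at h'
      simp only [t1c] at h'
      rw [hgb]
      exact Prod.ext h'.1 (le_antisymm h'.2 h2.2.2.1)
    · exact ⟨u, hu, u', hu', t1c_inj (h.symm.trans h')⟩
    · refine ⟨u, hu, 1, h11, ?_⟩
      rw [h] at h'
      simp only [t1c] at h'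
      rw [hgd]
      exact Prod.ext h'.1 (le_antisymm h'.2.2 h2.2.2.1)
    · exfalso
      rw [h] at h'
      simp only [t1c] at h'
      linarith [h'.1, h2.2.2.1]
    · exfalso
      rw [h] at h'
      simp only [t1c] at h'
      linarith [h'.1, h2.2.1]
  · rcases hδ' with h' | ⟨u', hu', h'⟩ | h' | h' | h'
    · exfalso; linarith [h.1, h'.1]
    · have h1 := (hgb' u' hu').2.2.1
      refine ⟨1, h11, u', hu', ?_⟩
      rw [h'] at h
      simp only [t1c] at h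
      rw [hfc]
      exact Prod.ext h.1.symm (le_antisymm h1 h.2.2)
    · exfalso; linarith [h.1, h'.1]
    · exfalso; linarith [h.1, h'.2.1]
    · exfalso; linarith [h.1, h'.1, hc1.2]
  · rcases hδ' with h' | ⟨u', hu', h'⟩ | h' | h' | h'
    · exfalso; linarith [h.2.1, h'.1]
    · exfalso
      have h1 := (hgb' u' hu').2.2.1
      rw [h'] at h
      simp only [t1c] at h
      linarith [h.1]
    · exfalso; linarith [h.1, h'.2.1]
    · exfalso; linarith [h.1, h'.1]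
    · exfalso; linarith [h.1, h'.2]

end

end Pool.Agent.H413R2.RP
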