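import Pool.Agent.H413R2.RP.Glue
import Pool.Agent.H413R2.RP.HalfCross

set_option autoImplicit false

namespace Pool.Agent.H413R2.RP

open Set

/-- `(f, γ)` is a plane drawing of `G`: the vertices are distinct points `f v`; for adjacent `u, v`
the arc `γ u v` runs from `f u` to `f v`, is simple, contains no vertex in its interior, and the
interiors of arcs of different edges are disjoint. -/
def IsDrawing {V : Type} (G : SimpleGraph V) (f : V → ℝ × ℝ) (γ : V → V → ℝ → ℝ × ℝ) : Prop :=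
  Function.Injective f ∧
  (∀ u v : V, G.Adj u v →
    ContinuousOn (γ u v) (Set.Icc (0:ℝ) 1) ∧ Set.InjOn (γ u v) (Set.Icc (0:ℝ) 1) ∧
    γ u v 0 = f u ∧ γ u v 1 = f v ∧
    ∀ t ∈ Set.Ioo (0:ℝ) 1, ∀ w : V, γ u v t ≠ f w) ∧
  (∀ u v u' v' : V, G.Adj u v → G.Adj u' v' → s(u, v) ≠ s(u', v') →
    ∀ t ∈ Set.Ioo (0:ℝ) 1, ∀ t' ∈ Set.Ioo (0:ℝ) 1, γ u v t ≠ γ u' v' t')

/-- The trace of a walk. -/
def Tr {V : Type} {H : SimpleGraph V} (f : V → ℝ × ℝ) (γ : V → V → ℝ → ℝ × ℝ) {u v : V}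
    (p : H.Walk u v) : Set (ℝ × ℝ) :=
  {z | (∃ w ∈ p.support, z = f w) ∨
    ∃ x y, x ∈ p.support ∧ y ∈ p.support ∧ H.Adj x y ∧ ∃ s ∈ Set.Ioo (0:ℝ) 1, z = γ x y s}

theorem joined_edge {V : Type} {H : SimpleGraph V} {f : V → ℝ × ℝ} {γ : V → V → ℝ → ℝ × ℝ}
    (hd : IsDrawing H f γ) {x y : V} (hxy : H.Adj x y) :
    JoinedIn {z | z = f x ∨ z = f y ∨ ∃ s ∈ Set.Ioo (0:ℝ) 1, z = γ x y s} (f x) (f y) := by
  obtain ⟨hc, _, h0, h1, _⟩ := hd.2.1 x y hxy
  let P : Path (f x) (f y) :=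
    { toFun := fun t => γ x y t
      continuous_toFun := continuousOn_iff_continuous_domRestrict.1 hc
      source' := by
        change γ x y 0 = _
        exact h0
      target' := by
        change γ x y 1 = _
        exact h1 }
  refine ⟨P, ?_⟩
  intro t
  change γ x y t = f x ∨ γ x y t = f y ∨ ∃ s ∈ Set.Ioo (0:ℝ) 1, γ x y t = γ x y s
  rcases eq_or_lt_of_le t.2.1 with h | h
  · left; rw [← h, h0]
  · rcases eq_or_lt_of_le t.2.2 with h' | h'
    · right; left; rw [h', h1]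
    · right; right; exact ⟨t, ⟨h, h'⟩, rfl⟩

theorem joined_walk {V : Type} {H : SimpleGraph V} {f : V → ℝ × ℝ} {γ : V → V → ℝ → ℝ × ℝ}
    (hd : IsDrawing H f γ) {u v : V} (p : H.Walk u v) : JoinedIn (Tr f γ p) (f u) (f v) := by
  induction p with
  | nil =>
    apply JoinedIn.refl
    left
    exact ⟨_, by simp, rfl⟩
  | cons h p ih =>
    rename_i a b c
    have h1 := joined_edge hd h
    have h2 : JoinedIn (Tr f γ (SimpleGraph.Walk.cons h p)) (f a) (f b) := by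
      refine h1.mono ?_
      rintro z (rfl | rfl | ⟨s, hs, rfl⟩)
      · left; exact ⟨a, by simp, rfl⟩
      · left; exact ⟨b, by simp, rfl⟩
      · right; exact ⟨a, b, by simp, by simp, h, s, hs, rfl⟩
    have h3 : JoinedIn (Tr f γ (SimpleGraph.Walk.cons h p)) (f b) (f c) := by
      refine ih.mono ?_
      rintro z (⟨w, hw, rfl⟩ | ⟨x, y, hx, hy, hxy, s, hs, rfl⟩)
      · left; exact ⟨w, by simp [hw], rfl⟩
      · right; exact ⟨x, y, by simp [hx], by simp [hy], hxy, s, hs, rfl⟩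
    exact h2.trans h3

theorem unlinked_of_drawing {n : ℕ} {V : Type} {H : SimpleGraph V} {f : V → ℝ × ℝ}
    {γ : V → V → ℝ → ℝ × ℝ} (hd : IsDrawing H f γ) (hv : ∀ v, 0 ≤ (f v).2)
    (hup : ∀ u v, H.Adj u v → ∀ t ∈ Set.Ioo (0:ℝ) 1, 0 ≤ (γ u v t).2)
    (b : Fin n → V) (hb0 : ∀ i, (f (b i)).2 = 0)
    (hbm : ∀ i j, i < j → (f (b i)).1 < (f (b j)).1) : Unlinked H b := by
  intro i j k l hij hjk hkl p p'
  have hpos : ∀ {u v : V} (p : H.Walk u v) (z : ℝ × ℝ), z ∈ Tr f γ p → 0 ≤ z.2 := by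
    rintro u v p z (⟨w, _, rfl⟩ | ⟨x, y, _, _, hxy, s, hs, rfl⟩)
    · exact hv w
    · exact hup x y hxy s hs
  obtain ⟨P, hP⟩ := joined_walk hd p
  obtain ⟨P', hP'⟩ := joined_walk hd p'
  have e1 : ∀ t ∈ Set.Icc (0:ℝ) 1, P.extend t ∈ Tr f γ p := by
    intro t ht
    rw [Path.extend_apply P ht]
    exact hP _
  have e2 : ∀ t ∈ Set.Icc (0:ℝ) 1, P'.extend t ∈ Tr f γ p' := by
    intro t ht
    rw [Path.extend_apply P' ht]
    exact hP' _
  obtain ⟨s, hs, t, ht, hst⟩ := halfCross (fun t => P.extend t) (fun t => P'.extend t)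
    P.continuous_extend.continuousOn P'.continuous_extend.continuousOn
    (fun t ht => hpos p _ (e1 t ht)) (fun t ht => hpos p' _ (e2 t ht))
    (f (b i)).1 (f (b j)).1 (f (b k)).1 (f (b l)).1 (hbm i j hij) (hbm j k hjk) (hbm k l hkl)
    (by simp only [Path.extend_zero]; exact Prod.ext rfl (hb0 i))
    (by simp only [Path.extend_one]; exact Prod.ext rfl (hb0 k))
    (by simp only [Path.extend_zero]; exact Prod.ext rfl (hb0 j))
    (by simp only [Path.extend_one]; exact Prod.ext rfl (hb0 l))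
  have m1 := e1 s hs
  have m2 := e2 t ht
  rw [hst] at m1
  rcases m1 with ⟨w, hw, h1⟩ | ⟨x, y, hx, hy, hxy, r, hr, h1⟩
  · rcases m2 with ⟨w', hw', h2⟩ | ⟨x', y', hx', hy', hxy', r', hr', h2⟩
    · have : w = w' := hd.1 (h1.symm.trans h2)
      subst this
      exact ⟨w, hw, hw'⟩
    · exact absurd (h2.symm.trans h1) ((hd.2.1 x' y' hxy').2.2.2.2 r' hr' w)
  · rcases m2 with ⟨w', hw', h2⟩ | ⟨x', y', hx', hy', hxy', r', hr', h2⟩
    · exact absurd (h1.symm.trans h2) ((hd.2.1 x y hxy).2.2.2.2 r hr w')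
    · by_cases hs2 : s(x, y) = s(x', y')
      · rw [Sym2.eq_iff] at hs2
        rcases hs2 with ⟨h3, _⟩ | ⟨h3, _⟩
        · exact ⟨x, hx, h3 ▸ hx'⟩
        · exact ⟨x, hx, h3 ▸ hy'⟩
      · exact absurd (h1.symm.trans h2) (hd.2.2 x y x' y' hxy hxy' hs2 r hr r' hr')

end Pool.Agent.H413R2.RP
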