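import Pool.Agent.H413R2.RP.Chrom

set_option autoImplicit false

namespace Pool.Agent.H413R2.RP

open Finset Polynomial

/-- The ordered list `b 0, b 1, ...` of vertices of `H` is unlinked: for `i < j < k < l` every walk
from `b i` to `b k` meets every walk from `b j` to `b l`. -/
def Unlinked {n : ℕ} {V : Type} (H : SimpleGraph V) (b : Fin n → V) : Prop :=
  ∀ i j k l : Fin n, i < j → j < k → k < l →
    ∀ (p : H.Walk (b i) (b k)) (p' : H.Walk (b j) (b l)), ∃ v, v ∈ p.support ∧ v ∈ p'.support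

/-- `G` is (a copy of) the graph obtained from the disjoint union of `H₁` and `H₂` by identifying
the vertex `b₁ i` with the vertex `b₂ i`, for every `i` (parallel edges are merged). -/
def IsGlue {n : ℕ} {W V₁ V₂ : Type} (G : SimpleGraph W) (H₁ : SimpleGraph V₁) (b₁ : Fin n → V₁)
    (H₂ : SimpleGraph V₂) (b₂ : Fin n → V₂) : Prop :=
  ∃ (f₁ : V₁ → W) (f₂ : V₂ → W), Function.Injective f₁ ∧ Function.Injective f₂ ∧
    (∀ i, f₁ (b₁ i) = f₂ (b₂ i)) ∧
    (∀ x y, f₁ x = f₂ y → ∃ i, x = b₁ i ∧ y = b₂ i) ∧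
    (∀ w, (∃ x, f₁ x = w) ∨ (∃ y, f₂ y = w)) ∧
    (∀ w w', G.Adj w w' ↔ (∃ x x', H₁.Adj x x' ∧ f₁ x = w ∧ f₁ x' = w') ∨
      (∃ y y', H₂.Adj y y' ∧ f₂ y = w ∧ f₂ y' = w'))

/-- `p` is the chromatic polynomial of `G`. -/
def IsChrom {V : Type} (G : SimpleGraph V) (p : Polynomial ℝ) : Prop :=
  ∀ m : ℕ, p.eval (m : ℝ) = (Nat.card (G.Coloring (Fin m)) : ℝ)

theorem walk_of_conn {V : Type} {H : SimpleGraph V} {A : Finset (Sym2 V)}
    (hA : ∀ e ∈ A, e ∈ H.edgeSet) {u v : V} (h : conn A u v) :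
    ∃ p : H.Walk u v, ∀ w ∈ p.support, conn A u w := by
  induction h with
  | rel x y hxy =>
    have hadj : H.Adj x y := by
      have := hA _ hxy
      rwa [SimpleGraph.mem_edgeSet] at this
    refine ⟨SimpleGraph.Walk.cons hadj SimpleGraph.Walk.nil, ?_⟩
    intro w hw
    simp only [SimpleGraph.Walk.support_cons, SimpleGraph.Walk.support_nil, List.mem_cons,
      List.mem_nil_iff, or_false] at hw
    rcases hw with rfl | rfl
    · exact (conn A).refl _
    · exact Relation.EqvGen.rel _ _ hxy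
  | refl x =>
    refine ⟨SimpleGraph.Walk.nil, ?_⟩
    intro w hw
    simp only [SimpleGraph.Walk.support_nil, List.mem_cons, List.mem_nil_iff, or_false] at hw
    subst hw; exact (conn A).refl _
  | symm x y hxy ih =>
    obtain ⟨p, hp⟩ := ih
    refine ⟨p.reverse, ?_⟩
    intro w hw
    rw [SimpleGraph.Walk.support_reverse, List.mem_reverse] at hw
    exact (conn A).trans ((conn A).symm hxy) (hp w hw)
  | trans x y z hxy hyz ih1 ih2 =>
    obtain ⟨p, hp⟩ := ih1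
    obtain ⟨p', hp'⟩ := ih2
    refine ⟨p.append p', ?_⟩
    intro w hw
    rw [SimpleGraph.Walk.mem_support_append_iff] at hw
    rcases hw with hw | hw
    · exact hp w hw
    · exact (conn A).trans hxy (hp' w hw)

theorem Unlinked.nc {n : ℕ} {V : Type} {H : SimpleGraph V} {b : Fin n → V} (h : Unlinked H b)
    {A : Finset (Sym2 V)} (hA : ∀ e ∈ A, e ∈ H.edgeSet) : NC (Setoid.comap b (conn A)) := by
  intro i j k l hij hjk hkl h1 h2
  obtain ⟨p, hp⟩ := walk_of_conn hA (h1 : conn A (b i) (b k))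
  obtain ⟨p', hp'⟩ := walk_of_conn hA (h2 : conn A (b j) (b l))
  obtain ⟨v, hv1, hv2⟩ := h i j k l hij hjk hkl p p'
  exact (conn A).trans (hp v hv1) ((conn A).symm (hp' v hv2))

section glue

variable {n : ℕ} {W V₁ V₂ : Type} [Fintype V₁] [Fintype V₂] {G : SimpleGraph W}
  {H₁ : SimpleGraph V₁} {b₁ : Fin n → V₁} {H₂ : SimpleGraph V₂} {b₂ : Fin n → V₂}

theorem card_glue (h : IsGlue G H₁ b₁ H₂ b₂) (m : ℕ) :
    (Nat.card (G.Coloring (Fin m)) : ℝ) =
      ∑ φ : Fin n → Fin m, (Nb H₁ b₁ m φ : ℝ) * (Nb H₂ b₂ m φ : ℝ) := by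
  classical
  obtain ⟨f₁, f₂, hf₁, hf₂, hb, hint, hcov, hadj⟩ := h
  let P : (V₁ → Fin m) × (V₂ → Fin m) → Prop := fun x =>
    (∀ u v, H₁.Adj u v → x.1 u ≠ x.1 v) ∧ (∀ u v, H₂.Adj u v → x.2 u ≠ x.2 v) ∧
      ∀ i, x.1 (b₁ i) = x.2 (b₂ i)
  let g : G.Coloring (Fin m) → {x // P x} := fun c =>
    ⟨(fun v => c (f₁ v), fun v => c (f₂ v)),
      fun u v huv => c.valid ((hadj _ _).mpr (Or.inl ⟨u, v, huv, rfl, rfl⟩)),
      fun u v huv => c.valid ((hadj _ _).mpr (Or.inr ⟨u, v, huv, rfl, rfl⟩)),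
      fun i => by
        change c (f₁ (b₁ i)) = c (f₂ (b₂ i))
        rw [hb]⟩
  have hg : Function.Bijective g := by
    constructor
    · intro c c' hcc
      have h1 : (g c).1.1 = (g c').1.1 := by rw [hcc]
      have h2 : (g c).1.2 = (g c').1.2 := by rw [hcc]
      apply RelHom.ext
      intro w
      rcases hcov w with ⟨x, rfl⟩ | ⟨y, rfl⟩
      · exact congrFun h1 x
      · exact congrFun h2 y
    · rintro ⟨⟨x₁, x₂⟩, hx1, hx2, hx3⟩
      have hy : ∀ w, (¬ ∃ x, f₁ x = w) → ∃ y, f₂ y = w := fun w hw => (hcov w).resolve_left hw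
      let c : W → Fin m := fun w => if hw : ∃ x, f₁ x = w then x₁ hw.choose
        else x₂ (hy w hw).choose
      have hc1 : ∀ x, c (f₁ x) = x₁ x := by
        intro x
        have hw : ∃ x', f₁ x' = f₁ x := ⟨x, rfl⟩
        simp only [c]
        rw [dif_pos hw]
        rw [hf₁ hw.choose_spec]
      have hc2 : ∀ y, c (f₂ y) = x₂ y := by
        intro y
        by_cases hw : ∃ x', f₁ x' = f₂ y
        · obtain ⟨x', hx'⟩ := hw
          obtain ⟨i, hi1, hi2⟩ := hint x' y hx'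
          rw [← hx', hc1, hi1, hi2]
          exact hx3 i
        · simp only [c]
          rw [dif_neg hw]
          rw [hf₂ (hy (f₂ y) hw).choose_spec]
      refine ⟨SimpleGraph.Coloring.mk c ?_, ?_⟩
      · intro w w' hww
        rcases (hadj w w').mp hww with ⟨x, x', hxx, rfl, rfl⟩ | ⟨y, y', hyy, rfl, rfl⟩
        · rw [hc1, hc1]; exact hx1 x x' hxx
        · rw [hc2, hc2]; exact hx2 y y' hyy
      · apply Subtype.ext
        change (fun v => c (f₁ v), fun v => c (f₂ v)) = (x₁, x₂)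
        rw [Prod.mk.injEq]
        exact ⟨funext hc1, funext hc2⟩
  rw [Nat.card_congr (Equiv.ofBijective g hg), card_eq_sum, Fintype.sum_prod_type]
  have h1 : ∀ φ : Fin n → Fin m, (Nb H₁ b₁ m φ : ℝ) * (Nb H₂ b₂ m φ : ℝ) =
      ∑ x₁ : V₁ → Fin m, ∑ x₂ : V₂ → Fin m,
        ind ((∀ u v, H₁.Adj u v → x₁ u ≠ x₁ v) ∧ ∀ i, x₁ (b₁ i) = φ i) *
        ind ((∀ u v, H₂.Adj u v → x₂ u ≠ x₂ v) ∧ ∀ i, x₂ (b₂ i) = φ i) := by
    intro φ
    unfold Nb
    rw [card_eq_sum, card_eq_sum, Finset.sum_mul_sum]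
  rw [Finset.sum_congr rfl (fun φ _ => h1 φ)]
  conv_rhs => rw [Finset.sum_comm]
  refine Finset.sum_congr rfl (fun x₁ _ => ?_)
  conv_rhs => rw [Finset.sum_comm]
  refine Finset.sum_congr rfl (fun x₂ _ => ?_)
  rw [Finset.sum_eq_single (fun i => x₁ (b₁ i))]
  · simp only [P]
    rw [ind_and, ind_and, ind_and, ind_and]
    have e1 : ind (∀ _ : Fin n, True) = 1 := ind_pos (fun _ => trivial)
    have e2 : ind (∀ i, x₂ (b₂ i) = x₁ (b₁ i)) = ind (∀ i, x₁ (b₁ i) = x₂ (b₂ i)) := by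
      congr 1
      exact propext ⟨fun h i => (h i).symm, fun h i => (h i).symm⟩
    rw [e1, e2]; ring
  · intro φ _ hφ
    have : ¬ ∀ i, x₁ (b₁ i) = φ i := fun h => hφ (funext fun i => (h i).symm)
    rw [ind_and, ind_neg this]; ring
  · intro h; exact absurd (Finset.mem_univ _) h

open Classical in
/-- The vector of a graph with boundary. -/
noncomputable def vec {V : Type} [Fintype V] (v : Setoid (Fin n) → St n → ℝ) (q : ℝ)
    (H : SimpleGraph V) (b : Fin n → V) (x : St n) : ℝ :=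
  ∑ A ∈ H.edgeFinset.powerset,
    (-1) ^ A.card * q ^ (c0 (conn A) b) * v (Setoid.comap b (conn A)) x

theorem eval_glue {q : ℝ} (v : Setoid (Fin n) → St n → ℝ)
    (hv : ∀ r t : Setoid (Fin n), NC r → NC t → ∑ x : St n, v r x * v t x = q ^ (cl (r ⊔ t)))
    (h1 : Unlinked H₁ b₁) (h2 : Unlinked H₂ b₂) (h : IsGlue G H₁ b₁ H₂ b₂)
    {p : Polynomial ℝ} (hp : IsChrom G p) :
    p.eval q = ∑ x : St n, vec v q H₁ b₁ x * vec v q H₂ b₂ x := by
  classical
  let P : Polynomial ℝ := ∑ A ∈ H₁.edgeFinset.powerset, ∑ B ∈ H₂.edgeFinset.powerset,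
    C ((-1) ^ A.card * (-1) ^ B.card) * X ^ (c0 (conn A) b₁ + c0 (conn B) b₂ +
      cl (Setoid.comap b₁ (conn A) ⊔ Setoid.comap b₂ (conn B)))
  have hP : ∀ m : ℕ, P.eval (m : ℝ) = (Nat.card (G.Coloring (Fin m)) : ℝ) := by
    intro m
    rw [card_glue h m]
    have e1 : ∀ φ : Fin n → Fin m, (Nb H₁ b₁ m φ : ℝ) * (Nb H₂ b₂ m φ : ℝ) =
        ∑ A ∈ H₁.edgeFinset.powerset, ∑ B ∈ H₂.edgeFinset.powerset,
        ((-1) ^ A.card * (m : ℝ) ^ (c0 (conn A) b₁) * ((-1) ^ B.card * (m : ℝ) ^ (c0 (conn B) b₂))) *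
          ind (Setoid.comap b₁ (conn A) ⊔ Setoid.comap b₂ (conn B) ≤ Setoid.ker φ) := by
      intro φ
      rw [Nb_eq, Nb_eq, Finset.sum_mul_sum]
      refine Finset.sum_congr rfl (fun A _ => Finset.sum_congr rfl (fun B _ => ?_))
      have : ind (Setoid.comap b₁ (conn A) ⊔ Setoid.comap b₂ (conn B) ≤ Setoid.ker φ) =
          ind (Setoid.comap b₁ (conn A) ≤ Setoid.ker φ) *
          ind (Setoid.comap b₂ (conn B) ≤ Setoid.ker φ) := by
        rw [← ind_and]; congr 1; exact propext sup_le_iff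
      rw [this]; ring
    rw [Finset.sum_congr rfl (fun φ _ => e1 φ), Finset.sum_comm]
    simp only [P, Polynomial.eval_finsetSum]
    refine Finset.sum_congr rfl (fun A _ => ?_)
    conv_rhs => rw [Finset.sum_comm]
    refine Finset.sum_congr rfl (fun B _ => ?_)
    rw [← Finset.mul_sum, count_phi]
    simp only [eval_mul, eval_C, eval_pow, eval_X, pow_add]
    ring
  have hpP : p = P := by
    apply Polynomial.eq_of_infinite_eval_eq
    apply Set.Infinite.mono (s := Set.range (fun m : ℕ => (m : ℝ)))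
    · rintro _ ⟨m, rfl⟩
      change eval (m : ℝ) p = eval (m : ℝ) P
      rw [hp m, hP m]
    · exact Set.infinite_range_of_injective Nat.cast_injective
  rw [hpP]
  simp only [P, Polynomial.eval_finsetSum]
  have e2 : ∀ x : St n, vec v q H₁ b₁ x * vec v q H₂ b₂ x =
      ∑ A ∈ H₁.edgeFinset.powerset, ∑ B ∈ H₂.edgeFinset.powerset,
        ((-1) ^ A.card * q ^ (c0 (conn A) b₁) * ((-1) ^ B.card * q ^ (c0 (conn B) b₂))) *
          (v (Setoid.comap b₁ (conn A)) x * v (Setoid.comap b₂ (conn B)) x) := by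
    intro x
    unfold vec
    rw [Finset.sum_mul_sum]
    refine Finset.sum_congr rfl (fun A _ => Finset.sum_congr rfl (fun B _ => ?_))
    ring
  rw [Finset.sum_congr rfl (fun x _ => e2 x)]
  conv_rhs => rw [Finset.sum_comm]
  refine Finset.sum_congr rfl (fun A hA => ?_)
  conv_rhs => rw [Finset.sum_comm]
  refine Finset.sum_congr rfl (fun B hB => ?_)
  have hA' : ∀ e ∈ A, e ∈ H₁.edgeSet := by
    intro e he
    have := Finset.mem_powerset.mp hA he
    rwa [SimpleGraph.mem_edgeFinset] at this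
  have hB' : ∀ e ∈ B, e ∈ H₂.edgeSet := by
    intro e he
    have := Finset.mem_powerset.mp hB he
    rwa [SimpleGraph.mem_edgeFinset] at this
  rw [← Finset.mul_sum, hv _ _ (h1.nc hA') (h2.nc hB')]
  simp only [eval_mul, eval_C, eval_pow, eval_X, pow_add]
  ring

/-- **Cauchy-Schwarz for gluing.** -/
theorem glue_cs {q : ℝ} (hq : 4 ≤ q) (h1 : Unlinked H₁ b₁) (h2 : Unlinked H₂ b₂)
    {W₁ W₂ : Type} {G₁ : SimpleGraph W₁} {G₂ : SimpleGraph W₂}
    (h : IsGlue G H₁ b₁ H₂ b₂) (hG₁ : IsGlue G₁ H₁ b₁ H₁ b₁) (hG₂ : IsGlue G₂ H₂ b₂ H₂ b₂)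
    {p p₁ p₂ : Polynomial ℝ} (hp : IsChrom G p) (hp₁ : IsChrom G₁ p₁) (hp₂ : IsChrom G₂ p₂) :
    0 ≤ p₁.eval q ∧ 0 ≤ p₂.eval q ∧ (p.eval q) ^ 2 ≤ p₁.eval q * p₂.eval q := by
  obtain ⟨v, hv⟩ := exists_vectors n hq
  rw [eval_glue v hv h1 h2 h hp, eval_glue v hv h1 h1 hG₁ hp₁, eval_glue v hv h2 h2 hG₂ hp₂]
  refine ⟨Finset.sum_nonneg (fun x _ => mul_self_nonneg _),
    Finset.sum_nonneg (fun x _ => mul_self_nonneg _), ?_⟩
  have := Finset.sum_mul_sq_le_sq_mul_sq Finset.univ (fun x => vec v q H₁ b₁ x)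
    (fun x => vec v q H₂ b₂ x)
  simpa only [sq] using this

end glue

end Pool.Agent.H413R2.RP
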