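import Pool.Agent.H413R2.RP.Vec

set_option autoImplicit false

namespace Pool.Agent.H413R2.RP

open Finset Function

variable {n : ℕ}

/-- The vector of a partition. -/
noncomputable def V (α : ℝ) (r : Setoid (Fin n)) : St n → ℝ := W α (nx r) (ex r)

theorem V_join {α : ℝ} (hα : α ≠ 0) {r : Setoid (Fin n)} (h : NC r) {i j : Fin n}
    (hij : j.val = i.val + 1) (hnr : ¬ r i j) : T α i j 1 (V α r) = V α (joinS r i j) := by
  unfold V
  obtain ⟨h1, h2⟩ := nx_joinS h hij hnr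
  rw [T_W_ne hα (nx r) (ex r) 1, h2, h1]
  intro he
  have := (nx_spec r i).1
  rw [he] at this
  exact hnr this

theorem V_join_rel {α : ℝ} (hα : α ≠ 0) {r : Setoid (Fin n)} {i j : Fin n}
    (hij : j.val = i.val + 1) (hr : r i j) :
    T α i j 1 (V α r) = fun x => (α ^ 2 + (α ^ 2)⁻¹) * V α r x := by
  unfold V
  have hlt : i < j := by rw [Fin.lt_def]; omega
  have h1 : nx r i = j := by
    apply nx_eq
    refine ⟨hr, Or.inl ⟨hlt, ?_⟩⟩
    intro k h1 h2
    rw [Fin.lt_def] at h1 h2; omega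
  have h2 : ex r i = 1 := by
    unfold ex; rw [h1, if_pos hlt]
  rw [T_W_eq hα (nx r) (ex r) 1 h1 h2]
  funext x
  rw [sum_wt]

theorem V_det {α : ℝ} (hα : α ≠ 0) {r : Setoid (Fin n)} {i : Fin n}
    (h : ∃ j, r i j ∧ j ≠ i) : T α i i (-1) (V α r) = V α (detS r i) := by
  unfold V
  obtain ⟨h1, h2⟩ := nx_detS h
  rw [T_W_ne hα (nx r) (ex r) (-1) (nx_ne_self h), h2, h1]

theorem V_det_single {α : ℝ} (hα : α ≠ 0) {r : Setoid (Fin n)} {i : Fin n}
    (h : ∀ j, r i j → j = i) :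
    T α i i (-1) (V α r) = fun x => (α ^ 2 + (α ^ 2)⁻¹) * V α r x := by
  unfold V
  have h1 : nx r i = i := h _ (nx_spec r i).1
  have h2 : ex r i = -1 := by
    unfold ex; rw [h1, if_neg (lt_irrefl _)]
  rw [T_W_eq hα (nx r) (ex r) (-1) h1 h2]
  funext x
  rw [sum_wt']

/-- the bilinear form. -/
noncomputable def G (α : ℝ) (r t : Setoid (Fin n)) : ℝ := ∑ x : St n, V α r x * V α t x

theorem G_comm (α : ℝ) (r t : Setoid (Fin n)) : G α r t = G α t r :=
  Finset.sum_congr rfl (fun x _ => mul_comm _ _)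

/-- Weighted: `q^{|r ∨ t|}` in terms of `δ`: exponent identity
`δ^(|r|+|t|) * G r t = δ^(n + 2|r ∨ t|)`. -/
def Good (α δ : ℝ) (r t : Setoid (Fin n)) : Prop :=
  δ ^ (cl r + cl t) * G α r t = δ ^ (n + 2 * cl (r ⊔ t))

theorem G_join_swap {α : ℝ} (i j : Fin n) (c : ℤ) (r t : Setoid (Fin n)) :
    ∑ x : St n, T α i j c (V α r) x * V α t x = ∑ x : St n, V α r x * T α i j c (V α t) x :=
  T_selfadj α i j c _ _

theorem good_join {α δ : ℝ} (hα : α ≠ 0) (hδ : δ = α ^ 2 + (α ^ 2)⁻¹) (hδ0 : δ ≠ 0)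
    {r t : Setoid (Fin n)} (hr : NC r) (ht : NC t) {i j : Fin n} (hij : j.val = i.val + 1)
    (h : Good α δ r (joinS t i j)) : Good α δ (joinS r i j) t := by
  unfold Good at *
  rw [joinS_sup]
  have key := G_join_swap (α := α) i j 1 r t
  -- left
  have hL : ∑ x : St n, T α i j 1 (V α r) x * V α t x * δ ^ (cl r) =
      δ * δ ^ (cl (joinS r i j)) * G α (joinS r i j) t := by
    by_cases hrij : r i j
    · rw [V_join_rel hα hij hrij, joinS_of_rel hrij]
      unfold G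
      rw [Finset.mul_sum]
      refine Finset.sum_congr rfl (fun x _ => ?_)
      rw [hδ]; ring
    · rw [V_join hα hr hij hrij]
      have := cl_joinS hrij
      rw [← this]
      unfold G
      rw [Finset.mul_sum]
      refine Finset.sum_congr rfl (fun x _ => ?_)
      ring
  have hR : ∑ x : St n, V α r x * T α i j 1 (V α t) x * δ ^ (cl t) =
      δ * δ ^ (cl (joinS t i j)) * G α r (joinS t i j) := by
    by_cases hrij : t i j
    · rw [V_join_rel hα hij hrij, joinS_of_rel hrij]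
      unfold G
      rw [Finset.mul_sum]
      refine Finset.sum_congr rfl (fun x _ => ?_)
      rw [hδ]; ring
    · rw [V_join hα ht hij hrij]
      have := cl_joinS hrij
      rw [← this]
      unfold G
      rw [Finset.mul_sum]
      refine Finset.sum_congr rfl (fun x _ => ?_)
      ring
  rw [← Finset.sum_mul] at hL hR
  rw [key] at hL
  set Z := ∑ x : St n, V α r x * T α i j 1 (V α t) x
  -- hL : Z δ^{cl r} = δ δ^{cl r'} G r' t ; hR : Z δ^{cl t} = δ δ^{cl t'} G r t'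
  rw [pow_add] at h ⊢
  have hp : ∀ k : ℕ, δ ^ k ≠ 0 := fun k => pow_ne_zero k hδ0
  have e1 : δ * (δ ^ cl (joinS r i j) * δ ^ cl t * G α (joinS r i j) t) =
      δ * (δ ^ cl r * δ ^ cl (joinS t i j) * G α r (joinS t i j)) := by
    calc δ * (δ ^ cl (joinS r i j) * δ ^ cl t * G α (joinS r i j) t)
        = (δ * δ ^ cl (joinS r i j) * G α (joinS r i j) t) * δ ^ cl t := by ring
      _ = Z * δ ^ cl r * δ ^ cl t := by rw [← hL]
      _ = (Z * δ ^ cl t) * δ ^ cl r := by ring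
      _ = (δ * δ ^ (cl (joinS t i j)) * G α r (joinS t i j)) * δ ^ cl r := by rw [hR]
      _ = δ * (δ ^ cl r * δ ^ cl (joinS t i j) * G α r (joinS t i j)) := by ring
  rw [mul_left_cancel₀ hδ0 e1, h]

theorem det_id {α δ : ℝ} (hα : α ≠ 0) (hδ : δ = α ^ 2 + (α ^ 2)⁻¹)
    (r t : Setoid (Fin n)) (i : Fin n) :
    δ * (∑ x : St n, T α i i (-1) (V α r) x * V α t x) * δ ^ (cl r) =
      (δ ^ 2) ^ (sg r i) * (δ ^ (cl (detS r i)) * G α (detS r i) t) := by
  classical
  by_cases hs : ∀ j, r i j → j = i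
  · rw [V_det_single hα hs, detS_of_single hs]
    have : sg r i = 1 := by unfold sg; rw [if_pos hs]
    rw [this]
    have e : ∑ x : St n, (fun x => (α ^ 2 + (α ^ 2)⁻¹) * V α r x) x * V α t x = δ * G α r t := by
      unfold G
      rw [Finset.mul_sum]
      refine Finset.sum_congr rfl (fun x _ => ?_)
      rw [hδ]; ring
    rw [e]; ring
  · have : sg r i = 0 := by unfold sg; rw [if_neg hs]
    push Not at hs
    rw [V_det hα hs, this]
    obtain ⟨j, hj, hne⟩ := hs
    rw [cl_detS hj hne]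
    change δ * G α (detS r i) t * δ ^ cl r = _
    ring

theorem good_det {α δ : ℝ} (hα : α ≠ 0) (hδ : δ = α ^ 2 + (α ^ 2)⁻¹) (hδ0 : δ ≠ 0)
    {r t : Setoid (Fin n)} {i : Fin n} (h : Good α δ r (detS t i)) :
    Good α δ (detS r i) t := by
  unfold Good at *
  have hL := det_id hα hδ r t i
  have hR := det_id hα hδ t r i
  have key := G_join_swap (α := α) i i (-1) r t
  have hR' : δ * (∑ x : St n, V α r x * T α i i (-1) (V α t) x) * δ ^ (cl t) =
      (δ ^ 2) ^ (sg t i) * (δ ^ (cl (detS t i)) * G α r (detS t i)) := by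
    rw [G_comm α r (detS t i), ← hR]
    congr 2
    exact Finset.sum_congr rfl (fun x _ => mul_comm _ _)
  rw [key] at hL
  set Z := ∑ x : St n, V α r x * T α i i (-1) (V α t) x
  have hsw := cl_det_swap r t i
  have hp : ∀ k : ℕ, δ ^ k ≠ 0 := fun k => pow_ne_zero k hδ0
  rw [pow_add] at h ⊢
  have e1 : (δ ^ 2) ^ (sg r i) * (δ ^ cl (detS r i) * δ ^ cl t * G α (detS r i) t) =
      (δ ^ 2) ^ (sg t i) * (δ ^ cl r * δ ^ cl (detS t i) * G α r (detS t i)) := by
    calc (δ ^ 2) ^ (sg r i) * (δ ^ cl (detS r i) * δ ^ cl t * G α (detS r i) t)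
        = ((δ ^ 2) ^ (sg r i) * (δ ^ cl (detS r i) * G α (detS r i) t)) * δ ^ cl t := by ring
      _ = δ * Z * δ ^ cl r * δ ^ cl t := by rw [← hL]
      _ = (δ * Z * δ ^ cl t) * δ ^ cl r := by ring
      _ = ((δ ^ 2) ^ (sg t i) * (δ ^ (cl (detS t i)) * G α r (detS t i))) * δ ^ cl r := by
          rw [hR']
      _ = _ := by ring
  rw [h] at e1
  have e2 : (δ ^ 2) ^ (sg t i) * δ ^ (n + 2 * cl (r ⊔ detS t i)) =
      (δ ^ 2) ^ (sg r i) * δ ^ (n + 2 * cl (detS r i ⊔ t)) := by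
    rw [← pow_mul, ← pow_mul, ← pow_add, ← pow_add]
    congr 1
    omega
  rw [e2] at e1
  exact mul_left_cancel₀ (pow_ne_zero _ (pow_ne_zero _ hδ0)) e1

theorem good_symm {α δ : ℝ} {r t : Setoid (Fin n)} (h : Good α δ r t) : Good α δ t r := by
  unfold Good at *
  rw [G_comm, sup_comm, add_comm (cl t)]
  exact h

end Pool.Agent.H413R2.RP
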