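import Pool.Agent.H413R2.RP.Half

set_option autoImplicit false

namespace Pool.Agent.H413R2.RP

open Finset Polynomial

/-- number of walks with `k` steps in a regular relation -/
theorem card_walks {S : Type} [Finite S] (R : S → S → Prop) (d : ℕ)
    (hd : ∀ x, Nat.card {y // R x y} = d) (k : ℕ) :
    Nat.card {w : Fin (k + 1) → S // ∀ i : Fin k, R (w i.castSucc) (w i.succ)} =
      Nat.card S * d ^ k := by
  induction k with
  | zero =>
    rw [pow_zero, mul_one]
    apply Nat.card_congr
    refine ⟨fun w => w.1 0, fun s => ⟨fun _ => s, fun i => i.elim0⟩, ?_, ?_⟩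
    · intro w
      apply Subtype.ext
      funext i
      have : i = 0 := Fin.ext (by omega)
      rw [this]
    · intro s; rfl
  | succ k ih =>
    let F : {w : Fin (k + 2) → S // ∀ i : Fin (k + 1), R (w i.castSucc) (w i.succ)} →
        (Σ w : {w : Fin (k + 1) → S // ∀ i : Fin k, R (w i.castSucc) (w i.succ)},
          {y // R (w.1 (Fin.last k)) y}) :=
      fun w => ⟨⟨fun i => w.1 i.castSucc, fun i => w.2 i.castSucc⟩,
        ⟨w.1 (Fin.last (k + 1)), w.2 (Fin.last k)⟩⟩
    have hF : Function.Bijective F := by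
      constructor
      · intro w w' h
        apply Subtype.ext
        funext i
        have h1 : (F w).1 = (F w').1 := congrArg Sigma.fst h
        have h2 : (F w).2.1 = (F w').2.1 := by rw [h]
        refine Fin.lastCases ?_ (fun j => ?_) i
        · exact h2
        · exact congrFun (congrArg Subtype.val h1) j
      · rintro ⟨⟨w, hw⟩, ⟨y, hy⟩⟩
        let w' : Fin (k + 2) → S := Fin.snoc (α := fun _ => S) w y
        have hw' : ∀ i : Fin (k + 1), R (w' i.castSucc) (w' i.succ) := by
          intro i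
          refine Fin.lastCases ?_ (fun j => ?_) i
          · have e1 : w' (Fin.last k).castSucc = w (Fin.last k) := by
              simp only [w']; exact Fin.snoc_castSucc (α := fun _ => S) _ _ _
            have e2 : w' (Fin.last k).succ = y := by
              simp only [w']; rw [Fin.succ_last]; exact Fin.snoc_last (α := fun _ => S) _ _
            rw [e1, e2]; exact hy
          · have e1 : w' j.castSucc.castSucc = w j.castSucc := by
              simp only [w']; exact Fin.snoc_castSucc (α := fun _ => S) _ _ _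
            have e2 : w' j.castSucc.succ = w j.succ := by
              simp only [w']; rw [Fin.succ_castSucc]; exact Fin.snoc_castSucc (α := fun _ => S) _ _ _
            rw [e1, e2]; exact hw j
        refine ⟨⟨w', hw'⟩, ?_⟩
        have e0 : ∀ i : Fin (k + 1), w' i.castSucc = w i := by
          intro i; simp only [w']; exact Fin.snoc_castSucc (α := fun _ => S) _ _ _
        have e3 : w' (Fin.last (k + 1)) = y := by
          simp only [w']; exact Fin.snoc_last (α := fun _ => S) _ _
        refine Sigma.ext ?_ ?_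
        · exact Subtype.ext (funext e0)
        · simp only [F]
          have hfun : (fun i : Fin (k + 1) => w' i.castSucc) = w := funext e0
          refine (Subtype.heq_iff_coe_eq ?_).mpr e3
          intro z
          rw [e0]
    rw [Nat.card_congr (Equiv.ofBijective F hF)]
    have hfin : Finite {w : Fin (k + 1) → S // ∀ i : Fin k, R (w i.castSucc) (w i.succ)} :=
      inferInstance
    have := Fintype.ofFinite {w : Fin (k + 1) → S // ∀ i : Fin k, R (w i.castSucc) (w i.succ)}
    rw [Nat.card_sigma, Finset.sum_congr rfl (fun w _ => hd _), Finset.sum_const, Finset.card_univ,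
      ← Nat.card_eq_fintype_card, ih, smul_eq_mul]
    ring

/-- The `m × k` rectangular grid graph. -/
abbrev Gr (m k : ℕ) : SimpleGraph (Fin m × Fin k) :=
  (SimpleGraph.pathGraph m).boxProd (SimpleGraph.pathGraph k)

theorem Gr_adj {m k : ℕ} (x y : Fin m × Fin k) : (Gr m k).Adj x y ↔
    ((x.1.val + 1 = y.1.val ∨ y.1.val + 1 = x.1.val) ∧ x.2 = y.2) ∨
    ((x.2.val + 1 = y.2.val ∨ y.2.val + 1 = x.2.val) ∧ x.1 = y.1) := by
  rw [SimpleGraph.boxProd_adj, SimpleGraph.pathGraph_adj, SimpleGraph.pathGraph_adj]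

/-- colourings of a grid as sequences of colourings of the rows -/
theorem card_rows (k c N : ℕ) :
    Nat.card ((Gr (k + 1) c).Coloring (Fin N)) =
      Nat.card {w : Fin (k + 1) → {x : Fin c → Fin N // ∀ u v, (SimpleGraph.pathGraph c).Adj u v →
        x u ≠ x v} // ∀ i : Fin k, ∀ v, (w i.castSucc).1 v ≠ (w i.succ).1 v} := by
  apply Nat.card_congr
  refine ⟨fun f => ⟨fun i => ⟨fun v => f (i, v), fun u v huv => f.valid ?_⟩, fun i v => f.valid ?_⟩,
    fun w => SimpleGraph.Coloring.mk (fun x => (w.1 x.1).1 x.2) ?_, ?_, ?_⟩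
  · rw [SimpleGraph.boxProd_adj]; exact Or.inr ⟨huv, rfl⟩
  · rw [SimpleGraph.boxProd_adj, SimpleGraph.pathGraph_adj]
    refine Or.inl ⟨Or.inl ?_, rfl⟩
    simp
  · intro x y hxy
    rw [SimpleGraph.boxProd_adj] at hxy
    rcases hxy with ⟨h1, h2⟩ | ⟨h1, h2⟩
    · rw [SimpleGraph.pathGraph_adj] at h1
      rcases h1 with h1 | h1
      · have hlt : x.1.val < k := by have := y.1.isLt; omega
        have e1 : x.1 = (⟨x.1.val, hlt⟩ : Fin k).castSucc := by ext; simp
        have e2 : y.1 = (⟨x.1.val, hlt⟩ : Fin k).succ := by ext; simp [h1]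
        have := w.2 ⟨x.1.val, hlt⟩ x.2
        rw [e1, e2, ← h2]
        exact this
      · have hlt : y.1.val < k := by have := x.1.isLt; omega
        have e1 : y.1 = (⟨y.1.val, hlt⟩ : Fin k).castSucc := by ext; simp
        have e2 : x.1 = (⟨y.1.val, hlt⟩ : Fin k).succ := by ext; simp [h1]
        have := w.2 ⟨y.1.val, hlt⟩ x.2
        rw [e1, e2, ← h2]
        exact this.symm
    · rw [h2]
      exact (w.1 y.1).2 _ _ h1
  · intro f; rfl
  · intro w; rfl

theorem chrom_col1 (k : ℕ) : IsChrom (Gr (k + 1) 1) (X * (X - 1) ^ k) := by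
  intro N
  rw [card_rows]
  have h1 : ∀ x : {x : Fin 1 → Fin N // ∀ u v, (SimpleGraph.pathGraph 1).Adj u v → x u ≠ x v},
      Nat.card {y : {x : Fin 1 → Fin N // ∀ u v, (SimpleGraph.pathGraph 1).Adj u v → x u ≠ x v} //
        ∀ v, x.1 v ≠ y.1 v} = N - 1 := by
    intro x
    have e : {y : {x : Fin 1 → Fin N // ∀ u v, (SimpleGraph.pathGraph 1).Adj u v → x u ≠ x v} //
        ∀ v, x.1 v ≠ y.1 v} ≃ {z : Fin N // z ≠ x.1 0} := by
      refine ⟨fun y => ⟨y.1.1 0, fun h => y.2 0 h.symm⟩, fun z => ⟨⟨fun _ => z.1, ?_⟩, ?_⟩, ?_, ?_⟩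
      · intro u v huv
        rw [SimpleGraph.pathGraph_adj] at huv
        omega
      · intro v
        have : v = 0 := Fin.ext (by omega)
        rw [this]; exact fun h => z.2 h.symm
      · intro y
        apply Subtype.ext
        apply Subtype.ext
        funext v
        have : v = 0 := Fin.ext (by omega)
        rw [this]
      · intro z; rfl
    rw [Nat.card_congr e, Nat.card_eq_fintype_card, Fintype.card_subtype_compl]
    simp
  have h2 : Nat.card {x : Fin 1 → Fin N // ∀ u v, (SimpleGraph.pathGraph 1).Adj u v → x u ≠ x v} =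
      N := by
    have e : {x : Fin 1 → Fin N // ∀ u v, (SimpleGraph.pathGraph 1).Adj u v → x u ≠ x v} ≃ Fin N := by
      refine ⟨fun x => x.1 0, fun z => ⟨fun _ => z, ?_⟩, ?_, ?_⟩
      · intro u v huv
        rw [SimpleGraph.pathGraph_adj] at huv
        omega
      · intro x
        apply Subtype.ext
        funext v
        have : v = 0 := Fin.ext (by omega)
        rw [this]
      · intro z; rfl
    rw [Nat.card_congr e]; simp
  rw [card_walks (fun x y : {x : Fin 1 → Fin N // ∀ u v, (SimpleGraph.pathGraph 1).Adj u v →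
    x u ≠ x v} => ∀ v, x.1 v ≠ y.1 v) (N - 1) h1 k, h2]
  simp only [eval_mul, eval_X, eval_pow, eval_sub, eval_one, Nat.cast_mul, Nat.cast_pow]
  rcases Nat.eq_zero_or_pos N with h | h
  · subst h; simp
  · rw [Nat.cast_sub h]; simp

theorem count_pairs {N : ℕ} (a b : Fin N) (hab : a ≠ b) :
    (Nat.card {p : Fin N × Fin N // p.1 ≠ p.2 ∧ p.1 ≠ a ∧ p.2 ≠ b} : ℝ) =
      (N : ℝ) ^ 2 - 3 * N + 3 := by
  classical
  rw [card_eq_sum, Fintype.sum_prod_type]
  have h1 : ∀ x y : Fin N, ind ((x, y).1 ≠ (x, y).2 ∧ (x, y).1 ≠ a ∧ (x, y).2 ≠ b) =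
      (1 - (if x = a then (1:ℝ) else 0)) * ((1 - (if x = y then (1:ℝ) else 0)) *
        (1 - (if y = b then (1:ℝ) else 0))) := by
    intro x y
    unfold ind
    by_cases h1 : x = y <;> by_cases h2 : x = a <;> by_cases h3 : y = b <;> simp [h1, h2, h3]
  have h2 : ∀ x : Fin N, ∑ y : Fin N, ind ((x, y).1 ≠ (x, y).2 ∧ (x, y).1 ≠ a ∧ (x, y).2 ≠ b) =
      (1 - (if x = a then (1:ℝ) else 0)) * ((N : ℝ) - 2 + (if x = b then (1:ℝ) else 0)) := by
    intro x
    rw [Finset.sum_congr rfl (fun y _ => h1 x y), ← Finset.mul_sum]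
    congr 1
    have h3 : ∀ y : Fin N, (1 - (if x = y then (1:ℝ) else 0)) * (1 - (if y = b then (1:ℝ) else 0)) =
        1 - (if x = y then (1:ℝ) else 0) - (if y = b then (1:ℝ) else 0) +
          (if x = y then (if y = b then (1:ℝ) else 0) else 0) := by
      intro y
      by_cases h1 : x = y <;> by_cases h3 : y = b <;> simp [h1, h3]
    rw [Finset.sum_congr rfl (fun y _ => h3 y)]
    simp only [Finset.sum_add_distrib, Finset.sum_sub_distrib, Finset.sum_ite_eq,
      Finset.sum_ite_eq', Finset.mem_univ, if_true, Finset.sum_const, Finset.card_univ,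
      Fintype.card_fin, nsmul_eq_mul, mul_one]
    ring
  rw [Finset.sum_congr rfl (fun x _ => h2 x)]
  have h4 : ∀ x : Fin N, (1 - (if x = a then (1:ℝ) else 0)) *
      ((N : ℝ) - 2 + (if x = b then (1:ℝ) else 0)) =
      ((N : ℝ) - 2) + (if x = b then (1:ℝ) else 0) - (if x = a then ((N : ℝ) - 2) else 0) := by
    intro x
    by_cases h1 : x = a
    · have h3 : x ≠ b := fun h => hab (h1.symm.trans h)
      simp [h1, hab]
    · simp [h1]
  rw [Finset.sum_congr rfl (fun x _ => h4 x)]
  simp only [Finset.sum_add_distrib, Finset.sum_sub_distrib,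
      Finset.sum_ite_eq', Finset.mem_univ, if_true, Finset.sum_const, Finset.card_univ,
      Fintype.card_fin, nsmul_eq_mul]
  ring

theorem chrom_col2 (k : ℕ) : IsChrom (Gr (k + 1) 2) (X * (X - 1) * (X ^ 2 - 3 * X + 3) ^ k) := by
  intro N
  rw [card_rows]
  let S := {x : Fin 2 → Fin N // ∀ u v, (SimpleGraph.pathGraph 2).Adj u v → x u ≠ x v}
  have hadj : ∀ {x : Fin 2 → Fin N}, x 0 ≠ x 1 →
      ∀ u v, (SimpleGraph.pathGraph 2).Adj u v → x u ≠ x v := by
    intro x hx u v huv
    rw [SimpleGraph.pathGraph_adj] at huv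
    rcases huv with huv | huv
    · have e1 : u = 0 := Fin.ext (by have := v.isLt; simp; omega)
      have e2 : v = 1 := Fin.ext (by have := v.isLt; simp; omega)
      rw [e1, e2]; exact hx
    · have e1 : v = 0 := Fin.ext (by have := u.isLt; simp; omega)
      have e2 : u = 1 := Fin.ext (by have := u.isLt; simp; omega)
      rw [e1, e2]; exact hx.symm
  have h01 : (SimpleGraph.pathGraph 2).Adj 0 1 := by
    rw [SimpleGraph.pathGraph_adj]; left; rfl
  have hfun : ∀ {x y : Fin 2 → Fin N}, x 0 = y 0 → x 1 = y 1 → x = y := by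
    intro x y h0 h1
    funext v
    match v with
    | 0 => exact h0
    | 1 => exact h1
  have h1 : ∀ x : S, Nat.card {y : S // ∀ v, x.1 v ≠ y.1 v} = (N - 2) * (N - 2) + (N - 1) := by
    intro x
    have hab : x.1 0 ≠ x.1 1 := x.2 0 1 h01
    have e : {y : S // ∀ v, x.1 v ≠ y.1 v} ≃
        {p : Fin N × Fin N // p.1 ≠ p.2 ∧ p.1 ≠ x.1 0 ∧ p.2 ≠ x.1 1} := by
      refine ⟨fun y => ⟨(y.1.1 0, y.1.1 1), y.1.2 0 1 h01, fun h => y.2 0 h.symm,
        fun h => y.2 1 h.symm⟩, fun p => ⟨⟨![p.1.1, p.1.2], hadj p.2.1⟩, ?_⟩, ?_, ?_⟩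
      · intro v
        match v with
        | 0 => exact fun h => p.2.2.1 h.symm
        | 1 => exact fun h => p.2.2.2 h.symm
      · intro y
        apply Subtype.ext
        apply Subtype.ext
        exact hfun rfl rfl
      · intro p; rfl
    have hN : 2 ≤ N := by
      by_contra hc
      have : (x.1 0).val ≠ (x.1 1).val := fun h => hab (Fin.ext h)
      have h1 := (x.1 0).isLt
      have h2 := (x.1 1).isLt
      omega
    have h2 := count_pairs (x.1 0) (x.1 1) hab
    rw [← Nat.card_congr e] at h2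
    have h3 : ((Nat.card {y : S // ∀ v, x.1 v ≠ y.1 v} : ℕ) : ℝ) =
        (((N - 2) * (N - 2) + (N - 1) : ℕ) : ℝ) := by
      rw [h2]
      push_cast [Nat.cast_sub hN, Nat.cast_sub (show 1 ≤ N by omega)]
      ring
    exact_mod_cast h3
  have h2 : (Nat.card S : ℝ) = (N : ℝ) * (N - 1) := by
    have e : S ≃ {p : Fin N × Fin N // p.1 ≠ p.2} := by
      refine ⟨fun y => ⟨(y.1 0, y.1 1), y.2 0 1 h01⟩, fun p => ⟨![p.1.1, p.1.2], hadj p.2⟩, ?_, ?_⟩
      · intro y
        apply Subtype.ext
        exact hfun rfl rfl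
      · intro p; rfl
    classical
    rw [Nat.card_congr e, card_eq_sum, Fintype.sum_prod_type]
    have h5 : ∀ x : Fin N, ∑ y : Fin N, ind ((x, y).1 ≠ (x, y).2) = (N : ℝ) - 1 := by
      intro x
      have : ∀ y : Fin N, ind ((x, y).1 ≠ (x, y).2) = 1 - (if x = y then (1:ℝ) else 0) := by
        intro y
        unfold ind
        by_cases h : x = y <;> simp [h]
      rw [Finset.sum_congr rfl (fun y _ => this y)]
      simp [Finset.sum_sub_distrib]
    rw [Finset.sum_congr rfl (fun x _ => h5 x), Finset.sum_const, Finset.card_univ,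
      Fintype.card_fin, nsmul_eq_mul]
  rw [card_walks (fun x y : S => ∀ v, x.1 v ≠ y.1 v) ((N - 2) * (N - 2) + (N - 1)) h1 k]
  simp only [eval_mul, eval_X, eval_pow, eval_sub, eval_one, eval_add, eval_ofNat, Nat.cast_mul,
    Nat.cast_pow, h2]
  by_cases hN : 2 ≤ N
  · congr 1
    congr 1
    push_cast [Nat.cast_sub hN, Nat.cast_sub (show 1 ≤ N by omega)]
    ring
  · have : N = 0 ∨ N = 1 := by omega
    rcases this with rfl | rfl <;> simp

end Pool.Agent.H413R2.RP
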