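import Pool.Agent.H413R2.RP.Grid1

set_option autoImplicit false

namespace Pool.Agent.H413R2.RP

open Set

theorem IsDrawing.map {V : Type} {G : SimpleGraph V} {f : V → ℝ × ℝ} {γ : V → V → ℝ → ℝ × ℝ}
    (hd : IsDrawing G f γ) (L : ℝ × ℝ → ℝ × ℝ) (hL : Continuous L) (hi : Function.Injective L) :
    IsDrawing G (fun v => L (f v)) (fun u v t => L (γ u v t)) := by
  refine ⟨fun u v h => hd.1 (hi h), ?_, ?_⟩
  · intro u v huv
    obtain ⟨h1, h2, h3, h4, h5⟩ := hd.2.1 u v huv
    refine ⟨hL.comp_continuousOn h1, fun s hs t ht hst => h2 hs ht (hi hst), ?_, ?_, ?_⟩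
    · simp only [h3]
    · simp only [h4]
    · exact fun t ht w h => h5 t ht w (hi h)
  · intro u v u' v' huv huv' hs t ht t' ht' h
    exact hd.2.2 u v u' v' huv huv' hs t ht t' ht' (hi h)

theorem IsDrawing.induce {V : Type} {G : SimpleGraph V} {f : V → ℝ × ℝ} {γ : V → V → ℝ → ℝ × ℝ}
    (hd : IsDrawing G f γ) (U : Set V) :
    IsDrawing (G.induce U) (fun v => f v.1) (fun u v => γ u.1 v.1) := by
  refine ⟨fun u v huv => Subtype.ext (hd.1 huv), ?_, ?_⟩
  · intro u v huv
    obtain ⟨h1, h2, h3, h4, h5⟩ := hd.2.1 u.1 v.1 huv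
    exact ⟨h1, h2, h3, h4, fun t ht w => h5 t ht w.1⟩
  · intro u v u' v' huv huv' hs t ht t' ht'
    refine hd.2.2 u.1 v.1 u'.1 v'.1 huv huv' ?_ t ht t' ht'
    intro hh
    apply hs
    rw [Sym2.eq_iff] at hh ⊢
    rcases hh with ⟨h1, h2⟩ | ⟨h1, h2⟩
    · exact Or.inl ⟨Subtype.ext h1, Subtype.ext h2⟩
    · exact Or.inr ⟨Subtype.ext h1, Subtype.ext h2⟩

/-- standard positions of the grid -/
def gf {m k : ℕ} (x : Fin m × Fin k) : ℝ × ℝ := ((x.1.val : ℝ), (x.2.val : ℝ))

/-- straight segments -/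
def gs {m k : ℕ} (x y : Fin m × Fin k) (t : ℝ) : ℝ × ℝ :=
  ((1 - t) * (x.1.val : ℝ) + t * (y.1.val : ℝ), (1 - t) * (x.2.val : ℝ) + t * (y.2.val : ℝ))

theorem gs_spec {m k : ℕ} {x y : Fin m × Fin k} (h : (Gr m k).Adj x y) {t : ℝ}
    (ht : t ∈ Set.Ioo (0:ℝ) 1) :
    (∃ a c : ℕ, ∃ s : ℝ, 0 < s ∧ s < 1 ∧ (gs x y t).1 = a + s ∧ (gs x y t).2 = c ∧
      x.2.val = c ∧ y.2.val = c ∧
      ((x.1.val = a ∧ y.1.val = a + 1) ∨ (y.1.val = a ∧ x.1.val = a + 1))) ∨
    (∃ a c : ℕ, ∃ s : ℝ, 0 < s ∧ s < 1 ∧ (gs x y t).1 = a ∧ (gs x y t).2 = c + s ∧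
      x.1.val = a ∧ y.1.val = a ∧
      ((x.2.val = c ∧ y.2.val = c + 1) ∨ (y.2.val = c ∧ x.2.val = c + 1))) := by
  rw [Gr_adj] at h
  obtain ⟨ht0, ht1⟩ := ht
  rcases h with ⟨h | h, h2⟩ | ⟨h | h, h2⟩
  · left
    refine ⟨x.1.val, x.2.val, t, ht0, ht1, ?_, ?_, rfl, by rw [h2], Or.inl ⟨rfl, h.symm⟩⟩
    · simp only [gs]; rw [← h]; push_cast; ring
    · simp only [gs]; rw [← h2]; ring
  · left
    refine ⟨y.1.val, x.2.val, 1 - t, by linarith, by linarith, ?_, ?_, rfl, by rw [h2],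
      Or.inr ⟨rfl, h.symm⟩⟩
    · simp only [gs]; rw [← h]; push_cast; ring
    · simp only [gs]; rw [← h2]; ring
  · right
    refine ⟨x.1.val, x.2.val, t, ht0, ht1, ?_, ?_, rfl, by rw [h2], Or.inl ⟨rfl, h.symm⟩⟩
    · simp only [gs]; rw [← h2]; ring
    · simp only [gs]; rw [← h]; push_cast; ring
  · right
    refine ⟨x.1.val, y.2.val, 1 - t, by linarith, by linarith, ?_, ?_, rfl, by rw [h2],
      Or.inr ⟨rfl, h.symm⟩⟩
    · simp only [gs]; rw [← h2]; ring
    · simp only [gs]; rw [← h]; push_cast; ring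

theorem nat_frac {a a' : ℕ} {s s' : ℝ} (h : (a : ℝ) + s = a' + s') (h1 : 0 < s) (h2 : s < 1)
    (h3 : 0 < s') (h4 : s' < 1) : a = a' := by
  rcases lt_trichotomy a a' with g | g | g
  · have : (a : ℝ) + 1 ≤ a' := by exact_mod_cast g
    linarith
  · exact g
  · have : (a' : ℝ) + 1 ≤ a := by exact_mod_cast g
    linarith

theorem nat_not_frac {a a' : ℕ} {s : ℝ} (h : (a : ℝ) + s = a') (h1 : 0 < s) (h2 : s < 1) : False := by
  rcases lt_trichotomy a a' with g | g | g
  · have : (a : ℝ) + 1 ≤ a' := by exact_mod_cast g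
    linarith
  · subst g; linarith
  · have : (a' : ℝ) + 1 ≤ a := by exact_mod_cast g
    linarith

theorem grid_drawing (m k : ℕ) : IsDrawing (Gr m k) gf gs := by
  refine ⟨?_, ?_, ?_⟩
  · intro x y h
    have h1 := congrArg Prod.fst h
    have h2 := congrArg Prod.snd h
    simp only [gf, Nat.cast_inj] at h1 h2
    exact Prod.ext (Fin.ext h1) (Fin.ext h2)
  · intro x y h
    refine ⟨?_, ?_, ?_, ?_, ?_⟩
    · apply Continuous.continuousOn
      unfold gs
      fun_prop
    · intro s hs t ht hst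
      have h1 := congrArg Prod.fst hst
      have h2 := congrArg Prod.snd hst
      simp only [gs] at h1 h2
      rw [Gr_adj] at h
      rcases h with ⟨h | h, _⟩ | ⟨h | h, _⟩
      · rw [← h] at h1; push_cast at h1; linarith
      · rw [← h] at h1; push_cast at h1; linarith
      · rw [← h] at h2; push_cast at h2; linarith
      · rw [← h] at h2; push_cast at h2; linarith
    · simp [gs, gf]
    · simp [gs, gf]
    · intro t ht w hw
      have h1 := congrArg Prod.fst hw
      have h2 := congrArg Prod.snd hw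
      simp only [gf] at h1 h2
      rcases gs_spec h ht with ⟨a, c, s, hs0, hs1, e1, e2, _⟩ | ⟨a, c, s, hs0, hs1, e1, e2, _⟩
      · rw [e1] at h1; exact nat_not_frac h1 hs0 hs1
      · rw [e2] at h2; exact nat_not_frac h2 hs0 hs1
  · intro x y x' y' h h' hne t ht t' ht' heq
    have h1 := congrArg Prod.fst heq
    have h2 := congrArg Prod.snd heq
    apply hne
    rcases gs_spec h ht with ⟨a, c, s, hs0, hs1, e1, e2, e3, e4, e5⟩ |
      ⟨a, c, s, hs0, hs1, e1, e2, e3, e4, e5⟩ <;>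
    rcases gs_spec h' ht' with ⟨a', c', s', hs0', hs1', e1', e2', e3', e4', e5'⟩ |
      ⟨a', c', s', hs0', hs1', e1', e2', e3', e4', e5'⟩
    · rw [e1, e1'] at h1
      rw [e2, e2'] at h2
      have ha := nat_frac h1 hs0 hs1 hs0' hs1'
      have hc : c = c' := by exact_mod_cast h2
      rw [Sym2.eq_iff]
      rcases e5 with ⟨e5, e6⟩ | ⟨e5, e6⟩ <;> rcases e5' with ⟨e5', e6'⟩ | ⟨e5', e6'⟩
      · left; exact ⟨Prod.ext (Fin.ext (by omega)) (Fin.ext (by omega)),
          Prod.ext (Fin.ext (by omega)) (Fin.ext (by omega))⟩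
      · right; exact ⟨Prod.ext (Fin.ext (by omega)) (Fin.ext (by omega)),
          Prod.ext (Fin.ext (by omega)) (Fin.ext (by omega))⟩
      · right; exact ⟨Prod.ext (Fin.ext (by omega)) (Fin.ext (by omega)),
          Prod.ext (Fin.ext (by omega)) (Fin.ext (by omega))⟩
      · left; exact ⟨Prod.ext (Fin.ext (by omega)) (Fin.ext (by omega)),
          Prod.ext (Fin.ext (by omega)) (Fin.ext (by omega))⟩
    · exfalso
      rw [e1, e1'] at h1
      exact nat_not_frac h1 hs0 hs1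
    · exfalso
      rw [e1, e1'] at h1
      exact nat_not_frac h1.symm hs0' hs1'
    · rw [e1, e1'] at h1
      rw [e2, e2'] at h2
      have hc := nat_frac h2 hs0 hs1 hs0' hs1'
      have ha : a = a' := by exact_mod_cast h1
      rw [Sym2.eq_iff]
      rcases e5 with ⟨e5, e6⟩ | ⟨e5, e6⟩ <;> rcases e5' with ⟨e5', e6'⟩ | ⟨e5', e6'⟩
      · left; exact ⟨Prod.ext (Fin.ext (by omega)) (Fin.ext (by omega)),
          Prod.ext (Fin.ext (by omega)) (Fin.ext (by omega))⟩
      · right; exact ⟨Prod.ext (Fin.ext (by omega)) (Fin.ext (by omega)),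
          Prod.ext (Fin.ext (by omega)) (Fin.ext (by omega))⟩
      · right; exact ⟨Prod.ext (Fin.ext (by omega)) (Fin.ext (by omega)),
          Prod.ext (Fin.ext (by omega)) (Fin.ext (by omega))⟩
      · left; exact ⟨Prod.ext (Fin.ext (by omega)) (Fin.ext (by omega)),
          Prod.ext (Fin.ext (by omega)) (Fin.ext (by omega))⟩

/-- The last column of a grid. -/
def lastCol (m j : ℕ) (i : Fin m) : Fin m × Fin (j + 1) := (i, Fin.last j)

theorem lastCol_inj (m j : ℕ) : Function.Injective (lastCol m j) := by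
  intro a b h
  exact congrArg Prod.fst h

theorem unlinked_col (m j : ℕ) : Unlinked (Gr m (j + 1)) (lastCol m j) := by
  let L : ℝ × ℝ → ℝ × ℝ := fun z => (z.1, (j : ℝ) - z.2)
  have hL : Continuous L := by fun_prop
  have hi : Function.Injective L := by
    intro z w h
    have h1 := congrArg Prod.fst h
    have h2 := congrArg Prod.snd h
    simp only [L] at h1 h2
    exact Prod.ext h1 (by linarith)
  refine unlinked_of_drawing ((grid_drawing m (j + 1)).map L hL hi) ?_ ?_ (lastCol m j) ?_ ?_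
  · intro x
    simp only [L, gf]
    have : x.2.val ≤ j := by have := x.2.isLt; omega
    have : (x.2.val : ℝ) ≤ j := by exact_mod_cast this
    linarith
  · intro x y _ t ht
    simp only [L, gs]
    have h1 : (x.2.val : ℝ) ≤ j := by
      have : x.2.val ≤ j := by have := x.2.isLt; omega
      exact_mod_cast this
    have h2 : (y.2.val : ℝ) ≤ j := by
      have : y.2.val ≤ j := by have := y.2.isLt; omega
      exact_mod_cast this
    nlinarith [ht.1, ht.2]
  · intro i
    simp [L, gf, lastCol]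
  · intro i i' hii
    simp only [L, gf, lastCol]
    exact_mod_cast hii

theorem glue_col (m j l : ℕ) : IsGlue (Gr m (j + l + 1)) (Gr m (j + 1)) (lastCol m j)
    (Gr m (l + 1)) (lastCol m l) := by
  refine ⟨fun x => (x.1, ⟨x.2.val, by have := x.2.isLt; omega⟩),
    fun x => (x.1, ⟨j + l - x.2.val, by omega⟩), ?_, ?_, ?_, ?_, ?_, ?_⟩
  · intro x y h
    simp only [Prod.mk.injEq, Fin.mk.injEq] at h
    exact Prod.ext h.1 (Fin.ext h.2)
  · intro x y h
    simp only [Prod.mk.injEq, Fin.mk.injEq] at h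
    have h1 := x.2.isLt
    have h2 := y.2.isLt
    exact Prod.ext h.1 (Fin.ext (by omega))
  · intro i
    simp only [lastCol, Fin.val_last, Prod.mk.injEq, Fin.mk.injEq, true_and]
    omega
  · intro x y h
    simp only [Prod.mk.injEq, Fin.mk.injEq] at h
    have h1 := x.2.isLt
    have h2 := y.2.isLt
    refine ⟨x.1, Prod.ext rfl (Fin.ext ?_), Prod.ext h.1.symm (Fin.ext ?_)⟩
    · simp only [lastCol, Fin.val_last]; omega
    · simp only [lastCol, Fin.val_last]; omega
  · intro w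
    by_cases h : w.2.val ≤ j
    · left
      exact ⟨(w.1, ⟨w.2.val, by omega⟩), rfl⟩
    · right
      have h1 := w.2.isLt
      refine ⟨(w.1, ⟨j + l - w.2.val, by omega⟩), Prod.ext rfl (Fin.ext ?_)⟩
      simp only
      omega
  · intro w w'
    constructor
    · intro h
      rw [Gr_adj] at h
      have h1 := w.2.isLt
      have h2 := w'.2.isLt
      by_cases hc : w.2.val ≤ j ∧ w'.2.val ≤ j
      · left
        refine ⟨(w.1, ⟨w.2.val, by omega⟩), (w'.1, ⟨w'.2.val, by omega⟩), ?_, rfl, rfl⟩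
        rw [Gr_adj]
        simp only [Fin.mk.injEq]
        rcases h with ⟨h3, h4⟩ | ⟨h3, h4⟩
        · left; exact ⟨h3, by rw [h4]⟩
        · right; exact ⟨h3, h4⟩
      · right
        have hj : j ≤ w.2.val ∧ j ≤ w'.2.val := by
          rcases h with ⟨h3, h4⟩ | ⟨h3, h4⟩
          · have : w.2.val = w'.2.val := by rw [h4]
            omega
          · omega
        refine ⟨(w.1, ⟨j + l - w.2.val, by omega⟩), (w'.1, ⟨j + l - w'.2.val, by omega⟩), ?_,
          Prod.ext rfl (Fin.ext ?_), Prod.ext rfl (Fin.ext ?_)⟩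
        · rw [Gr_adj]
          simp only [Fin.mk.injEq]
          rcases h with ⟨h3, h4⟩ | ⟨h3, h4⟩
          · left; exact ⟨h3, by rw [h4]⟩
          · right; exact ⟨by omega, h4⟩
        · simp only; omega
        · simp only; omega
    · rintro (⟨x, x', hxx, rfl, rfl⟩ | ⟨x, x', hxx, rfl, rfl⟩)
      · rw [Gr_adj] at hxx ⊢
        simp only [Fin.mk.injEq]
        rcases hxx with ⟨h3, h4⟩ | ⟨h3, h4⟩
        · left; exact ⟨h3, by rw [h4]⟩
        · right; exact ⟨h3, h4⟩
      · rw [Gr_adj] at hxx ⊢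
        have h1 := x.2.isLt
        have h2 := x'.2.isLt
        simp only [Fin.mk.injEq]
        rcases hxx with ⟨h3, h4⟩ | ⟨h3, h4⟩
        · left; exact ⟨h3, by rw [h4]⟩
        · right; exact ⟨by omega, h4⟩

end Pool.Agent.H413R2.RP
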