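import Pool.Agent.H413R2.RP.Grid2

set_option autoImplicit false

namespace Pool.Agent.H413R2.RP

open Polynomial

/-- chromatic polynomial of the grid -/
noncomputable def gp (m k : ℕ) : Polynomial ℝ := (exists_chrom (Gr m k)).choose

theorem gp_spec (m k : ℕ) : IsChrom (Gr m k) (gp m k) := (exists_chrom (Gr m k)).choose_spec

theorem gp_symm (m k : ℕ) : gp m k = gp k m :=
  chrom_unique ((gp_spec m k).of_iso (SimpleGraph.boxProdComm _ _)) (gp_spec k m)

theorem grid_cs (m j l : ℕ) {q : ℝ} (hq : 4 ≤ q) :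
    0 ≤ (gp m (j + j + 1)).eval q ∧ 0 ≤ (gp m (l + l + 1)).eval q ∧
    ((gp m (j + l + 1)).eval q) ^ 2 ≤ (gp m (j + j + 1)).eval q * (gp m (l + l + 1)).eval q :=
  glue_cs hq (unlinked_col m j) (unlinked_col m l) (glue_col m j l) (glue_col m j j)
    (glue_col m l l) (gp_spec _ _) (gp_spec _ _) (gp_spec _ _)

theorem gp_one (k : ℕ) : gp (k + 1) 1 = X * (X - 1) ^ k :=
  chrom_unique (gp_spec _ _) (chrom_col1 k)

theorem gp_two (k : ℕ) : gp (k + 1) 2 = X * (X - 1) * (X ^ 2 - 3 * X + 3) ^ k :=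
  chrom_unique (gp_spec _ _) (chrom_col2 k)

theorem gp_one_pos (k : ℕ) {q : ℝ} (hq : 4 ≤ q) : 0 < (gp (k + 1) 1).eval q := by
  rw [gp_one]
  simp only [eval_mul, eval_X, eval_pow, eval_sub, eval_one]
  have h1 : 0 < q := by linarith
  have h2 : 0 < q - 1 := by linarith
  positivity

theorem gp_two_pos (k : ℕ) {q : ℝ} (hq : 4 ≤ q) : 0 < (gp (k + 1) 2).eval q := by
  rw [gp_two]
  simp only [eval_mul, eval_X, eval_pow, eval_sub, eval_one, eval_add, eval_ofNat]
  have h1 : 0 < q := by linarith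
  have h2 : 0 < q - 1 := by linarith
  have h3 : 0 < q ^ 2 - 3 * q + 3 := by nlinarith
  positivity

/-- growth ratio -/
theorem grid_odd (m : ℕ) {q : ℝ} (hq : 4 ≤ q) (i : ℕ) :
    0 < (gp (m + 1) (2 * i + 1)).eval q ∧
    ((gp (m + 1) 2).eval q) ^ 2 * (gp (m + 1) (2 * i + 1)).eval q ≤
      ((gp (m + 1) 1).eval q) ^ 2 * (gp (m + 1) (2 * i + 3)).eval q := by
  induction i with
  | zero =>
    refine ⟨gp_one_pos m hq, ?_⟩
    have h := (grid_cs (m + 1) 1 0 hq).2.2
    norm_num at h ⊢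
    have h1 := gp_one_pos m hq
    nlinarith
  | succ i ih =>
    obtain ⟨ih1, ih2⟩ := ih
    have e1 : 2 * (i + 1) + 1 = 2 * i + 3 := by ring
    have e2 : 2 * (i + 1) + 3 = 2 * i + 5 := by ring
    rw [e1, e2]
    have h1 := gp_one_pos m hq
    have h2 := gp_two_pos m hq
    have hpos : 0 < (gp (m + 1) (2 * i + 3)).eval q := by
      have : 0 < ((gp (m + 1) 1).eval q) ^ 2 * (gp (m + 1) (2 * i + 3)).eval q :=
        lt_of_lt_of_le (by positivity) ih2
      exact (mul_pos_iff_of_pos_left (by positivity)).mp this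
    refine ⟨hpos, ?_⟩
    have h := (grid_cs (m + 1) i (i + 2) hq).2.2
    have e3 : i + (i + 2) + 1 = 2 * i + 3 := by ring
    have e4 : i + i + 1 = 2 * i + 1 := by ring
    have e5 : i + 2 + (i + 2) + 1 = 2 * i + 5 := by ring
    rw [e3, e4, e5] at h
    set a := (gp (m + 1) (2 * i + 1)).eval q
    set b := (gp (m + 1) (2 * i + 3)).eval q
    set c := (gp (m + 1) (2 * i + 5)).eval q
    set x := (gp (m + 1) 1).eval q
    set y := (gp (m + 1) 2).eval q
    -- b^2 ≤ a c, y^2 a ≤ x^2 b  ⟹ y^2 b ≤ x^2 c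
    have h3 : y ^ 2 * a * b ≤ x ^ 2 * (a * c) := by
      calc y ^ 2 * a * b ≤ x ^ 2 * b * b := by
            apply mul_le_mul_of_nonneg_right ih2 hpos.le
        _ = x ^ 2 * b ^ 2 := by ring
        _ ≤ x ^ 2 * (a * c) := by
            apply mul_le_mul_of_nonneg_left h (by positivity)
    have h4 : a * (y ^ 2 * b) ≤ a * (x ^ 2 * c) := by linarith
    exact le_of_mul_le_mul_left h4 ih1

theorem grid_odd_lower (m : ℕ) {q : ℝ} (hq : 4 ≤ q) (i : ℕ) :
    (gp (m + 1) 1).eval q * (((gp (m + 1) 2).eval q / (gp (m + 1) 1).eval q) ^ 2) ^ i ≤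
      (gp (m + 1) (2 * i + 1)).eval q := by
  induction i with
  | zero => simp
  | succ i ih =>
    have h := (grid_odd m hq i).2
    have h1 := gp_one_pos m hq
    have e1 : 2 * (i + 1) + 1 = 2 * i + 3 := by ring
    rw [e1, pow_succ, ← mul_assoc]
    have h2 : ((gp (m + 1) 2).eval q / (gp (m + 1) 1).eval q) ^ 2 * (gp (m + 1) (2 * i + 1)).eval q
        ≤ (gp (m + 1) (2 * i + 3)).eval q := by
      rw [div_pow, div_mul_eq_mul_div, div_le_iff₀ (by positivity)]
      linarith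
    calc _ ≤ (gp (m + 1) (2 * i + 1)).eval q *
          ((gp (m + 1) 2).eval q / (gp (m + 1) 1).eval q) ^ 2 := by
          apply mul_le_mul_of_nonneg_right ih (by positivity)
      _ ≤ _ := by linarith

/-! ### squares -/

/-- The lower left triangle of the square grid. -/
def Tri (n : ℕ) : Set (Fin n × Fin n) := {x | x.2.val ≤ x.1.val}

/-- The remaining part of the `n × (n+1)` grid. -/
def Trap (n : ℕ) : Set (Fin n × Fin (n + 1)) := {x | x.1.val ≤ x.2.val}

def dT (n : ℕ) (i : Fin n) : Tri n := ⟨(i, i), (le_refl i.val : i.val ≤ i.val)⟩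

def dK (n : ℕ) (i : Fin n) : Trap n :=
  ⟨(i, ⟨i.val, by omega⟩), (le_refl i.val : i.val ≤ i.val)⟩

theorem unlinked_tri (n : ℕ) : Unlinked ((Gr n n).induce (Tri n)) (dT n) := by
  let L : ℝ × ℝ → ℝ × ℝ := fun z => (z.1 + z.2, z.1 - z.2)
  have hL : Continuous L := by fun_prop
  have hi : Function.Injective L := by
    intro z w h
    have h1 := congrArg Prod.fst h
    have h2 := congrArg Prod.snd h
    simp only [L] at h1 h2
    exact Prod.ext (by linarith) (by linarith)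
  refine unlinked_of_drawing (((grid_drawing n n).map L hL hi).induce (Tri n)) ?_ ?_ (dT n) ?_ ?_
  · intro x
    simp only [L, gf]
    have : x.1.2.val ≤ x.1.1.val := x.2
    have : (x.1.2.val : ℝ) ≤ x.1.1.val := by exact_mod_cast this
    linarith
  · intro x y _ t ht
    simp only [L, gs]
    have h1 : (x.1.2.val : ℝ) ≤ x.1.1.val := by
      have : x.1.2.val ≤ x.1.1.val := x.2
      exact_mod_cast this
    have h2 : (y.1.2.val : ℝ) ≤ y.1.1.val := by
      have : y.1.2.val ≤ y.1.1.val := y.2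
      exact_mod_cast this
    nlinarith [ht.1, ht.2]
  · intro i
    simp [L, gf, dT]
  · intro i i' hii
    simp only [L, gf, dT]
    have : (i.val : ℝ) < i'.val := by exact_mod_cast hii
    linarith

theorem unlinked_trap (n : ℕ) : Unlinked ((Gr n (n + 1)).induce (Trap n)) (dK n) := by
  let L : ℝ × ℝ → ℝ × ℝ := fun z => (z.1 + z.2, z.2 - z.1)
  have hL : Continuous L := by fun_prop
  have hi : Function.Injective L := by
    intro z w h
    have h1 := congrArg Prod.fst h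
    have h2 := congrArg Prod.snd h
    simp only [L] at h1 h2
    exact Prod.ext (by linarith) (by linarith)
  refine unlinked_of_drawing (((grid_drawing n (n + 1)).map L hL hi).induce (Trap n)) ?_ ?_ (dK n)
    ?_ ?_
  · intro x
    simp only [L, gf]
    have : x.1.1.val ≤ x.1.2.val := x.2
    have : (x.1.1.val : ℝ) ≤ x.1.2.val := by exact_mod_cast this
    linarith
  · intro x y _ t ht
    simp only [L, gs]
    have h1 : (x.1.1.val : ℝ) ≤ x.1.2.val := by
      have : x.1.1.val ≤ x.1.2.val := x.2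
      exact_mod_cast this
    have h2 : (y.1.1.val : ℝ) ≤ y.1.2.val := by
      have : y.1.1.val ≤ y.1.2.val := y.2
      exact_mod_cast this
    nlinarith [ht.1, ht.2]
  · intro i
    simp [L, gf, dK]
  · intro i i' hii
    simp only [L, gf, dK]
    have : (i.val : ℝ) < i'.val := by exact_mod_cast hii
    linarith

theorem dT_inj (n : ℕ) : Function.Injective (dT n) := by
  intro a b h
  exact congrArg (fun x => x.1.1) h

theorem dK_inj (n : ℕ) : Function.Injective (dK n) := by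
  intro a b h
  exact congrArg (fun x => x.1.1) h

theorem glue_square (n : ℕ) : IsGlue (Gr n n) ((Gr n n).induce (Tri n)) (dT n)
    ((Gr n n).induce (Tri n)) (dT n) := by
  have hsw : ∀ x y : Fin n × Fin n, (Gr n n).Adj x y ↔ (Gr n n).Adj (x.2, x.1) (y.2, y.1) := by
    intro x y
    rw [Gr_adj, Gr_adj]
    exact or_comm
  refine ⟨fun x => x.1, fun x => (x.1.2, x.1.1), Subtype.val_injective, ?_, fun i => rfl, ?_, ?_, ?_⟩
  · intro x y h
    simp only [Prod.mk.injEq] at h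
    exact Subtype.ext (Prod.ext h.2 h.1)
  · intro x y h
    have h1 : x.1.1 = y.1.2 := congrArg Prod.fst h
    have h2 : x.1.2 = y.1.1 := congrArg Prod.snd h
    have h3 : x.1.2.val ≤ x.1.1.val := x.2
    have h4 : y.1.2.val ≤ y.1.1.val := y.2
    rw [h1, h2] at h3
    have h5 : y.1.1 = y.1.2 := Fin.ext (by omega)
    refine ⟨x.1.1, Subtype.ext (Prod.ext rfl ?_), Subtype.ext (Prod.ext ?_ ?_)⟩
    · change x.1.2 = x.1.1; rw [h1, h2, h5]
    · change y.1.1 = x.1.1; rw [h1, h5]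
    · change y.1.2 = x.1.1; rw [h1]
  · intro w
    rcases le_total w.2.val w.1.val with h | h
    · exact Or.inl ⟨⟨w, h⟩, rfl⟩
    · exact Or.inr ⟨⟨(w.2, w.1), h⟩, rfl⟩
  · intro w w'
    constructor
    · intro h
      by_cases hc : w.2.val ≤ w.1.val ∧ w'.2.val ≤ w'.1.val
      · exact Or.inl ⟨⟨w, hc.1⟩, ⟨w', hc.2⟩, h, rfl, rfl⟩
      · right
        have h0 := h
        rw [Gr_adj] at h0
        have h1 : w.1.val ≤ w.2.val ∧ w'.1.val ≤ w'.2.val := by
          rcases h0 with ⟨h3, h4⟩ | ⟨h3, h4⟩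
          · have : w.2.val = w'.2.val := by rw [h4]
            omega
          · have : w.1.val = w'.1.val := by rw [h4]
            omega
        exact ⟨⟨(w.2, w.1), h1.1⟩, ⟨(w'.2, w'.1), h1.2⟩, (hsw _ _).mp h, rfl, rfl⟩
    · rintro (⟨x, x', hxx, rfl, rfl⟩ | ⟨x, x', hxx, rfl, rfl⟩)
      · exact hxx
      · exact (hsw _ _).mp hxx

theorem glue_rect (n : ℕ) : IsGlue (Gr n (n + 1)) ((Gr n n).induce (Tri n)) (dT n)
    ((Gr n (n + 1)).induce (Trap n)) (dK n) := by
  refine ⟨fun x => (x.1.1, ⟨x.1.2.val, by omega⟩), fun x => x.1, ?_, Subtype.val_injective,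
    fun i => rfl, ?_, ?_, ?_⟩
  · intro x y h
    simp only [Prod.mk.injEq, Fin.mk.injEq] at h
    exact Subtype.ext (Prod.ext h.1 (Fin.ext h.2))
  · intro x y h
    have h1 : x.1.1 = y.1.1 := congrArg Prod.fst h
    have h2 : x.1.2.val = y.1.2.val := congrArg (fun z => z.2.val) h
    have h3 : x.1.2.val ≤ x.1.1.val := x.2
    have h4 : y.1.1.val ≤ y.1.2.val := y.2
    have h5 : x.1.1.val = y.1.1.val := by rw [h1]
    refine ⟨x.1.1, Subtype.ext (Prod.ext rfl (Fin.ext ?_)),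
      Subtype.ext (Prod.ext h1.symm (Fin.ext ?_))⟩
    · change x.1.2.val = x.1.1.val; omega
    · change y.1.2.val = x.1.1.val; omega
  · intro w
    by_cases h : w.1.val ≤ w.2.val
    · exact Or.inr ⟨⟨w, h⟩, rfl⟩
    · have h1 := w.1.isLt
      exact Or.inl ⟨⟨(w.1, ⟨w.2.val, by omega⟩), by change w.2.val ≤ w.1.val; omega⟩, rfl⟩
  · intro w w'
    constructor
    · intro h
      by_cases hc : w.1.val ≤ w.2.val ∧ w'.1.val ≤ w'.2.val
      · exact Or.inr ⟨⟨w, hc.1⟩, ⟨w', hc.2⟩, h, rfl, rfl⟩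
      · left
        have h1 := w.1.isLt
        have h2 := w'.1.isLt
        rw [Gr_adj] at h
        have h5 : w.2.val ≤ w.1.val ∧ w'.2.val ≤ w'.1.val := by
          rcases h with ⟨h3, h4⟩ | ⟨h3, h4⟩
          · have : w.2.val = w'.2.val := by rw [h4]
            omega
          · have : w.1.val = w'.1.val := by rw [h4]
            omega
        have h6 : w.2.val < n := by omega
        have h7 : w'.2.val < n := by omega
        have h8 : (Gr n n).Adj (w.1, ⟨w.2.val, h6⟩) (w'.1, ⟨w'.2.val, h7⟩) := by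
          rw [Gr_adj]
          simp only [Fin.mk.injEq]
          rcases h with ⟨h3, h4⟩ | ⟨h3, h4⟩
          · left; exact ⟨h3, by rw [h4]⟩
          · right; exact ⟨h3, h4⟩
        exact ⟨⟨(w.1, ⟨w.2.val, h6⟩), h5.1⟩, ⟨(w'.1, ⟨w'.2.val, h7⟩), h5.2⟩, h8, rfl, rfl⟩
    · rintro (⟨x, x', hxx, rfl, rfl⟩ | ⟨x, x', hxx, rfl, rfl⟩)
      · have hxx' : (Gr n n).Adj x.1 x'.1 := hxx
        rw [Gr_adj] at hxx' ⊢
        simp only [Fin.mk.injEq]
        rcases hxx' with ⟨h3, h4⟩ | ⟨h3, h4⟩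
        · left; exact ⟨h3, by rw [h4]⟩
        · right; exact ⟨h3, h4⟩
      · exact hxx

/-- A gluing always exists. -/
theorem exists_glue {n : ℕ} {V₁ V₂ : Type} (H₁ : SimpleGraph V₁) (b₁ : Fin n → V₁)
    (H₂ : SimpleGraph V₂) (b₂ : Fin n → V₂) (hb₁ : Function.Injective b₁)
    (hb₂ : Function.Injective b₂) :
    ∃ G : SimpleGraph (V₁ ⊕ {y : V₂ // ∀ i, b₂ i ≠ y}), IsGlue G H₁ b₁ H₂ b₂ := by
  classical
  let f₁ : V₁ → V₁ ⊕ {y : V₂ // ∀ i, b₂ i ≠ y} := Sum.inl
  let f₂ : V₂ → V₁ ⊕ {y : V₂ // ∀ i, b₂ i ≠ y} := fun y =>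
    if h : ∃ i, b₂ i = y then Sum.inl (b₁ h.choose) else Sum.inr ⟨y, fun i hi => h ⟨i, hi⟩⟩
  have hf₁ : Function.Injective f₁ := Sum.inl_injective
  have hfb : ∀ i, f₂ (b₂ i) = Sum.inl (b₁ i) := by
    intro i
    have h : ∃ j, b₂ j = b₂ i := ⟨i, rfl⟩
    simp only [f₂]
    rw [dif_pos h, hb₂ h.choose_spec]
  have hfn : ∀ y, (h : ∀ i, b₂ i ≠ y) → f₂ y = Sum.inr ⟨y, h⟩ := by
    intro y h
    have h' : ¬ ∃ i, b₂ i = y := by
      rintro ⟨i, hi⟩; exact h i hi
    simp only [f₂]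
    rw [dif_neg h']
  have hf₂ : Function.Injective f₂ := by
    intro y y' h
    by_cases hy : ∃ i, b₂ i = y
    · obtain ⟨i, rfl⟩ := hy
      by_cases hy' : ∃ i, b₂ i = y'
      · obtain ⟨i', rfl⟩ := hy'
        rw [hfb, hfb] at h
        rw [hb₁ (Sum.inl_injective h)]
      · push Not at hy'
        rw [hfb, hfn y' hy'] at h
        exact absurd h (by simp)
    · push Not at hy
      by_cases hy' : ∃ i, b₂ i = y'
      · obtain ⟨i', rfl⟩ := hy'
        rw [hfb, hfn y hy] at h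
        exact absurd h (by simp)
      · push Not at hy'
        rw [hfn y hy, hfn y' hy'] at h
        have := Sum.inr_injective h
        exact congrArg Subtype.val this
  let G : SimpleGraph (V₁ ⊕ {y : V₂ // ∀ i, b₂ i ≠ y}) :=
    { Adj := fun w w' => (∃ x x', H₁.Adj x x' ∧ f₁ x = w ∧ f₁ x' = w') ∨
        (∃ y y', H₂.Adj y y' ∧ f₂ y = w ∧ f₂ y' = w')
      symm := ⟨by
        rintro w w' (⟨x, x', h, h1, h2⟩ | ⟨x, x', h, h1, h2⟩)
        · exact Or.inl ⟨x', x, h.symm, h2, h1⟩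
        · exact Or.inr ⟨x', x, h.symm, h2, h1⟩⟩
      loopless := ⟨by
        rintro w (⟨x, x', h, h1, h2⟩ | ⟨x, x', h, h1, h2⟩)
        · exact h.ne (hf₁ (h1.trans h2.symm))
        · exact h.ne (hf₂ (h1.trans h2.symm))⟩ }
  refine ⟨G, f₁, f₂, hf₁, hf₂, fun i => (hfb i).symm, ?_, ?_, fun w w' => Iff.rfl⟩
  · intro x y h
    by_cases hy : ∃ i, b₂ i = y
    · obtain ⟨i, rfl⟩ := hy
      rw [hfb] at h
      exact ⟨i, Sum.inl_injective h, rfl⟩
    · push Not at hy
      rw [hfn y hy] at h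
      exact absurd h (by simp [f₁])
  · intro w
    rcases w with x | ⟨y, hy⟩
    · exact Or.inl ⟨x, rfl⟩
    · exact Or.inr ⟨y, hfn y hy⟩

theorem grid_pos_of_odd (m k : ℕ) (hm : 1 ≤ m) (hk : Odd k) {q : ℝ} (hq : 4 ≤ q) :
    0 < (gp m k).eval q := by
  obtain ⟨i, rfl⟩ := hk
  obtain ⟨m', rfl⟩ : ∃ m', m = m' + 1 := ⟨m - 1, by omega⟩
  exact (grid_odd m' hq i).1

theorem square_pos (n : ℕ) (hn : 1 ≤ n) {q : ℝ} (hq : 4 ≤ q) : 0 < (gp n n).eval q := by
  classical
  obtain ⟨D, hD⟩ := exists_glue ((Gr n (n + 1)).induce (Trap n)) (dK n)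
    ((Gr n (n + 1)).induce (Trap n)) (dK n) (dK_inj n) (dK_inj n)
  have : Fintype (Trap n) := Fintype.ofFinite _
  have : Fintype {y : Trap n // ∀ i, dK n i ≠ y} := Fintype.ofFinite _
  obtain ⟨p, hp⟩ := exists_chrom D
  have : Fintype (Tri n) := Fintype.ofFinite _
  have h := glue_cs hq (unlinked_tri n) (unlinked_trap n) (glue_rect n) (glue_square n) hD
    (gp_spec _ _) (gp_spec _ _) hp
  have hpos : 0 < (gp n (n + 1)).eval q := by
    rcases Nat.even_or_odd n with he | ho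
    · exact grid_pos_of_odd n (n + 1) hn he.add_one hq
    · rw [gp_symm]
      exact grid_pos_of_odd (n + 1) n (by omega) ho hq
  have h2 : 0 < (gp n n).eval q * p.eval q := lt_of_lt_of_le (by positivity) h.2.2
  by_contra hc
  exact absurd h2 (not_lt.mpr (mul_nonpos_iff.mpr (Or.inr ⟨not_lt.mp hc, h.2.1⟩)))

end Pool.Agent.H413R2.RP
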