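import Pool.Agent.H413R2.RP.Draw

set_option autoImplicit false

namespace Pool.Agent.H413R2.RP

open Finset Polynomial

/-- Every finite graph has a chromatic polynomial. -/
theorem exists_chrom {V : Type} [Fintype V] (G : SimpleGraph V) : ∃ p : Polynomial ℝ, IsChrom G p := by
  classical
  let b : Fin 0 → V := fun i => i.elim0
  refine ⟨∑ A ∈ G.edgeFinset.powerset, C ((-1) ^ A.card) * X ^ (c0 (conn A) b), ?_⟩
  intro m
  let φ : Fin 0 → Fin m := fun i => i.elim0
  have h1 : (Nat.card (G.Coloring (Fin m)) : ℝ) = (Nb G b m φ : ℝ) := by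
    unfold Nb
    congr 1
    apply Nat.card_congr
    refine ⟨fun c => ⟨fun v => c v, fun u v huv => c.valid huv, fun i => i.elim0⟩,
      fun x => SimpleGraph.Coloring.mk x.1 (fun {u v} huv => x.2.1 u v huv), ?_, ?_⟩
    · intro c; rfl
    · intro x; rfl
  rw [h1, Nb_eq, Polynomial.eval_finsetSum]
  refine Finset.sum_congr rfl (fun A _ => ?_)
  have : Setoid.comap b (conn A) ≤ Setoid.ker φ := fun i => i.elim0
  rw [ind_pos this]
  simp only [eval_mul, eval_C, eval_pow, eval_X, mul_one]

theorem chrom_unique {V : Type} {G : SimpleGraph V} {p p' : Polynomial ℝ} (h : IsChrom G p)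
    (h' : IsChrom G p') : p = p' := by
  apply Polynomial.eq_of_infinite_eval_eq
  apply Set.Infinite.mono (s := Set.range (fun m : ℕ => (m : ℝ)))
  · rintro _ ⟨m, rfl⟩
    change eval (m : ℝ) p = eval (m : ℝ) p'
    rw [h m, h' m]
  · exact Set.infinite_range_of_injective Nat.cast_injective

theorem IsChrom.of_iso {V W : Type} {G : SimpleGraph V} {G' : SimpleGraph W} {p : Polynomial ℝ}
    (h : IsChrom G p) (e : G ≃g G') : IsChrom G' p := by
  intro m
  rw [h m]
  congr 1
  apply Nat.card_congr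
  refine ⟨fun c => c.comp e.symm.toHom, fun c => c.comp e.toHom, ?_, ?_⟩
  · intro c; ext x; simp
  · intro c; ext x; simp

theorem chrom_bot (n : ℕ) : IsChrom (⊥ : SimpleGraph (Fin n)) (X ^ n) := by
  intro m
  have : Nat.card ((⊥ : SimpleGraph (Fin n)).Coloring (Fin m)) = Nat.card (Fin n → Fin m) := by
    apply Nat.card_congr
    refine ⟨fun c => fun v => c v, fun x => SimpleGraph.Coloring.mk x (fun {u v} huv => ?_), ?_, ?_⟩
    · exact absurd huv (by simp)
    · intro c; rfl
    · intro x; rfl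
  rw [this]
  simp

theorem unlinked_bot (n : ℕ) : Unlinked (⊥ : SimpleGraph (Fin n)) (id : Fin n → Fin n) := by
  intro i j k l hij hjk hkl p p'
  exfalso
  have hne : i ≠ k := ne_of_lt (hij.trans hjk)
  cases p with
  | nil => exact hne rfl
  | cons h _ => exact absurd h (by simp)

theorem glue_bot (n : ℕ) : IsGlue (⊥ : SimpleGraph (Fin n)) (⊥ : SimpleGraph (Fin n)) id
    (⊥ : SimpleGraph (Fin n)) id := by
  refine ⟨id, id, Function.injective_id, Function.injective_id, fun i => rfl,
    fun x y h => ⟨x, rfl, h.symm⟩, fun w => Or.inl ⟨w, rfl⟩, ?_⟩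
  intro w w'
  simp

theorem glue_half {n : ℕ} {V : Type} (H : SimpleGraph V) {b : Fin n → V}
    (hb : Function.Injective b) : IsGlue H H b (⊥ : SimpleGraph (Fin n)) id := by
  refine ⟨id, b, Function.injective_id, hb, fun i => rfl, ?_, fun w => Or.inl ⟨w, rfl⟩, ?_⟩
  · intro x y h
    exact ⟨y, h, rfl⟩
  · intro w w'
    simp

/-- **The double of an unlinked half.** -/
theorem double_ge {n : ℕ} {V W : Type} [Fintype V] {H : SimpleGraph V} {b : Fin n → V}
    {D : SimpleGraph W} (hb : Function.Injective b) (hu : Unlinked H b) (hD : IsGlue D H b H b)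
    {p r : Polynomial ℝ} (hp : IsChrom D p) (hr : IsChrom H r) {q : ℝ} (hq : 4 ≤ q) :
    0 ≤ p.eval q ∧ (r.eval q) ^ 2 ≤ q ^ n * p.eval q := by
  have := glue_cs hq hu (unlinked_bot n) (glue_half H hb) hD (glue_bot n) hr hp (chrom_bot n)
  refine ⟨this.1, ?_⟩
  have h2 := this.2.2
  simp only [eval_pow, eval_X] at h2
  linarith

end Pool.Agent.H413R2.RP
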