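import Pool.Agent.H413R2.RP.Gram

set_option autoImplicit false

namespace Pool.Agent.H413R2.RP

open Finset Function

variable {n : ℕ}

theorem cl_bot : cl (⊥ : Setoid (Fin n)) = n := by
  unfold cl
  have e : Quotient (⊥ : Setoid (Fin n)) ≃ Fin n :=
    { toFun := Quotient.lift id (fun a b h => h)
      invFun := Quotient.mk _
      left_inv := by
        intro c
        induction c using Quotient.inductionOn with | _ x => rfl
      right_inv := fun x => rfl }
  rw [Nat.card_congr e, Nat.card_eq_fintype_card, Fintype.card_fin]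

theorem G_bot {α : ℝ} (hα : α ≠ 0) : G α (⊥ : Setoid (Fin n)) ⊥ = (α ^ 2 + (α ^ 2)⁻¹) ^ n := by
  unfold G
  have h1 : ∀ k : Fin n, nx (⊥ : Setoid (Fin n)) k = k := fun k => ((nx_spec ⊥ k).1 : k = _).symm
  have h2 : ∀ k : Fin n, ex (⊥ : Setoid (Fin n)) k = -1 := by
    intro k; unfold ex; rw [h1, if_neg (lt_irrefl _)]
  let g : Bool → Bool → ℝ := fun u v => if u = v then (wt α u) ^ (2 * (-1) : ℤ) else 0
  have h3 : ∀ x : St n, V α ⊥ x * V α ⊥ x =
      ∏ k : Fin n, g (x (Sum.inr k)) (x (Sum.inl k)) := by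
    intro x
    unfold V W
    rw [← Finset.prod_mul_distrib]
    refine Finset.prod_congr rfl (fun k _ => ?_)
    unfold fac
    rw [h1, h2]
    simp only [g]
    split_ifs with h
    · rw [two_mul, zpow_add₀ (wt_ne hα _)]
    · simp
  rw [Finset.sum_congr rfl (fun x _ => h3 x)]
  rw [← (Equiv.sumArrowEquivProdArrow (Fin n) (Fin n) Bool).symm.sum_comp]
  rw [Fintype.sum_prod_type]
  simp only [Equiv.sumArrowEquivProdArrow, Equiv.coe_fn_symm_mk, Sum.elim_inr, Sum.elim_inl]
  have h4 : ∀ a : Fin n → Bool, ∑ b : Fin n → Bool, ∏ k : Fin n, g (b k) (a k) =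
      ∏ k : Fin n, ∑ v : Bool, g v (a k) := by
    intro a
    rw [Finset.prod_univ_sum, Fintype.piFinset_univ]
  rw [Finset.sum_congr rfl (fun a _ => h4 a)]
  have h5 : ∀ a : Fin n → Bool, ∏ k : Fin n, ∑ v : Bool, g v (a k) =
      ∏ k : Fin n, (wt α (a k)) ^ (2 * (-1) : ℤ) := by
    intro a
    refine Finset.prod_congr rfl (fun k _ => ?_)
    rw [Finset.sum_eq_single (a k)]
    · simp only [g, if_true]
    · intro v _ hv
      simp only [g]; rw [if_neg hv]
    · intro h; exact absurd (Finset.mem_univ _) h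
  rw [Finset.sum_congr rfl (fun a _ => h5 a)]
  have h6 : ∑ a : Fin n → Bool, ∏ k : Fin n, (wt α (a k)) ^ (2 * (-1) : ℤ) =
      ∏ _k : Fin n, ∑ v : Bool, (wt α v) ^ (2 * (-1) : ℤ) := by
    rw [Finset.prod_univ_sum, Fintype.piFinset_univ]
  rw [h6, Finset.prod_const, sum_wt', Finset.card_univ, Fintype.card_fin]

/-- number of elements in nontrivial blocks -/
noncomputable def nsg (r : Setoid (Fin n)) : ℕ := by
  classical exact (Finset.univ.filter (fun i => ∃ j, r i j ∧ j ≠ i)).card

theorem nsg_detS {r : Setoid (Fin n)} {i : Fin n} (h : ∃ j, r i j ∧ j ≠ i) :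
    nsg (detS r i) < nsg r := by
  classical
  unfold nsg
  apply Finset.card_lt_card
  rw [Finset.ssubset_iff_of_subset]
  · refine ⟨i, by simpa using h, ?_⟩
    simp only [Finset.mem_filter, Finset.mem_univ, true_and, not_exists, not_and, not_not]
    rintro j (h1 | ⟨h1, _⟩)
    · exact h1.symm
    · exact absurd rfl h1
  · intro k hk
    simp only [Finset.mem_filter, Finset.mem_univ, true_and] at hk ⊢
    obtain ⟨j, hj, hne⟩ := hk
    rcases hj with h1 | ⟨_, _, h3⟩
    · exact absurd h1.symm hne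
    · exact ⟨j, h3, hne⟩

theorem eq_bot_of_nsg {r : Setoid (Fin n)} (h : ¬ ∃ i j, r i j ∧ j ≠ i) : r = ⊥ := by
  push Not at h
  ext x y
  constructor
  · intro hxy
    exact (h x y hxy).symm
  · intro hxy
    have : x = y := hxy
    subst this
    exact r.refl x

theorem detS_bot (i : Fin n) : detS (⊥ : Setoid (Fin n)) i = ⊥ :=
  detS_of_single (fun j hj => (hj : i = j).symm)

theorem good_bot {α δ : ℝ} (hα : α ≠ 0) (hδ : δ = α ^ 2 + (α ^ 2)⁻¹) (hδ0 : δ ≠ 0) :
    ∀ (m : ℕ) (t : Setoid (Fin n)), nsg t = m → Good α δ ⊥ t := by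
  intro m
  induction m using Nat.strong_induction_on with
  | _ m ih =>
    intro t ht
    by_cases h : ∃ i j, t i j ∧ j ≠ i
    · obtain ⟨i, hi⟩ := h
      have h1 := ih (nsg (detS t i)) (ht ▸ nsg_detS hi) (detS t i) rfl
      have h2 := good_det hα hδ hδ0 (r := ⊥) (t := t) (i := i) h1
      rwa [detS_bot] at h2
    · rw [eq_bot_of_nsg h]
      unfold Good
      rw [G_bot hα, sup_idem, cl_bot, ← hδ, ← pow_add]
      congr 1
      ring

/-- Partitions generated by joins of neighbours and detachments. -/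
inductive Gen : Setoid (Fin n) → Prop
  | bot : Gen ⊥
  | join {r : Setoid (Fin n)} {i j : Fin n} : Gen r → j.val = i.val + 1 → Gen (joinS r i j)
  | det {r : Setoid (Fin n)} {i : Fin n} : Gen r → Gen (detS r i)

theorem Gen.nc {r : Setoid (Fin n)} (h : Gen r) : NC r := by
  induction h with
  | bot => exact NC_bot
  | join _ hij ih => exact NC_joinS ih hij
  | det _ ih => exact NC_detS ih _

theorem Gen.good {α δ : ℝ} (hα : α ≠ 0) (hδ : δ = α ^ 2 + (α ^ 2)⁻¹) (hδ0 : δ ≠ 0)
    {r : Setoid (Fin n)} (h : Gen r) : ∀ t, NC t → Good α δ r t := by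
  induction h with
  | bot => intro t _; exact good_bot hα hδ hδ0 _ t rfl
  | join h hij ih =>
    intro t ht
    exact good_join hα hδ hδ0 h.nc ht hij (ih _ (NC_joinS ht hij))
  | det h ih =>
    intro t ht
    exact good_det hα hδ hδ0 (ih _ (NC_detS ht _))

theorem joinS_comm (r : Setoid (Fin n)) (i j : Fin n) : joinS r i j = joinS r j i := by
  ext x y
  rw [joinS_iff, joinS_iff, or_comm (a := r x i), or_comm (a := r y i)]

theorem join_far {r : Setoid (Fin n)} {i k l : Fin n} (hil : i ≠ l) (hkl : k ≠ l)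
    (hl : ∀ m, r l m → m = l) :
    detS (joinS (joinS r i l) l k) l = joinS r i k := by
  have hl' : ∀ m, r m l → m = l := fun m hm => hl m (r.symm hm)
  have a1 : ∀ x, x ≠ l → ∀ y, y ≠ l → (joinS r i l x y ↔ r x y) := by
    intro x hx y hy
    constructor
    · rintro (h | ⟨h1 | h1, h2 | h2⟩)
      · exact h
      · exact r.trans h1 (r.symm h2)
      · exact absurd (hl' y h2) hy
      · exact absurd (hl' x h1) hx
      · exact absurd (hl' x h1) hx
    · exact fun h => Or.inl h
  have a2 : ∀ x, x ≠ l → (joinS r i l x l ↔ r x i) := by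
    intro x hx
    constructor
    · rintro (h | ⟨h1 | h1, _⟩)
      · exact absurd (hl' x h) hx
      · exact h1
      · exact absurd (hl' x h1) hx
    · exact fun h => Or.inr ⟨Or.inl h, Or.inr (r.refl l)⟩
  ext x y
  constructor
  · rintro (rfl | ⟨hx, hy, h⟩)
    · exact Or.inl (r.refl x)
    · rcases h with h | ⟨h1, h2⟩
      · exact Or.inl ((a1 x hx y hy).mp h)
      · refine Or.inr ⟨?_, ?_⟩
        · exact h1.imp (a2 x hx).mp (a1 x hx k hkl).mp
        · exact h2.imp (a2 y hy).mp (a1 y hy k hkl).mp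
  · intro h
    by_cases hx : x = l
    · subst hx
      rcases h with h | ⟨h | h, _⟩
      · exact Or.inl (hl y h).symm
      · exact absurd (hl i h) hil
      · exact absurd (hl k h) hkl
    · by_cases hy : y = l
      · subst hy
        rcases h with h | ⟨_, h | h⟩
        · exact Or.inl (hl' x h)
        · exact absurd (hl i h) hil
        · exact absurd (hl k h) hkl
      · refine Or.inr ⟨hx, hy, ?_⟩
        rcases h with h | ⟨h1, h2⟩
        · exact Or.inl ((a1 x hx y hy).mpr h)
        · refine Or.inr ⟨?_, ?_⟩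
          · exact h1.imp (a2 x hx).mpr (a1 x hx k hkl).mpr
          · exact h2.imp (a2 y hy).mpr (a1 y hy k hkl).mpr

theorem gen_far : ∀ (g : ℕ) {r : Setoid (Fin n)} {i k : Fin n}, k.val = i.val + 1 + g →
    (∀ l, i < l → l < k → ∀ m, r l m → m = l) → Gen r → Gen (joinS r i k) := by
  intro g
  induction g with
  | zero =>
    intro r i k hk _ hr
    exact Gen.join hr (by omega)
  | succ g ih =>
    intro r i k hk hs hr
    have hlt : i.val + 1 + g < n := by have := k.isLt; omega
    let l : Fin n := ⟨i.val + 1 + g, hlt⟩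
    have hil : i < l := by rw [Fin.lt_def]; change i.val < i.val + 1 + g; omega
    have hlk : l < k := by rw [Fin.lt_def]; change i.val + 1 + g < k.val; omega
    have h1 := ih (r := r) (i := i) (k := l) rfl
      (fun m hm1 hm2 => hs m hm1 (hm2.trans hlk)) hr
    have h2 : Gen (joinS (joinS r i l) l k) := Gen.join h1 (by change k.val = i.val + 1 + g + 1; omega)
    have h3 := Gen.det (i := l) h2
    rwa [join_far (ne_of_lt hil) (ne_of_gt hlk) (hs l hil hlk)] at h3

theorem gen_of_nc : ∀ (m : ℕ) (r : Setoid (Fin n)), nsg r = m → NC r → Gen r := by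
  classical
  intro m
  induction m using Nat.strong_induction_on with
  | _ m ih =>
    intro r hm hr
    by_cases h : ∃ i k : Fin n, i < k ∧ r i k
    · -- choose a minimal gap
      let P : ℕ → Prop := fun g => ∃ i k : Fin n, i < k ∧ r i k ∧ k.val - i.val = g
      have hP : ∃ g, P g := by
        obtain ⟨i, k, h1, h2⟩ := h
        exact ⟨_, i, k, h1, h2, rfl⟩
      obtain ⟨i, k, hik, hrik, hg⟩ := Nat.find_spec hP
      have hmin : ∀ a b : Fin n, a < b → r a b → k.val - i.val ≤ b.val - a.val := by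
        intro a b hab hrab
        rw [hg]
        exact Nat.find_min' hP ⟨a, b, hab, hrab, rfl⟩
      have hsing : ∀ l, i < l → l < k → ∀ m, r l m → m = l := by
        intro l hl1 hl2 m hlm
        by_contra hne
        have hil : ¬ r i l := by
          intro hh
          have := hmin i l hl1 hh
          rw [Fin.lt_def] at hl1 hl2 hik; omega
        rcases lt_trichotomy m l with g | g | g
        · rcases lt_trichotomy m i with g' | g' | g'
          · have := hr m i l k g' hl1 hl2 (r.symm hlm) hrik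
            exact hil (r.trans (r.symm this) (r.symm hlm))
          · exact hil (g' ▸ r.symm hlm)
          · have := hmin m l g (r.symm hlm)
            rw [Fin.lt_def] at *; omega
        · exact hne g
        · rcases lt_trichotomy m k with g' | g' | g'
          · have := hmin l m g hlm
            rw [Fin.lt_def] at *; omega
          · exact hil (r.trans hrik (r.symm (g' ▸ hlm)))
          · exact hil (hr i l k m hl1 hl2 g' hrik hlm)
      have hns : ∃ j, r k j ∧ j ≠ k := ⟨i, r.symm hrik, ne_of_lt hik⟩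
      have h1 := ih (nsg (detS r k)) (hm ▸ nsg_detS hns) (detS r k) rfl (NC_detS hr k)
      have h2 : joinS (detS r k) i k = r := by
        rw [joinS_comm]; exact joinS_detS (r.symm hrik) (ne_of_lt hik)
      rw [← h2]
      refine gen_far (k.val - i.val - 1) (by rw [Fin.lt_def] at hik; omega) ?_ h1
      intro l hl1 hl2 m hlm
      rcases hlm with hlm | ⟨_, _, hlm⟩
      · exact hlm.symm
      · exact hsing l hl1 hl2 m hlm
    · have : r = ⊥ := by
        apply eq_bot_of_nsg
        rintro ⟨i, j, hij, hne⟩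
        rcases lt_trichotomy i j with g | g | g
        · exact h ⟨i, j, g, hij⟩
        · exact hne g.symm
        · exact h ⟨j, i, g, r.symm hij⟩
      rw [this]; exact Gen.bot

theorem good_all {α δ : ℝ} (hα : α ≠ 0) (hδ : δ = α ^ 2 + (α ^ 2)⁻¹) (hδ0 : δ ≠ 0)
    {r t : Setoid (Fin n)} (hr : NC r) (ht : NC t) : Good α δ r t :=
  (gen_of_nc _ r rfl hr).good hα hδ hδ0 t ht

/-- **Positivity of the Gram matrix of noncrossing partitions for `q ≥ 4`**, in explicit form. -/
theorem exists_vectors (n : ℕ) {q : ℝ} (hq : 4 ≤ q) :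
    ∃ v : Setoid (Fin n) → St n → ℝ, ∀ r t : Setoid (Fin n), NC r → NC t →
      ∑ x : St n, v r x * v t x = q ^ (cl (r ⊔ t)) := by
  set δ := Real.sqrt q with hδdef
  have hδ2 : δ ^ 2 = q := Real.sq_sqrt (by linarith)
  have hδge : 2 ≤ δ := by
    rw [hδdef]; apply Real.le_sqrt_of_sq_le; norm_num; exact hq
  have hD : 0 ≤ δ ^ 2 - 4 := by rw [hδ2]; linarith
  set s := Real.sqrt (δ ^ 2 - 4) with hs
  have hs2 : s ^ 2 = δ ^ 2 - 4 := Real.sq_sqrt hD
  have hs0 : 0 ≤ s := Real.sqrt_nonneg _
  set l := (δ + s) / 2 with hl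
  have hlpos : 0 < l := by rw [hl]; linarith
  set α := Real.sqrt l with hα
  have hα2 : α ^ 2 = l := Real.sq_sqrt hlpos.le
  have hα0 : α ≠ 0 := (Real.sqrt_pos.mpr hlpos).ne'
  have hδα : δ = α ^ 2 + (α ^ 2)⁻¹ := by
    rw [hα2]
    field_simp
    have : l ^ 2 = δ * l - 1 := by
      rw [hl]
      nlinarith
    linarith
  have hδ0 : δ ≠ 0 := by linarith
  have hδpos : 0 < δ := by linarith
  obtain ⟨S, hS0, hSS⟩ : ∃ S : ℝ, S ≠ 0 ∧ S * S = δ ^ n :=
    ⟨Real.sqrt (δ ^ n), (Real.sqrt_pos.mpr (pow_pos hδpos n)).ne',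
      Real.mul_self_sqrt (pow_nonneg hδpos.le n)⟩
  refine ⟨fun r x => δ ^ (cl r) / S * V α r x, ?_⟩
  intro r t hr ht
  have hg := good_all hα0 hδα hδ0 hr ht
  unfold Good G at hg
  have e1 : ∑ x : St n, (δ ^ (cl r) / S * V α r x) * (δ ^ (cl t) / S * V α t x) =
      (δ ^ (cl r + cl t) * ∑ x : St n, V α r x * V α t x) / δ ^ n := by
    rw [Finset.mul_sum, Finset.sum_div]
    refine Finset.sum_congr rfl (fun x _ => ?_)
    rw [← hSS, pow_add]
    field_simp
  rw [e1, hg, pow_add, pow_mul, hδ2]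
  field_simp

end Pool.Agent.H413R2.RP
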