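import Pool.Agent.H413R2.RP.Half

set_option autoImplicit false

namespace Pool.Agent.H413R2.RP

open Set

/-- The drawing `(f, γ)` of `G` is symmetric under the reflection `(x, y) ↦ (x, -y)` via the
vertex map `τ`. -/
def IsMirror {V : Type} (G : SimpleGraph V) (f : V → ℝ × ℝ) (γ : V → V → ℝ → ℝ × ℝ)
    (τ : V → V) : Prop :=
  (∀ v, f (τ v) = ((f v).1, -(f v).2)) ∧
  (∀ u v, G.Adj u v → G.Adj (τ u) (τ v) ∧
    ∀ t ∈ Set.Icc (0:ℝ) 1, γ (τ u) (τ v) t = ((γ u v t).1, -(γ u v t).2))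

section

variable {V : Type} {G : SimpleGraph V} {f : V → ℝ × ℝ} {γ : V → V → ℝ → ℝ × ℝ} {τ : V → V}

theorem tau_tau (hd : IsDrawing G f γ) (hm : IsMirror G f γ τ) (v : V) : τ (τ v) = v := by
  apply hd.1
  rw [hm.1, hm.1]
  simp

theorem tau_fix (hd : IsDrawing G f γ) (hm : IsMirror G f γ τ) (v : V) :
    τ v = v ↔ (f v).2 = 0 := by
  constructor
  · intro h
    have := hm.1 v
    rw [h] at this
    have h2 := congrArg Prod.snd this
    simp only at h2
    linarith
  · intro h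
    apply hd.1
    rw [hm.1, h]
    exact Prod.ext rfl (by simp [h])

theorem zero_fix (hd : IsDrawing G f γ) (hm : IsMirror G f γ τ) (hno : ∀ u, ¬ G.Adj u (τ u))
    {u v : V} (huv : G.Adj u v) {t : ℝ} (ht : t ∈ Set.Ioo (0:ℝ) 1) (h0 : (γ u v t).2 = 0) :
    (f u).2 = 0 ∧ (f v).2 = 0 := by
  have h1 := (hm.2 u v huv).2 t ⟨ht.1.le, ht.2.le⟩
  have h2 : γ (τ u) (τ v) t = γ u v t := by
    rw [h1, h0]
    exact Prod.ext rfl (by simp [h0])
  by_cases hs : s(u, v) = s(τ u, τ v)
  · rw [Sym2.eq_iff] at hs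
    rcases hs with ⟨h3, h4⟩ | ⟨h3, h4⟩
    · exact ⟨(tau_fix hd hm u).mp h3.symm, (tau_fix hd hm v).mp h4.symm⟩
    · exact absurd (h4 ▸ huv) (hno u)
  · exact absurd h2.symm (hd.2.2 u v (τ u) (τ v) huv (hm.2 u v huv).1 hs t ht t ht)

theorem arc_cont (hd : IsDrawing G f γ) {u v : V} (huv : G.Adj u v) :
    ContinuousOn (fun t => (γ u v t).2) (Set.Icc (0:ℝ) 1) :=
  continuous_snd.comp_continuousOn (hd.2.1 u v huv).1

theorem both_upper (hd : IsDrawing G f γ) (hm : IsMirror G f γ τ) (hno : ∀ u, ¬ G.Adj u (τ u))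
    {u v : V} (huv : G.Adj u v) (hu : 0 < (f u).2) : 0 ≤ (f v).2 := by
  by_contra hneg
  push Not at hneg
  have hc := arc_cont hd huv
  have h0 : (γ u v 0).2 = (f u).2 := by rw [(hd.2.1 u v huv).2.2.1]
  have h1 : (γ u v 1).2 = (f v).2 := by rw [(hd.2.1 u v huv).2.2.2.1]
  have := intermediate_value_Icc' (zero_le_one) hc
  have h2 : (0:ℝ) ∈ Set.Icc ((γ u v 1).2) ((γ u v 0).2) := by
    rw [h0, h1]; exact ⟨hneg.le, hu.le⟩
  obtain ⟨t, ht, htz⟩ := this h2
  simp only at htz
  have ht0 : t ≠ 0 := by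
    rintro rfl; rw [h0] at htz; linarith
  have ht1 : t ≠ 1 := by
    rintro rfl; rw [h1] at htz; linarith
  have := zero_fix hd hm hno huv ⟨lt_of_le_of_ne ht.1 (Ne.symm ht0), lt_of_le_of_ne ht.2 ht1⟩ htz
  linarith [this.1]

theorem arc_upper (hd : IsDrawing G f γ) (hm : IsMirror G f γ τ) (hno : ∀ u, ¬ G.Adj u (τ u))
    {u v : V} (huv : G.Adj u v) (hu : 0 ≤ (f u).2) (hv : 0 ≤ (f v).2) {t : ℝ}
    (ht : t ∈ Set.Ioo (0:ℝ) 1) : 0 ≤ (γ u v t).2 := by
  by_contra hneg
  push Not at hneg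
  have hc := arc_cont hd huv
  have h0 : (γ u v 0).2 = (f u).2 := by rw [(hd.2.1 u v huv).2.2.1]
  have h1 : (γ u v 1).2 = (f v).2 := by rw [(hd.2.1 u v huv).2.2.2.1]
  -- there is a zero in the open interval
  have key : ∃ s ∈ Set.Ioo (0:ℝ) 1, (γ u v s).2 = 0 := by
    rcases lt_or_eq_of_le hu with hu' | hu'
    · have hc' : ContinuousOn (fun t => (γ u v t).2) (Set.Icc 0 t) :=
        hc.mono (Set.Icc_subset_Icc le_rfl ht.2.le)
      have := intermediate_value_Icc' ht.1.le hc'
      have h2 : (0:ℝ) ∈ Set.Icc ((γ u v t).2) ((γ u v 0).2) := by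
        rw [h0]; exact ⟨hneg.le, hu⟩
      obtain ⟨s, hs, hsz⟩ := this h2
      simp only at hsz
      have hs0 : s ≠ 0 := by
        rintro rfl; rw [h0] at hsz; linarith
      exact ⟨s, ⟨lt_of_le_of_ne hs.1 (Ne.symm hs0), lt_of_le_of_lt hs.2 ht.2⟩, hsz⟩
    · rcases lt_or_eq_of_le hv with hv' | hv'
      · have hc' : ContinuousOn (fun t => (γ u v t).2) (Set.Icc t 1) :=
          hc.mono (Set.Icc_subset_Icc ht.1.le le_rfl)
        have := intermediate_value_Icc ht.2.le hc'
        have h2 : (0:ℝ) ∈ Set.Icc ((γ u v t).2) ((γ u v 1).2) := by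
          rw [h1]; exact ⟨hneg.le, hv⟩
        obtain ⟨s, hs, hsz⟩ := this h2
        simp only at hsz
        have hs1 : s ≠ 1 := by
          rintro rfl; rw [h1] at hsz; linarith
        exact ⟨s, ⟨lt_of_lt_of_le ht.1 hs.1, lt_of_le_of_ne hs.2 hs1⟩, hsz⟩
      · exfalso
        have e1 : τ u = u := (tau_fix hd hm u).mpr hu'.symm
        have e2 : τ v = v := (tau_fix hd hm v).mpr hv'.symm
        have e3 := (hm.2 u v huv).2 t ⟨ht.1.le, ht.2.le⟩
        rw [e1, e2] at e3
        have e4 := congrArg Prod.snd e3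
        simp only at e4
        linarith
  obtain ⟨s, hs, hsz⟩ := key
  have h3 := zero_fix hd hm hno huv hs hsz
  have e1 : τ u = u := (tau_fix hd hm u).mpr h3.1
  have e2 : τ v = v := (tau_fix hd hm v).mpr h3.2
  have e3 := (hm.2 u v huv).2 t ⟨ht.1.le, ht.2.le⟩
  rw [e1, e2] at e3
  have e4 := congrArg Prod.snd e3
  simp only at e4
  linarith

/-- The enumeration of the vertices on the axis from left to right. -/
theorem exists_enum [Fintype V] (hd : IsDrawing G f γ) :
    ∃ b : Fin (Nat.card {v // (f v).2 = 0}) → V,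
      (∀ i, (f (b i)).2 = 0) ∧ (∀ i j, i < j → (f (b i)).1 < (f (b j)).1) ∧
      (∀ v, (f v).2 = 0 → ∃ i, b i = v) := by
  classical
  let S : Finset V := Finset.univ.filter (fun v => (f v).2 = 0)
  let T : Finset ℝ := S.image (fun v => (f v).1)
  have hinj : Set.InjOn (fun v => (f v).1) (S : Set V) := by
    intro u hu v hv huv
    simp only [S, Finset.coe_filter, Finset.mem_univ, true_and, Set.mem_setOf_eq] at hu hv
    exact hd.1 (Prod.ext huv (hu.trans hv.symm))
  have hT : T.card = Nat.card {v // (f v).2 = 0} := by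
    rw [Finset.card_image_of_injOn hinj, Nat.card_eq_fintype_card, Fintype.card_subtype]
  let e := T.orderEmbOfFin hT
  have he : ∀ i, ∃ v, (f v).2 = 0 ∧ (f v).1 = e i := by
    intro i
    have : e i ∈ T := Finset.orderEmbOfFin_mem T hT i
    simp only [T, S, Finset.mem_image, Finset.mem_filter, Finset.mem_univ, true_and] at this
    exact this
  choose b hb using he
  refine ⟨b, fun i => (hb i).1, ?_, ?_⟩
  · intro i j hij
    rw [(hb i).2, (hb j).2]
    exact (OrderEmbedding.lt_iff_lt e).mpr hij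
  · intro v hv
    have hvT : (f v).1 ∈ T := by
      simp only [T, S, Finset.mem_image, Finset.mem_filter, Finset.mem_univ, true_and]
      exact ⟨v, hv, rfl⟩
    have : (f v).1 ∈ Set.range e := by
      rw [Finset.range_orderEmbOfFin]; exact hvT
    obtain ⟨i, hi⟩ := this
    refine ⟨i, hd.1 (Prod.ext ?_ ?_)⟩
    · rw [(hb i).2, hi]
    · rw [(hb i).1, hv]

/-- **Mirror-symmetric plane graphs.** -/
theorem mirror_ge [Fintype V] (hd : IsDrawing G f γ) (hm : IsMirror G f γ τ)
    (hno : ∀ u, ¬ G.Adj u (τ u)) {p r : Polynomial ℝ} (hp : IsChrom G p)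
    (hr : IsChrom (G.induce {v | 0 ≤ (f v).2}) r) {q : ℝ} (hq : 4 ≤ q) :
    0 ≤ p.eval q ∧ (r.eval q) ^ 2 ≤ q ^ (Nat.card {v // (f v).2 = 0}) * p.eval q := by
  classical
  obtain ⟨b, hb0, hbm, hbs⟩ := exists_enum hd
  let U : Set V := {v | 0 ≤ (f v).2}
  let H : SimpleGraph U := G.induce U
  let b' : Fin (Nat.card {v // (f v).2 = 0}) → U := fun i => ⟨b i, (hb0 i).ge⟩
  have hbinj : Function.Injective b' := by
    intro i j hij
    have h1 : b i = b j := congrArg Subtype.val hij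
    rcases lt_trichotomy i j with h | h | h
    · have := hbm i j h; rw [h1] at this; exact absurd this (lt_irrefl _)
    · exact h
    · have := hbm j i h; rw [h1] at this; exact absurd this (lt_irrefl _)
  have hdH : IsDrawing H (fun v => f v.1) (fun u v => γ u.1 v.1) := by
    refine ⟨fun u v huv => Subtype.ext (hd.1 huv), ?_, ?_⟩
    · intro u v huv
      obtain ⟨h1, h2, h3, h4, h5⟩ := hd.2.1 u.1 v.1 huv
      exact ⟨h1, h2, h3, h4, fun t ht w => h5 t ht w.1⟩
    · intro u v u' v' huv huv' hs t ht t' ht'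
      refine hd.2.2 u.1 v.1 u'.1 v'.1 huv huv' ?_ t ht t' ht'
      intro hh
      apply hs
      rw [Sym2.eq_iff] at hh ⊢
      rcases hh with ⟨h1, h2⟩ | ⟨h1, h2⟩
      · exact Or.inl ⟨Subtype.ext h1, Subtype.ext h2⟩
      · exact Or.inr ⟨Subtype.ext h1, Subtype.ext h2⟩
  have hu : Unlinked H b' := by
    refine unlinked_of_drawing hdH (fun v => v.2) ?_ b' (fun i => hb0 i) (fun i j hij => hbm i j hij)
    intro u v huv t ht
    exact arc_upper hd hm hno huv u.2 v.2 ht
  have hτ : ∀ {u v : V}, G.Adj (τ u) (τ v) → G.Adj u v := by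
    intro u v h
    have := (hm.2 _ _ h).1
    rwa [tau_tau hd hm, tau_tau hd hm] at this
  have hD : IsGlue G H b' H b' := by
    refine ⟨fun v => v.1, fun v => τ v.1, Subtype.val_injective, ?_, ?_, ?_, ?_, ?_⟩
    · intro u v huv
      have huv' : τ u.1 = τ v.1 := huv
      have := congrArg τ huv'
      rw [tau_tau hd hm, tau_tau hd hm] at this
      exact Subtype.ext this
    · intro i
      exact ((tau_fix hd hm _).mpr (hb0 i)).symm
    · intro x y hxy
      have hxy' : x.1 = τ y.1 := hxy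
      have h1 : (f x.1).2 = -(f y.1).2 := by rw [hxy', hm.1]
      have h2 : 0 ≤ (f x.1).2 := x.2
      have h3 : 0 ≤ (f y.1).2 := y.2
      have h4 : (f y.1).2 = 0 := by linarith
      obtain ⟨i, hi⟩ := hbs y.1 h4
      have h5 : x.1 = y.1 := by rw [hxy', (tau_fix hd hm _).mpr h4]
      refine ⟨i, Subtype.ext ?_, Subtype.ext ?_⟩
      · rw [h5, ← hi]
      · rw [← hi]
    · intro w
      by_cases hw : 0 ≤ (f w).2
      · exact Or.inl ⟨⟨w, hw⟩, rfl⟩
      · refine Or.inr ⟨⟨τ w, ?_⟩, tau_tau hd hm w⟩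
        change 0 ≤ (f (τ w)).2
        rw [hm.1]
        simp only
        linarith
    · intro w w'
      constructor
      · intro h
        by_cases hw : 0 ≤ (f w).2
        · by_cases hw' : 0 ≤ (f w').2
          · exact Or.inl ⟨⟨w, hw⟩, ⟨w', hw'⟩, h, rfl, rfl⟩
          · right
            have e0 : (f w).2 = 0 := by
              rcases lt_or_eq_of_le hw with g | g
              · exact absurd (both_upper hd hm hno h g) hw'
              · exact g.symm
            refine ⟨⟨τ w, ?_⟩, ⟨τ w', ?_⟩, (hm.2 _ _ h).1, tau_tau hd hm w, tau_tau hd hm w'⟩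
            · change 0 ≤ (f (τ w)).2
              rw [hm.1]; simp only; linarith
            · change 0 ≤ (f (τ w')).2
              rw [hm.1]; simp only; linarith
        · right
          have e0 : (f w').2 ≤ 0 := by
            by_contra hc
            exact hw (both_upper hd hm hno h.symm (not_le.mp hc))
          refine ⟨⟨τ w, ?_⟩, ⟨τ w', ?_⟩, (hm.2 _ _ h).1, tau_tau hd hm w, tau_tau hd hm w'⟩
          · change 0 ≤ (f (τ w)).2
            rw [hm.1]; simp only; linarith
          · change 0 ≤ (f (τ w')).2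
            rw [hm.1]; simp only; linarith
      · rintro (⟨x, x', hxx, rfl, rfl⟩ | ⟨x, x', hxx, rfl, rfl⟩)
        · exact hxx
        · exact (hm.2 _ _ hxx).1
  exact double_ge hbinj hu hD hp hr hq

end

end Pool.Agent.H413R2.RP
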