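import Pool.Agent.H413R2.RP.Part

set_option autoImplicit false

namespace Pool.Agent.H413R2.RP

variable {n : ℕ}

theorem NC_detS {r : Setoid (Fin n)} (h : NC r) (i : Fin n) : NC (detS r i) := by
  intro a b c d hab hbc hcd h1 h2
  rcases h1 with h1 | ⟨h1, h1', h1''⟩
  · subst h1; exact absurd (hab.trans hbc) (lt_irrefl _)
  · rcases h2 with h2 | ⟨h2, h2', h2''⟩
    · subst h2; exact absurd (hbc.trans hcd) (lt_irrefl _)
    · exact Or.inr ⟨h1, h2, h a b c d hab hbc hcd h1'' h2''⟩

theorem NC_bot : NC (⊥ : Setoid (Fin n)) := by
  intro a b c d hab hbc hcd h1 h2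
  have : a = c := h1
  subst this
  exact absurd (hab.trans hbc) (lt_irrefl _)

/-- crossing principle: if `a<b<c<d`, `a~c`, `b~d` then all four are related. -/
theorem NC.all {r : Setoid (Fin n)} (h : NC r) {a b c d : Fin n} (hab : a < b) (hbc : b < c)
    (hcd : c < d) (h1 : r a c) (h2 : r b d) : r a b ∧ r a d ∧ r b c ∧ r c d := by
  have h3 := h a b c d hab hbc hcd h1 h2
  exact ⟨h3, r.trans h3 h2, r.trans (r.symm h3) h1, r.trans (r.symm h1) (r.trans h3 h2)⟩

theorem NC_joinS {r : Setoid (Fin n)} (h : NC r) {i j : Fin n} (hij : j.val = i.val + 1) :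
    NC (joinS r i j) := by
  intro x y z w hxy hyz hzw h1 h2
  -- key: if x ~ z by r, x not in merged block, c in {i,j}
  have key : ∀ u : Fin n, (r u i ∨ r u j) → ∃ c : Fin n, r u c ∧ (c = i ∨ c = j) := by
    rintro u (hu | hu)
    · exact ⟨i, hu, Or.inl rfl⟩
    · exact ⟨j, hu, Or.inr rfl⟩
  by_cases hx : r x i ∨ r x j
  · -- x in M, so z in M
    have hz : r z i ∨ r z j := by
      rcases h1 with h1 | ⟨_, h1⟩
      · exact hx.imp (fun a => r.trans (r.symm h1) a) (fun a => r.trans (r.symm h1) a)
      · exact h1
    by_cases hy : r y i ∨ r y j
    · exact Or.inr ⟨hx, hy⟩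
    · -- y not in M
      have hyw : r y w := by
        rcases h2 with h2 | ⟨h2, _⟩
        · exact h2
        · exact absurd h2 hy
      exfalso
      have hw : ¬ (r w i ∨ r w j) := fun hh => hy (hh.imp (fun a => r.trans hyw a)
        (fun a => r.trans hyw a))
      obtain ⟨c, hc, hc'⟩ := key x hx
      obtain ⟨d, hd, hd'⟩ := key z hz
      -- c must be outside (y,w), d must be inside (y,w)
      have hcy : c ≠ y := by
        rintro rfl
        apply hy
        rcases hc' with e | e
        · rw [e]; exact Or.inl (r.refl _)
        · rw [e]; exact Or.inr (r.refl _)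
      have hcw : c ≠ w := by
        rintro rfl
        apply hw
        rcases hc' with e | e
        · rw [e]; exact Or.inl (r.refl _)
        · rw [e]; exact Or.inr (r.refl _)
      have hdy : d ≠ y := by
        rintro rfl
        apply hy
        rcases hd' with e | e
        · rw [e]; exact Or.inl (r.refl _)
        · rw [e]; exact Or.inr (r.refl _)
      have hdw : d ≠ w := by
        rintro rfl
        apply hw
        rcases hd' with e | e
        · rw [e]; exact Or.inl (r.refl _)
        · rw [e]; exact Or.inr (r.refl _)
      have f1 : ¬ (y < c ∧ c < w) := by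
        rintro ⟨g1, g2⟩
        have := h x y c w hxy g1 g2 hc hyw
        exact hy (hx.imp (fun a => r.trans (r.symm this) a) (fun a => r.trans (r.symm this) a))
      have f2 : y < d ∧ d < w := by
        by_contra hcon
        rcases lt_or_ge d y with g | g
        · have := h d y z w g hyz hzw (r.symm hd) hyw
          exact hy (hz.imp (fun a => r.trans (r.symm (r.trans hd this)) a)
            (fun a => r.trans (r.symm (r.trans hd this)) a))
        · have g1 : y < d := lt_of_le_of_ne g (Ne.symm hdy)
          have g2 : w < d := by
            rcases lt_trichotomy d w with g3 | g3 | g3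
            · exact absurd ⟨g1, g3⟩ hcon
            · exact absurd g3 hdw
            · exact g3
          have := h y z w d hyz hzw g2 hyw hd
          exact hy (hz.imp (fun a => r.trans this a) (fun a => r.trans this a))
      rcases hc' with e | e <;> rcases hd' with e' | e' <;> subst e <;> subst e' <;>
        simp only [Fin.lt_def, ne_eq, Fin.ext_iff] at * <;> omega
  · -- x not in M
    have hxz : r x z := by
      rcases h1 with h1 | ⟨h1, _⟩
      · exact h1
      · exact absurd h1 hx
    have hz : ¬ (r z i ∨ r z j) := fun hh => hx (hh.imp (fun a => r.trans hxz a)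
        (fun a => r.trans hxz a))
    rcases h2 with h2 | ⟨hy, hw⟩
    · exact Or.inl (h x y z w hxy hyz hzw hxz h2)
    · exfalso
      obtain ⟨c, hc, hc'⟩ := key y hy
      obtain ⟨d, hd, hd'⟩ := key w hw
      have hcx : c ≠ x := by
        rintro rfl
        apply hx
        rcases hc' with e | e
        · rw [e]; exact Or.inl (r.refl _)
        · rw [e]; exact Or.inr (r.refl _)
      have hcz : c ≠ z := by
        rintro rfl
        apply hz
        rcases hc' with e | e
        · rw [e]; exact Or.inl (r.refl _)
        · rw [e]; exact Or.inr (r.refl _)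
      have hdx : d ≠ x := by
        rintro rfl
        apply hx
        rcases hd' with e | e
        · rw [e]; exact Or.inl (r.refl _)
        · rw [e]; exact Or.inr (r.refl _)
      have hdz : d ≠ z := by
        rintro rfl
        apply hz
        rcases hd' with e | e
        · rw [e]; exact Or.inl (r.refl _)
        · rw [e]; exact Or.inr (r.refl _)
      have f1 : x < c ∧ c < z := by
        by_contra hcon
        rcases lt_or_ge c x with g | g
        · have := h c x y z g hxy hyz (r.symm hc) hxz
          -- c ~ x
          exact hx (hy.imp (fun a => r.trans (r.symm this) (r.trans (r.symm hc) a))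
            (fun a => r.trans (r.symm this) (r.trans (r.symm hc) a)))
        · have g1 : x < c := lt_of_le_of_ne g (Ne.symm hcx)
          have g2 : z < c := by
            rcases lt_trichotomy c z with g3 | g3 | g3
            · exact absurd ⟨g1, g3⟩ hcon
            · exact absurd g3 hcz
            · exact g3
          have := h x y z c hxy hyz g2 hxz hc
          exact hx (hy.imp (fun a => r.trans this a) (fun a => r.trans this a))
      have f2 : ¬ (x < d ∧ d < z) := by
        rintro ⟨g1, g2⟩
        have := h x d z w g1 g2 hzw hxz (r.symm hd)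
        exact hx (hw.imp (fun a => r.trans this (r.trans (r.symm hd) a))
            (fun a => r.trans this (r.trans (r.symm hd) a)))
      rcases hc' with e | e <;> rcases hd' with e' | e' <;> subst e <;> subst e' <;>
        simp only [Fin.lt_def, ne_eq, Fin.ext_iff] at * <;> omega

end Pool.Agent.H413R2.RP
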