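import Pool.Agent.H413R2.RP.Nx

set_option autoImplicit false

namespace Pool.Agent.H413R2.RP

variable {n : ℕ}

theorem nx_ne_self {r : Setoid (Fin n)} {i : Fin n} (h : ∃ j, r i j ∧ j ≠ i) : nx r i ≠ i := by
  intro he
  have := nx_spec r i
  rw [he] at this
  obtain ⟨_, ⟨h1, _⟩ | ⟨_, h2⟩⟩ := this
  · exact absurd h1 (lt_irrefl _)
  · obtain ⟨j, hj, hne⟩ := h
    exact hne (le_antisymm (h2 j hj).2 (h2 j hj).1)

theorem det_main {r : Setoid (Fin n)} {i : Fin n} (h : ∃ j, r i j ∧ j ≠ i) {a b : Fin n}
    (ha : IsNx r i a) (hb : IsNx r b i) (hbi : b ≠ i) (hai : a ≠ i) :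
    IsNx (detS r i) b a ∧
      (if b < a then (1 : ℤ) else -1) =
        -1 + (if i < a then (1 : ℤ) else -1) + (if b < i then (1 : ℤ) else -1) := by
  have hba : r b a := r.trans hb.1 ha.1
  obtain ⟨ha1, ha2⟩ := ha
  obtain ⟨hb1, hb2⟩ := hb
  rcases ha2 with ⟨p1, p2⟩ | ⟨p1, p2⟩ <;> rcases hb2 with ⟨q1, q2⟩ | ⟨q1, q2⟩
  · have h3 : b < a := q1.trans p1
    refine ⟨⟨Or.inr ⟨hbi, hai, hba⟩, Or.inl ⟨h3, ?_⟩⟩, by simp [h3, p1, q1]⟩
    rintro k hk1 hk2 (rfl | ⟨_, hk3, hk4⟩)
    · exact lt_irrefl _ hk1
    · rcases lt_trichotomy k i with g | g | g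
      · exact q2 k hk1 g hk4
      · exact hk3 g
      · exact p2 k g hk2 (r.trans (r.symm hb1) hk4)
  · have h3 : i < b := lt_of_le_of_ne q1 (Ne.symm hbi)
    have h4 : a ≤ b := (q2 a hba).2
    refine ⟨⟨Or.inr ⟨hbi, hai, hba⟩, Or.inr ⟨h4, ?_⟩⟩, ?_⟩
    · rintro k (rfl | ⟨_, hk3, hk4⟩)
      · exact ⟨h4, le_rfl⟩
      · refine ⟨?_, (q2 k hk4).2⟩
        by_contra hc
        have g1 : i < k := lt_of_le_of_ne (q2 k hk4).1 (Ne.symm hk3)
        exact p2 k g1 (not_le.mp hc) (r.trans (r.symm hb1) hk4)
    · rw [if_neg (not_lt.mpr h4), if_pos p1, if_neg (not_lt.mpr q1)]; norm_num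
  · have h3 : a < i := lt_of_le_of_ne p1 hai
    have h4 : a ≤ b := (p2 b (r.symm hb1)).1
    refine ⟨⟨Or.inr ⟨hbi, hai, hba⟩, Or.inr ⟨h4, ?_⟩⟩, ?_⟩
    · rintro k (rfl | ⟨_, hk3, hk4⟩)
      · exact ⟨h4, le_rfl⟩
      · have g2 := p2 k (r.trans (r.symm hb1) hk4)
        refine ⟨g2.1, ?_⟩
        by_contra hc
        exact q2 k (not_le.mp hc) (lt_of_le_of_ne g2.2 hk3) hk4
    · rw [if_neg (not_lt.mpr h4), if_neg (not_lt.mpr p1), if_pos q1]; norm_num
  · exfalso
    obtain ⟨j, hj, hne⟩ := h
    have g1 := (p2 j hj).2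
    have g2 := (q2 j (r.trans hb1 hj)).1
    exact hne (le_antisymm g1 g2)

theorem det_other {r : Setoid (Fin n)} {i k c : Fin n} (hk : k ≠ i) (hc : c ≠ i)
    (hkc : IsNx r k c) : IsNx (detS r i) k c := by
  obtain ⟨h1, h2⟩ := hkc
  refine ⟨Or.inr ⟨hk, hc, h1⟩, ?_⟩
  rcases h2 with ⟨h2, h3⟩ | ⟨h2, h3⟩
  · refine Or.inl ⟨h2, ?_⟩
    rintro l hl1 hl2 (rfl | ⟨_, _, hl4⟩)
    · exact lt_irrefl _ hl1
    · exact h3 l hl1 hl2 hl4
  · refine Or.inr ⟨h2, ?_⟩
    rintro l (rfl | ⟨_, _, hl4⟩)
    · exact ⟨h2, le_rfl⟩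
    · exact h3 l hl4

theorem isNx_det_self (r : Setoid (Fin n)) (i : Fin n) : IsNx (detS r i) i i := by
  refine ⟨Or.inl rfl, Or.inr ⟨le_rfl, ?_⟩⟩
  rintro k (rfl | ⟨h, _, _⟩)
  · exact ⟨le_rfl, le_rfl⟩
  · exact absurd rfl h

theorem nx_symm_spec (r : Setoid (Fin n)) (i : Fin n) : IsNx r ((nx r).symm i) i := by
  have := nx_spec r ((nx r).symm i)
  rwa [Equiv.apply_symm_apply] at this

theorem nx_detS {r : Setoid (Fin n)} {i : Fin n} (h : ∃ j, r i j ∧ j ≠ i) :
    nx (detS r i) = nx r * Equiv.swap i ((nx r).symm i) ∧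
    ex (detS r i) = Function.update (Function.update (ex r) i (-1)) ((nx r).symm i)
      (-1 + ex r i + ex r ((nx r).symm i)) := by
  set b := (nx r).symm i with hbdef
  have hb : IsNx r b i := nx_symm_spec r i
  have hb' : nx r b = i := by rw [hbdef, Equiv.apply_symm_apply]
  have ha : IsNx r i (nx r i) := nx_spec r i
  have hai : nx r i ≠ i := nx_ne_self h
  have hbi : b ≠ i := by
    intro he
    rw [he] at hb'
    exact hai hb'
  obtain ⟨m1, m2⟩ := det_main h ha hb hbi hai
  have e1 : nx (detS r i) i = i := nx_eq (isNx_det_self r i)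
  have e2 : nx (detS r i) b = nx r i := nx_eq m1
  have e3 : ∀ k, k ≠ i → k ≠ b → nx (detS r i) k = nx r k := by
    intro k hk hkb
    refine nx_eq (det_other hk ?_ (nx_spec r k))
    intro hc
    exact hkb (by rw [hbdef, ← hc, Equiv.symm_apply_apply])
  constructor
  · ext1 k
    rw [Equiv.Perm.mul_apply]
    by_cases hk : k = i
    · subst hk
      rw [Equiv.swap_apply_left, e1, hb']
    · by_cases hkb : k = b
      · rw [hkb, Equiv.swap_apply_right, e2]
      · rw [Equiv.swap_apply_of_ne_of_ne hk hkb, e3 k hk hkb]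
  · funext k
    by_cases hkb : k = b
    · rw [hkb, Function.update_self]
      unfold ex
      rw [e2, hb']
      exact m2
    · rw [Function.update_of_ne hkb]
      by_cases hk : k = i
      · subst hk
        rw [Function.update_self]
        unfold ex
        rw [e1, if_neg (lt_irrefl _)]
      · rw [Function.update_of_ne hk]
        unfold ex
        rw [e3 k hk hkb]

theorem join_main {r : Setoid (Fin n)} (h : NC r) {i j : Fin n} (hij : j.val = i.val + 1)
    (hnr : ¬ r i j) {a b : Fin n} (ha : IsNx r i a) (hb : IsNx r b j) :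
    IsNx (joinS r i j) b a ∧
      (if b < a then (1 : ℤ) else -1) =
        1 + (if i < a then (1 : ℤ) else -1) + (if b < j then (1 : ℤ) else -1) := by
  obtain ⟨ha1, ha2⟩ := ha
  obtain ⟨hb1, hb2⟩ := hb
  have hlt : i < j := by rw [Fin.lt_def]; omega
  have hbetween : ∀ k : Fin n, i < k → k < j → False := by
    intro k h1 h2
    rw [Fin.lt_def] at h1 h2; omega
  have hai : ¬ r a j := fun hh => hnr (r.trans ha1 hh)
  have hbi : ¬ r b i := fun hh => hnr (r.trans (r.symm hh) hb1)
  have hja : a ≠ j := fun e => hai (by rw [e])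
  have hib : b ≠ i := fun e => hbi (by rw [e])
  have hab : a ≠ b := fun e => hai (by rw [e]; exact hb1)
  have hrel : joinS r i j b a := Or.inr ⟨Or.inr hb1, Or.inl (r.symm ha1)⟩
  rcases ha2 with ⟨p1, p2⟩ | ⟨p1, p2⟩ <;> rcases hb2 with ⟨q1, q2⟩ | ⟨q1, q2⟩
  · exfalso
    -- b < i < j < a
    have h1 : b < i := by
      rcases lt_trichotomy b i with g | g | g
      · exact g
      · exact absurd g hib
      · exact absurd q1 (fun g' => hbetween b g g')
    have h2 : j < a := by
      rcases lt_trichotomy j a with g | g | g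
      · exact g
      · exact absurd g.symm hja
      · exact absurd g (fun g' => hbetween a p1 g')
    exact hbi (h b i j a h1 hlt h2 hb1 ha1)
  · -- i < a, j ≤ b (j min, b max of its block)
    have h2 : j < a := by
      rcases lt_trichotomy j a with g | g | g
      · exact g
      · exact absurd g.symm hja
      · exact absurd g (fun g' => hbetween a p1 g')
    have h3 : b < a := by
      by_contra hc
      have h4 : a < b := lt_of_le_of_ne (not_lt.mp hc) hab
      exact hnr (h i j a b hlt h2 h4 ha1 (r.symm hb1))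
    refine ⟨⟨hrel, Or.inl ⟨h3, ?_⟩⟩, ?_⟩
    · intro k hk1 hk2 hk3
      have hik : i < k := lt_of_lt_of_le hlt (le_trans q1 hk1.le)
      have : r k i ∨ r k j := by
        rcases hk3 with hk3 | ⟨_, hk3⟩
        · exact Or.inr (r.trans (r.symm hk3) hb1)
        · exact hk3
      rcases this with g | g
      · exact p2 k hik hk2 (r.symm g)
      · exact absurd (q2 k (r.trans hb1 (r.symm g))).2 (not_le.mpr hk1)
    · rw [if_pos h3, if_pos p1, if_neg (not_lt.mpr q1)]; norm_num
  · -- a ≤ i (a min, i max), b < j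
    have h1 : b < i := by
      rcases lt_trichotomy b i with g | g | g
      · exact g
      · exact absurd g hib
      · exact absurd q1 (fun g' => hbetween b g g')
    have h3 : b < a := by
      by_contra hc
      have h4 : a < b := lt_of_le_of_ne (not_lt.mp hc) hab
      exact hai (r.trans (h a b i j h4 h1 hlt (r.symm ha1) hb1) hb1)
    refine ⟨⟨hrel, Or.inl ⟨h3, ?_⟩⟩, ?_⟩
    · intro k hk1 hk2 hk3
      have hkj : k < j := lt_of_lt_of_le hk2 (le_trans p1 hlt.le)
      have : r k i ∨ r k j := by
        rcases hk3 with hk3 | ⟨_, hk3⟩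
        · exact Or.inr (r.trans (r.symm hk3) hb1)
        · exact hk3
      rcases this with g | g
      · exact absurd (p2 k (r.symm g)).1 (not_le.mpr hk2)
      · exact q2 k hk1 hkj (r.trans hb1 (r.symm g))
    · rw [if_pos h3, if_neg (not_lt.mpr p1), if_pos q1]; norm_num
  · -- a ≤ i, j ≤ b
    have h3 : a ≤ b := le_trans p1 (le_trans hlt.le q1)
    refine ⟨⟨hrel, Or.inr ⟨h3, ?_⟩⟩, ?_⟩
    · intro k hk3
      have : r k i ∨ r k j := by
        rcases hk3 with hk3 | ⟨_, hk3⟩
        · exact Or.inr (r.trans (r.symm hk3) hb1)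
        · exact hk3
      rcases this with g | g
      · have := p2 k (r.symm g)
        exact ⟨this.1, le_trans this.2 (le_trans hlt.le q1)⟩
      · have := q2 k (r.trans hb1 (r.symm g))
        exact ⟨le_trans p1 (le_trans hlt.le this.1), this.2⟩
    · rw [if_neg (not_lt.mpr h3), if_neg (not_lt.mpr p1), if_neg (not_lt.mpr q1)]; norm_num

theorem isNx_join_self {r : Setoid (Fin n)} {i j : Fin n} (hij : j.val = i.val + 1) :
    IsNx (joinS r i j) i j := by
  refine ⟨Or.inr ⟨Or.inl (r.refl i), Or.inr (r.refl j)⟩, Or.inl ⟨by rw [Fin.lt_def]; omega, ?_⟩⟩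
  intro k h1 h2
  rw [Fin.lt_def] at h1 h2; omega

theorem join_other {r : Setoid (Fin n)} (h : NC r) {i j : Fin n} (hij : j.val = i.val + 1)
    (hnr : ¬ r i j) {k c : Fin n} (hk : k ≠ i) (hc : c ≠ j) (hkc : IsNx r k c) :
    IsNx (joinS r i j) k c := by
  obtain ⟨h1, h2⟩ := hkc
  have hlt : i < j := by rw [Fin.lt_def]; omega
  have hbetween : ∀ k : Fin n, i < k → k < j → False := by
    intro k h1 h2
    rw [Fin.lt_def] at h1 h2; omega
  refine ⟨Or.inl h1, ?_⟩
  by_cases hki : r k i
  · -- k in the block B of i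
    have hci : r c i := r.trans (r.symm h1) hki
    have hkj : k ≠ j := fun e => hnr (r.symm (e ▸ hki))
    rcases h2 with ⟨h2, h3⟩ | ⟨h2, h3⟩
    · refine Or.inl ⟨h2, ?_⟩
      intro l hl1 hl2 hl3
      rcases hl3 with hl3 | ⟨_, hl3 | hl3⟩
      · exact h3 l hl1 hl2 hl3
      · exact h3 l hl1 hl2 (r.trans hki (r.symm hl3))
      · -- l ~ j, k < l < c, k,c ∈ B
        rcases lt_trichotomy i k with g | g | g
        · have g1 : j < k := by
            rcases lt_trichotomy j k with g' | g' | g'
            · exact g'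
            · exact absurd g'.symm hkj
            · exact absurd g' (fun g'' => hbetween k g g'')
          exact hnr (h i j k l hlt g1 hl1 (r.symm hki) (r.symm hl3))
        · exact hk g.symm
        · rcases lt_or_ge i c with g1 | g1
          · exact h3 i g g1 hki
          · have g2 : l < j := lt_of_lt_of_le hl2 (le_trans g1 hlt.le)
            rcases lt_or_eq_of_le g1 with g3 | g3
            · have := h k l c j hl1 hl2 (lt_of_le_of_lt g1 hlt) h1 hl3
              exact hnr (r.trans (r.symm hki) (r.trans this hl3))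
            · -- c = i
              have := h k l c j hl1 hl2 (g3 ▸ hlt) h1 hl3
              exact hnr (r.trans (r.symm hki) (r.trans this hl3))
    · refine Or.inr ⟨h2, ?_⟩
      intro l hl3
      have hik : i < k := lt_of_le_of_ne (h3 i hki).2 (Ne.symm hk)
      have hci2 : c ≤ i := (h3 i hki).1
      have g1 : j < k := by
        rcases lt_trichotomy j k with g' | g' | g'
        · exact g'
        · exact absurd g'.symm hkj
        · exact absurd g' (fun g'' => hbetween k hik g'')
      rcases hl3 with hl3 | ⟨_, hl3 | hl3⟩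
      · exact h3 l hl3
      · exact h3 l (r.trans hki (r.symm hl3))
      · constructor
        · by_contra hcon
          have g2 : l < c := not_le.mp hcon
          -- l < c ≤ i < j < k
          have g3 : l < i := lt_of_lt_of_le g2 hci2
          have := h l i j k g3 hlt g1 hl3 (r.symm hki)
          exact hnr (r.trans (r.symm this) hl3)
        · by_contra hcon
          have g2 : k < l := not_le.mp hcon
          exact hnr (h i j k l hlt g1 g2 (r.symm hki) (r.symm hl3))
  · by_cases hkj : r k j
    · -- k in the block B' of j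
      have hcj : r c j := r.trans (r.symm h1) hkj
      have hci : c ≠ i := fun e => hnr (e ▸ hcj)
      rcases h2 with ⟨h2, h3⟩ | ⟨h2, h3⟩
      · refine Or.inl ⟨h2, ?_⟩
        intro l hl1 hl2 hl3
        rcases hl3 with hl3 | ⟨_, hl3 | hl3⟩
        · exact h3 l hl1 hl2 hl3
        · -- l ~ i, k < l < c ∈ B'
          rcases lt_or_ge k j with g | g
          · -- k < j, then c ≤ j so c < j
            have g1 : c < j := by
              rcases lt_trichotomy c j with g' | g' | g'
              · exact g'
              · exact absurd g' hc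
              · exact absurd hkj (h3 j g g')
            have g2 : c < i := by
              rcases lt_trichotomy c i with g' | g' | g'
              · exact g'
              · exact absurd g' hci
              · exact absurd g1 (fun g'' => hbetween c g' g'')
            have := h k l c i hl1 hl2 g2 h1 hl3
            exact hki (r.trans this hl3)
          · have g1 : i < k := lt_of_lt_of_le hlt g
            have := h i k l c g1 hl1 hl2 (r.symm hl3) h1
            exact hki (r.symm this)
        · exact h3 l hl1 hl2 (r.trans hkj (r.symm hl3))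
      · refine Or.inr ⟨h2, ?_⟩
        intro l hl3
        have hjk := h3 j hkj
        have g1 : c < i := by
          rcases lt_trichotomy c i with g' | g' | g'
          · exact g'
          · exact absurd g' hci
          · exact absurd (lt_of_le_of_ne hjk.1 hc) (fun g'' => hbetween c g' g'')
        rcases hl3 with hl3 | ⟨_, hl3 | hl3⟩
        · exact h3 l hl3
        · constructor
          · by_contra hcon
            have g2 : l < c := not_le.mp hcon
            -- l < c < i < j : l~i, c~j
            have := h l c i j g2 g1 hlt hl3 hcj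
            exact hnr (r.trans (r.symm hl3) (r.trans this hcj))
          · by_contra hcon
            have g2 : k < l := not_le.mp hcon
            -- c < i < j ≤ k < l
            have g3 : i < k := lt_of_lt_of_le hlt hjk.2
            have := h c i k l g1 g3 g2 (r.symm h1) (r.symm hl3)
            exact hki (r.trans h1 this)
        · exact h3 l (r.trans hkj (r.symm hl3))
    · -- k in another block
      have hno : ∀ l, joinS r i j k l → r k l := by
        rintro l (hl | ⟨hl | hl, _⟩)
        · exact hl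
        · exact absurd hl hki
        · exact absurd hl hkj
      rcases h2 with ⟨h2, h3⟩ | ⟨h2, h3⟩
      · exact Or.inl ⟨h2, fun l hl1 hl2 hl3 => h3 l hl1 hl2 (hno l hl3)⟩
      · exact Or.inr ⟨h2, fun l hl3 => h3 l (hno l hl3)⟩

theorem nx_joinS {r : Setoid (Fin n)} (h : NC r) {i j : Fin n} (hij : j.val = i.val + 1)
    (hnr : ¬ r i j) :
    nx (joinS r i j) = nx r * Equiv.swap i ((nx r).symm j) ∧
    ex (joinS r i j) = Function.update (Function.update (ex r) i 1) ((nx r).symm j)
      (1 + ex r i + ex r ((nx r).symm j)) := by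
  set b := (nx r).symm j with hbdef
  have hb : IsNx r b j := nx_symm_spec r j
  have hb' : nx r b = j := by rw [hbdef, Equiv.apply_symm_apply]
  have ha : IsNx r i (nx r i) := nx_spec r i
  have hbi : b ≠ i := by
    intro he
    apply hnr
    rw [← he]
    exact hb.1
  obtain ⟨m1, m2⟩ := join_main h hij hnr ha hb
  have e1 : nx (joinS r i j) i = j := nx_eq (isNx_join_self hij)
  have e2 : nx (joinS r i j) b = nx r i := nx_eq m1
  have e3 : ∀ k, k ≠ i → k ≠ b → nx (joinS r i j) k = nx r k := by
    intro k hk hkb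
    refine nx_eq (join_other h hij hnr hk ?_ (nx_spec r k))
    intro hc
    exact hkb (by rw [hbdef, ← hc, Equiv.symm_apply_apply])
  have hlt : i < j := by rw [Fin.lt_def]; omega
  constructor
  · ext1 k
    rw [Equiv.Perm.mul_apply]
    by_cases hk : k = i
    · subst hk
      rw [Equiv.swap_apply_left, e1, hb']
    · by_cases hkb : k = b
      · rw [hkb, Equiv.swap_apply_right, e2]
      · rw [Equiv.swap_apply_of_ne_of_ne hk hkb, e3 k hk hkb]
  · funext k
    by_cases hkb : k = b
    · rw [hkb, Function.update_self]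
      unfold ex
      rw [e2, hb']
      exact m2
    · rw [Function.update_of_ne hkb]
      by_cases hk : k = i
      · subst hk
        rw [Function.update_self]
        unfold ex
        rw [e1, if_pos hlt]
      · rw [Function.update_of_ne hk]
        unfold ex
        rw [e3 k hk hkb]

end Pool.Agent.H413R2.RP
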