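import Mathlib

/-!
# Noncrossing set partitions of `Fin n`: basics
-/

set_option autoImplicit false

namespace Pool.Agent.H413R2.RP

variable {n : ℕ}

/-- A set partition of `Fin n` (given as an equivalence relation) is noncrossing. -/
def NC (r : Setoid (Fin n)) : Prop :=
  ∀ i j k l : Fin n, i < j → j < k → k < l → r i k → r j l → r i j

/-- `j` is the cyclic successor of `i` in its block. -/
def IsNx (r : Setoid (Fin n)) (i j : Fin n) : Prop :=
  r i j ∧ ((i < j ∧ ∀ k, i < k → k < j → ¬ r i k) ∨ (j ≤ i ∧ ∀ k, r i k → j ≤ k ∧ k ≤ i))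

theorem exists_isNx (r : Setoid (Fin n)) (i : Fin n) : ∃ j, IsNx r i j := by
  classical
  by_cases h : ∃ k, i < k ∧ r i k
  · obtain ⟨k, hk⟩ := h
    let S : Finset (Fin n) := Finset.univ.filter (fun k => i < k ∧ r i k)
    have hS : S.Nonempty := ⟨k, by simp [S, hk.1, hk.2]⟩
    have hm := Finset.min'_mem S hS
    simp only [S, Finset.mem_filter, Finset.mem_univ, true_and] at hm
    refine ⟨S.min' hS, hm.2, Or.inl ⟨hm.1, ?_⟩⟩
    intro l hl1 hl2 hl3
    have : S.min' hS ≤ l := Finset.min'_le _ _ (by simp [S, hl1, hl3])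
    exact absurd hl2 (not_lt.mpr this)
  · push Not at h
    let S : Finset (Fin n) := Finset.univ.filter (fun k => r i k)
    have hS : S.Nonempty := ⟨i, by simp [S]⟩
    have hm := Finset.min'_mem S hS
    simp only [S, Finset.mem_filter, Finset.mem_univ, true_and] at hm
    refine ⟨S.min' hS, hm, Or.inr ⟨Finset.min'_le _ _ (by simp [S]), ?_⟩⟩
    intro l hl
    refine ⟨Finset.min'_le _ _ (by simp [S, hl]), ?_⟩
    by_contra hc
    exact h l (not_le.mp hc) hl

theorem IsNx.unique {r : Setoid (Fin n)} {i j k : Fin n} (h1 : IsNx r i j) (h2 : IsNx r i k) :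
    j = k := by
  obtain ⟨a1, b1⟩ := h1
  obtain ⟨a2, b2⟩ := h2
  rcases b1 with ⟨c1, d1⟩ | ⟨c1, d1⟩ <;> rcases b2 with ⟨c2, d2⟩ | ⟨c2, d2⟩
  · rcases lt_trichotomy j k with h | h | h
    · exact absurd a1 (d2 j c1 h)
    · exact h
    · exact absurd a2 (d1 k c2 h)
  · exact absurd (d2 j a1).2 (not_le.mpr c1)
  · exact absurd (d1 k a2).2 (not_le.mpr c2)
  · exact le_antisymm (d1 k a2).1 (d2 j a1).1

theorem IsNx.inj {r : Setoid (Fin n)} {i j k : Fin n} (h1 : IsNx r i k) (h2 : IsNx r j k) :
    i = j := by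
  obtain ⟨a1, b1⟩ := h1
  obtain ⟨a2, b2⟩ := h2
  have hij : r i j := r.trans a1 (r.symm a2)
  rcases b1 with ⟨c1, d1⟩ | ⟨c1, d1⟩ <;> rcases b2 with ⟨c2, d2⟩ | ⟨c2, d2⟩
  · rcases lt_trichotomy i j with h | h | h
    · exact absurd hij (d1 j h c2)
    · exact h
    · exact absurd (r.symm hij) (d2 i h c1)
  · exact absurd (d2 i (r.symm hij)).1 (not_le.mpr c1)
  · exact absurd (d1 j hij).1 (not_le.mpr c2)
  · exact le_antisymm (d2 i (r.symm hij)).2 (d1 j hij).2

/-- The cyclic successor, as a function. -/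
noncomputable def nxf (r : Setoid (Fin n)) (i : Fin n) : Fin n := (exists_isNx r i).choose

theorem nxf_spec (r : Setoid (Fin n)) (i : Fin n) : IsNx r i (nxf r i) :=
  (exists_isNx r i).choose_spec

/-- The cyclic successor, as a permutation. -/
noncomputable def nx (r : Setoid (Fin n)) : Equiv.Perm (Fin n) :=
  Equiv.ofBijective (nxf r) (Finite.injective_iff_bijective.mp (by
    intro i j h
    have h1 := nxf_spec r i
    have h2 := nxf_spec r j
    rw [← h] at h2
    exact h1.inj h2))

theorem nx_spec (r : Setoid (Fin n)) (i : Fin n) : IsNx r i (nx r i) := nxf_spec r i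

theorem nx_eq {r : Setoid (Fin n)} {i j : Fin n} (h : IsNx r i j) : nx r i = j :=
  (nx_spec r i).unique h

/-- The sign exponent: `1` at `i` if the successor of `i` is larger, else `-1`. -/
noncomputable def ex (r : Setoid (Fin n)) (i : Fin n) : ℤ := if i < nx r i then 1 else -1

/-- Join the blocks of `i` and `j`. -/
def joinS (r : Setoid (Fin n)) (i j : Fin n) : Setoid (Fin n) where
  r x y := r x y ∨ ((r x i ∨ r x j) ∧ (r y i ∨ r y j))
  iseqv := by
    refine ⟨fun x => Or.inl (r.refl x), ?_, ?_⟩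
    · rintro x y (h | ⟨h1, h2⟩)
      · exact Or.inl (r.symm h)
      · exact Or.inr ⟨h2, h1⟩
    · rintro x y z (h | ⟨h1, h2⟩) (h' | ⟨h1', h2'⟩)
      · exact Or.inl (r.trans h h')
      · exact Or.inr ⟨h1'.imp (fun a => r.trans h a) (fun a => r.trans h a), h2'⟩
      · exact Or.inr ⟨h1, h2.imp (fun a => r.trans (r.symm h') a) (fun a => r.trans (r.symm h') a)⟩
      · exact Or.inr ⟨h1, h2'⟩

/-- Detach `i` from its block. -/
def detS (r : Setoid (Fin n)) (i : Fin n) : Setoid (Fin n) where
  r x y := x = y ∨ (x ≠ i ∧ y ≠ i ∧ r x y)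
  iseqv := by
    refine ⟨fun x => Or.inl rfl, ?_, ?_⟩
    · rintro x y (h | ⟨h1, h2, h3⟩)
      · exact Or.inl h.symm
      · exact Or.inr ⟨h2, h1, r.symm h3⟩
    · rintro x y z (rfl | ⟨h1, h2, h3⟩) (rfl | ⟨h1', h2', h3'⟩)
      · exact Or.inl rfl
      · exact Or.inr ⟨h1', h2', h3'⟩
      · exact Or.inr ⟨h1, h2, h3⟩
      · exact Or.inr ⟨h1, h2', r.trans h3 h3'⟩

theorem joinS_iff (r : Setoid (Fin n)) (i j x y : Fin n) :
    joinS r i j x y ↔ r x y ∨ ((r x i ∨ r x j) ∧ (r y i ∨ r y j)) := Iff.rfl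

theorem detS_iff (r : Setoid (Fin n)) (i x y : Fin n) :
    detS r i x y ↔ x = y ∨ (x ≠ i ∧ y ≠ i ∧ r x y) := Iff.rfl

theorem joinS_le_iff (r t : Setoid (Fin n)) (i j : Fin n) :
    joinS r i j ≤ t ↔ r ≤ t ∧ t i j := by
  constructor
  · intro h
    refine ⟨fun x y hxy => h (Or.inl hxy), h (Or.inr ⟨Or.inl (r.refl i), Or.inr (r.refl j)⟩)⟩
  · rintro ⟨h1, h2⟩ x y hxy
    rcases hxy with h | ⟨hx, hy⟩
    · exact h1 h
    · have e1 : t x i := by
        rcases hx with h | h
        · exact h1 h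
        · exact t.trans (h1 h) (t.symm h2)
      have e2 : t y i := by
        rcases hy with h | h
        · exact h1 h
        · exact t.trans (h1 h) (t.symm h2)
      exact t.trans e1 (t.symm e2)

theorem joinS_sup (r t : Setoid (Fin n)) (i j : Fin n) :
    joinS r i j ⊔ t = r ⊔ joinS t i j := by
  apply le_antisymm
  · refine sup_le ((joinS_le_iff _ _ _ _).mpr ⟨le_sup_left, ?_⟩) ?_
    · exact (le_sup_right : joinS t i j ≤ _) (Or.inr ⟨Or.inl (t.refl i), Or.inr (t.refl j)⟩)
    · exact le_trans ((joinS_le_iff t _ i j).mp le_rfl).1 le_sup_right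
  · refine sup_le ?_ ((joinS_le_iff _ _ _ _).mpr ⟨le_sup_right, ?_⟩)
    · exact le_trans ((joinS_le_iff r _ i j).mp le_rfl).1 le_sup_left
    · exact (le_sup_left : joinS r i j ≤ _) (Or.inr ⟨Or.inl (r.refl i), Or.inr (r.refl j)⟩)

theorem joinS_sup' (r t : Setoid (Fin n)) (i j : Fin n) :
    r ⊔ joinS t i j = joinS (r ⊔ t) i j := by
  apply le_antisymm
  · refine sup_le ?_ ((joinS_le_iff _ _ _ _).mpr ⟨?_, ?_⟩)
    · exact le_trans le_sup_left ((joinS_le_iff (r ⊔ t) _ i j).mp le_rfl).1
    · exact le_trans le_sup_right ((joinS_le_iff (r ⊔ t) _ i j).mp le_rfl).1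
    · exact ((joinS_le_iff (r ⊔ t) _ i j).mp le_rfl).2
  · refine (joinS_le_iff _ _ _ _).mpr ⟨sup_le le_sup_left
      (le_trans ((joinS_le_iff t _ i j).mp le_rfl).1 le_sup_right), ?_⟩
    exact (le_sup_right : joinS t i j ≤ _) ((joinS_le_iff t _ i j).mp le_rfl).2

theorem joinS_of_rel {r : Setoid (Fin n)} {i j : Fin n} (h : r i j) : joinS r i j = r := by
  apply le_antisymm
  · exact (joinS_le_iff _ _ _ _).mpr ⟨le_rfl, h⟩
  · exact ((joinS_le_iff r _ i j).mp le_rfl).1

theorem detS_of_single {r : Setoid (Fin n)} {i : Fin n} (h : ∀ j, r i j → j = i) :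
    detS r i = r := by
  ext x y
  rw [detS_iff]
  constructor
  · rintro (rfl | ⟨_, _, h⟩)
    · exact r.refl x
    · exact h
  · intro hxy
    by_cases hx : x = i
    · subst hx; exact Or.inl (h y hxy).symm
    · by_cases hy : y = i
      · subst hy; exact Or.inl (h x (r.symm hxy))
      · exact Or.inr ⟨hx, hy, hxy⟩

theorem joinS_detS {r : Setoid (Fin n)} {i j : Fin n} (hij : r i j) (hne : j ≠ i) :
    joinS (detS r i) i j = r := by
  apply le_antisymm
  · refine (joinS_le_iff _ _ _ _).mpr ⟨?_, hij⟩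
    rintro x y (rfl | ⟨_, _, h⟩)
    · exact r.refl x
    · exact h
  · intro x y hxy
    by_cases hx : x = i
    · subst hx
      by_cases hy : y = x
      · subst hy; exact Or.inl (Or.inl rfl)
      · refine Or.inr ⟨Or.inl (Or.inl rfl), Or.inr (Or.inr ⟨hy, hne, r.trans (r.symm hxy) hij⟩)⟩
    · by_cases hy : y = i
      · subst hy
        refine Or.inr ⟨Or.inr (Or.inr ⟨hx, hne, r.trans hxy hij⟩), Or.inl (Or.inl rfl)⟩
      · exact Or.inl (Or.inr ⟨hx, hy, hxy⟩)

/-- The number of blocks. -/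
noncomputable def cl (r : Setoid (Fin n)) : ℕ := Nat.card (Quotient r)

theorem cl_joinS {r : Setoid (Fin n)} {i j : Fin n} (h : ¬ r i j) :
    cl (joinS r i j) + 1 = cl r := by
  classical
  have hfin : Finite (Quotient r) := inferInstance
  let f : {c : Quotient r // c ≠ (Quotient.mk r i)} → Quotient (joinS r i j) :=
    fun c => Quotient.map' (s₁ := r) (s₂ := joinS r i j) id (fun x y hxy => Or.inl hxy) c.1
  have hf : Function.Bijective f := by
    constructor
    · rintro ⟨c, hc⟩ ⟨d, hd⟩ hcd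
      induction c using Quotient.inductionOn with | _ x => ?_
      induction d using Quotient.inductionOn with | _ y => ?_
      apply Subtype.ext
      have h1 : ¬ r x i := fun hh => hc (Quotient.sound hh)
      have h2 : ¬ r y i := fun hh => hd (Quotient.sound hh)
      have h3 : joinS r i j x y := Quotient.exact hcd
      apply Quotient.sound
      rcases h3 with h3 | ⟨h3 | h3, h4 | h4⟩
      · exact h3
      · exact absurd h3 h1
      · exact absurd h3 h1
      · exact absurd h4 h2
      · exact r.trans h3 (r.symm h4)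
    · intro c
      induction c using Quotient.inductionOn with | _ x => ?_
      by_cases hx : r x i
      · refine ⟨⟨Quotient.mk r j, fun hh => h (r.symm (Quotient.exact hh))⟩, ?_⟩
        apply Quotient.sound
        exact Or.inr ⟨Or.inr (r.refl j), Or.inl hx⟩
      · refine ⟨⟨Quotient.mk r x, fun hh => hx (Quotient.exact hh)⟩, rfl⟩
  unfold cl
  rw [← Nat.card_congr (Equiv.ofBijective f hf)]
  have : Fintype (Quotient r) := Fintype.ofFinite _
  rw [Nat.card_eq_fintype_card, Nat.card_eq_fintype_card, Fintype.card_subtype_compl]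
  simp only [Fintype.card_unique]
  have : 0 < Fintype.card (Quotient r) := Fintype.card_pos_iff.mpr ⟨Quotient.mk r i⟩
  omega

theorem cl_detS {r : Setoid (Fin n)} {i j : Fin n} (hij : r i j) (hne : j ≠ i) :
    cl (detS r i) = cl r + 1 := by
  have h1 := cl_joinS (r := detS r i) (i := i) (j := j) (by
    rintro (h | ⟨h, _⟩)
    · exact hne h.symm
    · exact h rfl)
  rw [joinS_detS hij hne] at h1
  exact h1.symm

theorem det_sup_single (r t : Setoid (Fin n)) (i j : Fin n) (h : (detS r i ⊔ detS t i) i j) :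
    j = i := by
  let s : Setoid (Fin n) := Setoid.comap (fun x => decide (x = i)) ⊥
  have h1 : detS r i ≤ s := by
    rintro x y (rfl | ⟨a, b, _⟩)
    · exact s.refl _
    · change decide (x = i) = decide (y = i)
      simp [a, b]
  have h2 : detS t i ≤ s := by
    rintro x y (rfl | ⟨a, b, _⟩)
    · exact s.refl _
    · change decide (x = i) = decide (y = i)
      simp [a, b]
  have h3 : s i j := (sup_le h1 h2) h
  change decide (i = i) = decide (j = i) at h3
  simpa using h3.symm

open Classical in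
/-- `1` if `i` is a singleton block, else `0`. -/
noncomputable def sg (r : Setoid (Fin n)) (i : Fin n) : ℕ := if ∀ j, r i j → j = i then 1 else 0

theorem cl_det_sup_left (r t : Setoid (Fin n)) (i : Fin n) :
    cl (detS r i ⊔ t) + 1 = cl (detS r i ⊔ detS t i) + sg t i := by
  classical
  unfold sg
  split_ifs with h
  · rw [detS_of_single h]
  · push Not at h
    obtain ⟨j, hj, hne⟩ := h
    rw [add_zero]
    have e : detS r i ⊔ t = joinS (detS r i ⊔ detS t i) i j := by
      rw [← joinS_sup', joinS_detS hj hne]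
    rw [e]
    exact cl_joinS (fun hh => hne (det_sup_single r t i j hh))

theorem cl_det_swap (r t : Setoid (Fin n)) (i : Fin n) :
    cl (detS r i ⊔ t) + sg r i = cl (r ⊔ detS t i) + sg t i := by
  have h1 := cl_det_sup_left r t i
  have h2 := cl_det_sup_left t r i
  rw [sup_comm (detS t i) r, sup_comm (detS t i) (detS r i)] at h2
  omega

end Pool.Agent.H413R2.RP
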