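import Pool.Agent.H413R2.RP.Grid2

set_option autoImplicit false

namespace Pool.Agent.H413R2.RP

open Set

/-- Directed description of the edges of the layered graph: `x = (i, c)` is the vertex number `i` of
row `c`. Rows of even number carry the horizontal edges `{i, i+1}` with `h 0 i`, rows of odd number
those with `h 1 i`; the vertex `e` of an even row is joined to the vertex `o` of a neighbouring odd
row if and only if `E e o`. -/
def LAdj (h : ℕ → ℕ → Prop) (E : ℕ → ℕ → Prop) (x y : ℕ × ℕ) : Prop :=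
  (x.2 = y.2 ∧ y.1 = x.1 + 1 ∧ h (x.2 % 2) x.1) ∨
  (y.2 = x.2 + 1 ∧ ((x.2 % 2 = 0 ∧ E x.1 y.1) ∨ (x.2 % 2 = 1 ∧ E y.1 x.1)))

/-- The layered graph with `k` rows of `m` vertices. -/
def Lat (h : ℕ → ℕ → Prop) (E : ℕ → ℕ → Prop) (m k : ℕ) : SimpleGraph (Fin m × Fin k) where
  Adj x y := LAdj h E (x.1.val, x.2.val) (y.1.val, y.2.val) ∨
    LAdj h E (y.1.val, y.2.val) (x.1.val, x.2.val)
  symm := ⟨fun _ _ hxy => hxy.symm⟩
  loopless := ⟨by
    intro x hx
    rcases hx with (⟨_, h2, _⟩ | ⟨h1, _⟩) | (⟨_, h2, _⟩ | ⟨h1, _⟩)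
    · simp only at h2; omega
    · simp only at h1; omega
    · simp only at h2; omega
    · simp only at h1; omega⟩

/-- The rungs do not cross. -/
def NoCross (E : ℕ → ℕ → Prop) : Prop := ∀ a b a' b', E a b → E a' b' → a < a' → b ≤ b'

theorem lat_adj (h : ℕ → ℕ → Prop) (E : ℕ → ℕ → Prop) (m k : ℕ) (x y : Fin m × Fin k) :
    (Lat h E m k).Adj x y ↔ LAdj h E (x.1.val, x.2.val) (y.1.val, y.2.val) ∨
      LAdj h E (y.1.val, y.2.val) (x.1.val, x.2.val) := Iff.rfl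

/-- Position of an inner point of an edge, directed version. -/
theorem ladj_point {h : ℕ → ℕ → Prop} {E : ℕ → ℕ → Prop} {x y : ℕ × ℕ} (hxy : LAdj h E x y) {t : ℝ}
    (ht : t ∈ Set.Ioo (0:ℝ) 1) (z : ℝ × ℝ)
    (hz1 : z.1 = (1 - t) * (x.1 : ℝ) + t * (y.1 : ℝ)) (hz2 : z.2 = (1 - t) * (x.2 : ℝ) + t * (y.2 : ℝ)) :
    (y = (x.1 + 1, x.2) ∧ z.1 = (x.1 : ℝ) + t ∧ z.2 = (x.2 : ℝ)) ∨
    (y.2 = x.2 + 1 ∧ ((x.2 % 2 = 0 ∧ E x.1 y.1) ∨ (x.2 % 2 = 1 ∧ E y.1 x.1)) ∧
      z.2 = (x.2 : ℝ) + t ∧ z.1 = (1 - t) * (x.1 : ℝ) + t * (y.1 : ℝ)) := by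
  rcases hxy with ⟨h1, h2, _⟩ | ⟨h1, h2⟩
  · left
    refine ⟨Prod.ext h2 h1.symm, ?_, ?_⟩
    · rw [hz1, h2]; push_cast; ring
    · rw [hz2, ← h1]; ring
  · right
    refine ⟨h1, h2, ?_, hz1⟩
    rw [hz2, h1]; push_cast; ring

/-- Two directed edges with a common inner point are equal. -/
theorem ladj_unique {h : ℕ → ℕ → Prop} {E : ℕ → ℕ → Prop} (hE : NoCross E) {x y x' y' : ℕ × ℕ}
    (hxy : LAdj h E x y) (hxy' : LAdj h E x' y') {t t' : ℝ}
    (ht : t ∈ Set.Ioo (0:ℝ) 1) (ht' : t' ∈ Set.Ioo (0:ℝ) 1) (z : ℝ × ℝ)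
    (hz1 : z.1 = (1 - t) * (x.1 : ℝ) + t * (y.1 : ℝ)) (hz2 : z.2 = (1 - t) * (x.2 : ℝ) + t * (y.2 : ℝ))
    (hz1' : z.1 = (1 - t') * (x'.1 : ℝ) + t' * (y'.1 : ℝ))
    (hz2' : z.2 = (1 - t') * (x'.2 : ℝ) + t' * (y'.2 : ℝ)) : x = x' ∧ y = y' := by
  obtain ⟨ht0, ht1⟩ := ht
  obtain ⟨ht0', ht1'⟩ := ht'
  rcases ladj_point hxy ⟨ht0, ht1⟩ z hz1 hz2 with ⟨a1, a2, a3⟩ | ⟨a1, a2, a3, a4⟩ <;>
  rcases ladj_point hxy' ⟨ht0', ht1'⟩ z hz1' hz2' with ⟨b1, b2, b3⟩ | ⟨b1, b2, b3, b4⟩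
  · rw [a2] at b2
    rw [a3] at b3
    have e1 := nat_frac b2 ht0 ht1 ht0' ht1'
    have e2 : x.2 = x'.2 := by exact_mod_cast b3
    have e3 : x = x' := Prod.ext e1 e2
    exact ⟨e3, by rw [a1, b1, e3]⟩
  · rw [a3] at b3
    exact absurd (nat_not_frac b3.symm ht0' ht1') (fun h => h)
  · rw [a3] at b3
    exact absurd (nat_not_frac b3 ht0 ht1) (fun h => h)
  · rw [a3] at b3
    have e2 := nat_frac b3 ht0 ht1 ht0' ht1'
    have e0 : t = t' := by
      have : (x.2 : ℝ) = x'.2 := by rw [e2]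
      linarith
    subst e0
    rw [a4] at b4
    -- key
    have key : ∀ p p' r r' : ℕ, (p < r → p' ≤ r') →
        (1 - t) * (p : ℝ) + t * p' = (1 - t) * (r : ℝ) + t * r' → ¬ p < r := by
      intro p p' r r' hle heq hlt
      have h1 : (p : ℝ) + 1 ≤ r := by exact_mod_cast hlt
      have h2 : (p' : ℝ) ≤ r' := by exact_mod_cast hle hlt
      nlinarith
    have n1 : ¬ x.1 < x'.1 := by
      refine key x.1 y.1 x'.1 y'.1 ?_ b4
      intro hlt
      rcases a2 with ⟨c1, c2⟩ | ⟨c1, c2⟩ <;> rcases b2 with ⟨d1, d2⟩ | ⟨d1, d2⟩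
      · exact hE _ _ _ _ c2 d2 hlt
      · omega
      · omega
      · by_contra hc
        have := hE _ _ _ _ d2 c2 (not_le.mp hc)
        omega
    have n2 : ¬ x'.1 < x.1 := by
      refine key x'.1 y'.1 x.1 y.1 ?_ b4.symm
      intro hlt
      rcases a2 with ⟨c1, c2⟩ | ⟨c1, c2⟩ <;> rcases b2 with ⟨d1, d2⟩ | ⟨d1, d2⟩
      · exact hE _ _ _ _ d2 c2 hlt
      · omega
      · omega
      · by_contra hc
        have := hE _ _ _ _ c2 d2 (not_le.mp hc)
        omega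
    have e1 : x.1 = x'.1 := by omega
    have e3 : x = x' := Prod.ext e1 e2
    refine ⟨e3, Prod.ext ?_ ?_⟩
    · rw [e1] at b4
      have : t * (y.1 : ℝ) = t * (y'.1 : ℝ) := by linarith
      have := mul_left_cancel₀ (ne_of_gt ht0) this
      exact_mod_cast this
    · rw [a1, b1, e2]

theorem ladj_no_vertex {h : ℕ → ℕ → Prop} {E : ℕ → ℕ → Prop} {x y w : ℕ × ℕ}
    (hxy : LAdj h E x y) {t : ℝ} (ht : t ∈ Set.Ioo (0:ℝ) 1)
    (hz1 : (w.1 : ℝ) = (1 - t) * (x.1 : ℝ) + t * (y.1 : ℝ))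
    (hz2 : (w.2 : ℝ) = (1 - t) * (x.2 : ℝ) + t * (y.2 : ℝ)) : False := by
  rcases ladj_point hxy ht ((w.1 : ℝ), (w.2 : ℝ)) hz1 hz2 with ⟨_, a2, _⟩ | ⟨_, _, a3, _⟩
  · exact nat_not_frac a2.symm ht.1 ht.2
  · exact nat_not_frac a3.symm ht.1 ht.2

theorem ladj_inj {h : ℕ → ℕ → Prop} {E : ℕ → ℕ → Prop} {x y : ℕ × ℕ}
    (hxy : LAdj h E x y) {s t : ℝ}
    (hz1 : (1 - s) * (x.1 : ℝ) + s * (y.1 : ℝ) = (1 - t) * (x.1 : ℝ) + t * (y.1 : ℝ))
    (hz2 : (1 - s) * (x.2 : ℝ) + s * (y.2 : ℝ) = (1 - t) * (x.2 : ℝ) + t * (y.2 : ℝ)) : s = t := by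
  rcases hxy with ⟨_, h2, _⟩ | ⟨h1, _⟩
  · rw [h2] at hz1; push_cast at hz1; linarith
  · rw [h1] at hz2; push_cast at hz2; linarith

theorem lat_drawing {h : ℕ → ℕ → Prop} {E : ℕ → ℕ → Prop} (hE : NoCross E) (m k : ℕ) :
    IsDrawing (Lat h E m k) gf gs := by
  refine ⟨?_, ?_, ?_⟩
  · intro x y h
    have h1 := congrArg Prod.fst h
    have h2 := congrArg Prod.snd h
    simp only [gf, Nat.cast_inj] at h1 h2
    exact Prod.ext (Fin.ext h1) (Fin.ext h2)
  · intro x y hxy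
    refine ⟨?_, ?_, ?_, ?_, ?_⟩
    · apply Continuous.continuousOn
      unfold gs
      fun_prop
    · intro s hs t ht hst
      have h1 := congrArg Prod.fst hst
      have h2 := congrArg Prod.snd hst
      simp only [gs] at h1 h2
      rcases hxy with hxy | hxy
      · exact ladj_inj hxy h1 h2
      · have := ladj_inj (s := 1 - s) (t := 1 - t) hxy (by simp only; linarith) (by simp only; linarith)
        linarith
    · simp [gs, gf]
    · simp [gs, gf]
    · intro t ht w hw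
      have h1 := congrArg Prod.fst hw
      have h2 := congrArg Prod.snd hw
      simp only [gf, gs] at h1 h2
      rcases hxy with hxy | hxy
      · exact ladj_no_vertex (w := (w.1.val, w.2.val)) hxy ht h1.symm h2.symm
      · exact ladj_no_vertex (w := (w.1.val, w.2.val)) hxy (t := 1 - t)
          ⟨by linarith [ht.2], by linarith [ht.1]⟩ (by simp only; linarith) (by simp only; linarith)
  · intro x y x' y' hxy hxy' hne t ht t' ht' heq
    have h1 := congrArg Prod.fst heq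
    have h2 := congrArg Prod.snd heq
    simp only [gs] at h1 h2
    apply hne
    have hti : (1 - t) ∈ Set.Ioo (0:ℝ) 1 := ⟨by linarith [ht.2], by linarith [ht.1]⟩
    have hti' : (1 - t') ∈ Set.Ioo (0:ℝ) 1 := ⟨by linarith [ht'.2], by linarith [ht'.1]⟩
    have hext : ∀ {a b : Fin m × Fin k}, ((a.1.val, a.2.val) : ℕ × ℕ) = (b.1.val, b.2.val) → a = b := by
      intro a b hab
      exact Prod.ext (Fin.ext (congrArg Prod.fst hab)) (Fin.ext (congrArg Prod.snd hab))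
    rw [Sym2.eq_iff]
    rcases hxy with hxy | hxy <;> rcases hxy' with hxy' | hxy'
    · have := ladj_unique hE hxy hxy' ht ht' (gs x y t) rfl rfl h1 h2
      exact Or.inl ⟨hext this.1, hext this.2⟩
    · have := ladj_unique hE hxy hxy' ht hti' (gs x y t) rfl rfl (by simp only [gs]; linarith)
        (by simp only [gs]; linarith)
      exact Or.inr ⟨hext this.1, hext this.2⟩
    · have := ladj_unique hE hxy hxy' hti ht' (gs x y t) (by simp only [gs]; ring)
        (by simp only [gs]; ring) h1 h2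
      exact Or.inr ⟨hext this.2, hext this.1⟩
    · have := ladj_unique hE hxy hxy' hti hti' (gs x y t) (by simp only [gs]; ring)
        (by simp only [gs]; ring) (by simp only [gs]; linarith) (by simp only [gs]; linarith)
      exact Or.inl ⟨hext this.2, hext this.1⟩

theorem unlinked_lat {h : ℕ → ℕ → Prop} {E : ℕ → ℕ → Prop} (hE : NoCross E) (m j : ℕ) :
    Unlinked (Lat h E m (j + 1)) (lastCol m j) := by
  let L : ℝ × ℝ → ℝ × ℝ := fun z => (z.1, (j : ℝ) - z.2)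
  have hL : Continuous L := by fun_prop
  have hi : Function.Injective L := by
    intro z w h
    have h1 := congrArg Prod.fst h
    have h2 := congrArg Prod.snd h
    simp only [L] at h1 h2
    exact Prod.ext h1 (by linarith)
  refine unlinked_of_drawing ((lat_drawing hE m (j + 1)).map L hL hi) ?_ ?_ (lastCol m j) ?_ ?_
  · intro x
    simp only [L, gf]
    have : x.2.val ≤ j := by have := x.2.isLt; omega
    have : (x.2.val : ℝ) ≤ j := by exact_mod_cast this
    linarith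
  · intro x y _ t ht
    simp only [L, gs]
    have h1 : (x.2.val : ℝ) ≤ j := by
      have : x.2.val ≤ j := by have := x.2.isLt; omega
      exact_mod_cast this
    have h2 : (y.2.val : ℝ) ≤ j := by
      have : y.2.val ≤ j := by have := y.2.isLt; omega
      exact_mod_cast this
    nlinarith [ht.1, ht.2]
  · intro i
    simp [L, gf, lastCol]
  · intro i i' hii
    simp only [L, gf, lastCol]
    exact_mod_cast hii

theorem ladj_flip {h : ℕ → ℕ → Prop} {E : ℕ → ℕ → Prop} {s : ℕ} (hs : s % 2 = 0) {x y : ℕ × ℕ}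
    (hx : x.2 ≤ s) (hy : y.2 ≤ s) :
    (LAdj h E x y ∨ LAdj h E y x) → (LAdj h E (x.1, s - x.2) (y.1, s - y.2) ∨
      LAdj h E (y.1, s - y.2) (x.1, s - x.2)) := by
  have key : ∀ x y : ℕ × ℕ, x.2 ≤ s → y.2 ≤ s → LAdj h E x y →
      (LAdj h E (x.1, s - x.2) (y.1, s - y.2) ∨ LAdj h E (y.1, s - y.2) (x.1, s - x.2)) := by
    intro x y hx hy hxy
    rcases hxy with ⟨h1, h2, h3⟩ | ⟨h1, h2⟩
    · left; left
      refine ⟨by simp only; omega, h2, ?_⟩
      have : (s - x.2) % 2 = x.2 % 2 := by omega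
      simp only [this]; exact h3
    · right; right
      refine ⟨by simp only; omega, ?_⟩
      rcases h2 with ⟨h3, h4⟩ | ⟨h3, h4⟩
      · right; exact ⟨by simp only; omega, h4⟩
      · left; exact ⟨by simp only; omega, h4⟩
  rintro (hxy | hxy)
  · exact key x y hx hy hxy
  · exact (key y x hy hx hxy).symm

theorem glue_lat (h : ℕ → ℕ → Prop) (E : ℕ → ℕ → Prop) (m j l : ℕ) (hjl : (j + l) % 2 = 0) :
    IsGlue (Lat h E m (j + l + 1)) (Lat h E m (j + 1)) (lastCol m j)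
    (Lat h E m (l + 1)) (lastCol m l) := by
  refine ⟨fun x => (x.1, ⟨x.2.val, by have := x.2.isLt; omega⟩),
    fun x => (x.1, ⟨j + l - x.2.val, by omega⟩), ?_, ?_, ?_, ?_, ?_, ?_⟩
  · intro x y h
    simp only [Prod.mk.injEq, Fin.mk.injEq] at h
    exact Prod.ext h.1 (Fin.ext h.2)
  · intro x y h
    simp only [Prod.mk.injEq, Fin.mk.injEq] at h
    have h1 := x.2.isLt
    have h2 := y.2.isLt
    exact Prod.ext h.1 (Fin.ext (by omega))
  · intro i
    simp only [lastCol, Fin.val_last, Prod.mk.injEq, Fin.mk.injEq, true_and]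
    omega
  · intro x y h
    simp only [Prod.mk.injEq, Fin.mk.injEq] at h
    have h1 := x.2.isLt
    have h2 := y.2.isLt
    refine ⟨x.1, Prod.ext rfl (Fin.ext ?_), Prod.ext h.1.symm (Fin.ext ?_)⟩
    · simp only [lastCol, Fin.val_last]; omega
    · simp only [lastCol, Fin.val_last]; omega
  · intro w
    by_cases h : w.2.val ≤ j
    · left
      exact ⟨(w.1, ⟨w.2.val, by omega⟩), rfl⟩
    · right
      have h1 := w.2.isLt
      refine ⟨(w.1, ⟨j + l - w.2.val, by omega⟩), Prod.ext rfl (Fin.ext ?_)⟩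
      simp only
      omega
  · intro w w'
    have h1 := w.2.isLt
    have h2 := w'.2.isLt
    constructor
    · intro hww
      by_cases hc : w.2.val ≤ j ∧ w'.2.val ≤ j
      · left
        exact ⟨(w.1, ⟨w.2.val, by omega⟩), (w'.1, ⟨w'.2.val, by omega⟩), hww, rfl, rfl⟩
      · right
        have hj : j ≤ w.2.val ∧ j ≤ w'.2.val := by
          rw [lat_adj] at hww
          rcases hww with (⟨h3, _⟩ | ⟨h3, _⟩) | (⟨h3, _⟩ | ⟨h3, _⟩) <;> simp only at h3 <;> omega
        refine ⟨(w.1, ⟨j + l - w.2.val, by omega⟩), (w'.1, ⟨j + l - w'.2.val, by omega⟩), ?_,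
          Prod.ext rfl (Fin.ext ?_), Prod.ext rfl (Fin.ext ?_)⟩
        · exact ladj_flip (s := j + l) hjl (x := (w.1.val, w.2.val)) (y := (w'.1.val, w'.2.val))
            (by simp only; omega) (by simp only; omega) hww
        · simp only; omega
        · simp only; omega
    · rintro (⟨x, x', hxx, rfl, rfl⟩ | ⟨x, x', hxx, rfl, rfl⟩)
      · exact hxx
      · have h3 := x.2.isLt
        have h4 := x'.2.isLt
        exact ladj_flip (s := j + l) hjl (x := (x.1.val, x.2.val)) (y := (x'.1.val, x'.2.val))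
            (by simp only; omega) (by simp only; omega) hxx

end Pool.Agent.H413R2.RP
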