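import Pool.Agent.H413R2.RP.Strip1

set_option autoImplicit false

namespace Pool.Agent.H413R2.RP

open Finset Polynomial

/-- graph of bandwidth two on `Fin N`, with edges prescribed by `A`. -/
def Bd (A : ℕ → ℕ → Prop) (N : ℕ) : SimpleGraph (Fin N) where
  Adj u v := (u.val < v.val ∧ v.val ≤ u.val + 2 ∧ A u.val v.val) ∨
    (v.val < u.val ∧ u.val ≤ v.val + 2 ∧ A v.val u.val)
  symm := ⟨fun _ _ h => h.symm⟩
  loopless := ⟨fun u h => by rcases h with h | h <;> omega⟩

/-- proper functions -/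
def Pr (A : ℕ → ℕ → Prop) (N m : ℕ) (c : Fin N → Fin m) : Prop :=
  ∀ u v : Fin N, u.val < v.val → v.val ≤ u.val + 2 → A u.val v.val → c u ≠ c v

theorem Pr_snoc (A : ℕ → ℕ → Prop) (M m : ℕ) (c : Fin (M + 2) → Fin m) (w : Fin m) :
    Pr A (M + 3) m (Fin.snoc (α := fun _ => Fin m) c w) ↔
      Pr A (M + 2) m c ∧ (A M (M + 2) → c (Fin.last M).castSucc ≠ w) ∧
        (A (M + 1) (M + 2) → c (Fin.last (M + 1)) ≠ w) := by
  have e1 : ∀ i : Fin (M + 2), (Fin.snoc (α := fun _ => Fin m) c w : Fin (M + 3) → Fin m)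
      i.castSucc = c i := fun i => Fin.snoc_castSucc (α := fun _ => Fin m) _ _ _
  have e2 : (Fin.snoc (α := fun _ => Fin m) c w : Fin (M + 3) → Fin m) (Fin.last (M + 2)) = w :=
    Fin.snoc_last (α := fun _ => Fin m) _ _
  constructor
  · intro h
    refine ⟨?_, ?_, ?_⟩
    · intro u v h1 h2 h3
      have := h u.castSucc v.castSucc h1 h2 h3
      rwa [e1, e1] at this
    · intro hA
      have := h (Fin.last M).castSucc.castSucc (Fin.last (M + 2)) (by simp) (by simp)
        (by simpa using hA)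
      rwa [e1, e2] at this
    · intro hA
      have := h (Fin.last (M + 1)).castSucc (Fin.last (M + 2)) (by simp) (by simp)
        (by simpa using hA)
      rwa [e1, e2] at this
  · rintro ⟨h1, h2, h3⟩ u v
    refine Fin.lastCases ?_ (fun v' => ?_) v
    · refine Fin.lastCases ?_ (fun u' => ?_) u
      · intro g; exact absurd g (lt_irrefl _)
      · intro g1 g2 g3
        rw [e1, e2]
        simp only [Fin.val_castSucc, Fin.val_last] at g1 g2 g3
        have hu : u'.val = M ∨ u'.val = M + 1 := by omega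
        rcases hu with hu | hu
        · have : u' = (Fin.last M).castSucc := Fin.ext (by simp [hu])
          rw [this]; rw [hu] at g3; exact h2 g3
        · have : u' = Fin.last (M + 1) := Fin.ext (by simp [hu])
          rw [this]; rw [hu] at g3; exact h3 g3
    · refine Fin.lastCases ?_ (fun u' => ?_) u
      · intro g1
        simp only [Fin.val_castSucc, Fin.val_last] at g1
        have := v'.isLt; omega
      · intro g1 g2 g3
        rw [e1, e1]
        exact h1 u' v' g1 g2 g3

/-- total count -/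
noncomputable def cX (A : ℕ → ℕ → Prop) (M m : ℕ) : ℝ :=
  ∑ c : Fin (M + 2) → Fin m, ind (Pr A (M + 2) m c)

/-- count of those with equal last two colours -/
noncomputable def cE (A : ℕ → ℕ → Prop) (M m : ℕ) : ℝ :=
  ∑ c : Fin (M + 2) → Fin m, ind (Pr A (M + 2) m c) *
    ind (c (Fin.last M).castSucc = c (Fin.last (M + 1)))

theorem ind_imp_ne (P : Prop) {m : ℕ} (x w : Fin m) :
    ind (P → x ≠ w) = 1 - ind P * ind (x = w) := by
  by_cases h1 : P <;> by_cases h2 : x = w <;> simp [ind, h1, h2]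

theorem sum_ind_mul {m : ℕ} (x : Fin m) (f : Fin m → ℝ) : ∑ w : Fin m, ind (x = w) * f w = f x := by
  rw [Finset.sum_eq_single x]
  · rw [ind_pos rfl, one_mul]
  · intro w _ hw
    rw [ind_neg (fun h => hw h.symm), zero_mul]
  · intro h; exact absurd (Finset.mem_univ _) h

theorem sum_ind_eq {m : ℕ} (x : Fin m) : ∑ w : Fin m, ind (x = w) = 1 := by
  have := sum_ind_mul x (fun _ => (1:ℝ))
  simpa using this

theorem sum_two {m : ℕ} (f : Fin m → Fin m → ℝ) :
    ∑ c : Fin 2 → Fin m, f (c 0) (c 1) = ∑ a : Fin m, ∑ b : Fin m, f a b := by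
  rw [← (finTwoArrowEquiv (Fin m)).symm.sum_comp, Fintype.sum_prod_type]
  rfl

theorem inner_sum (a b : ℝ) {m : ℕ} (x y : Fin m) :
    ∑ w : Fin m, (1 - a * ind (x = w)) * (1 - b * ind (y = w)) =
      (m : ℝ) - a - b + a * b * ind (x = y) := by
  have h : ∀ w : Fin m, (1 - a * ind (x = w)) * (1 - b * ind (y = w)) =
      1 - a * ind (x = w) - b * ind (y = w) + a * b * (ind (x = w) * ind (y = w)) := by
    intro w; ring
  rw [Finset.sum_congr rfl (fun w _ => h w), Finset.sum_add_distrib, Finset.sum_sub_distrib,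
    Finset.sum_sub_distrib, ← Finset.mul_sum, ← Finset.mul_sum, ← Finset.mul_sum, sum_ind_eq,
    sum_ind_eq, sum_ind_mul x (fun w => ind (y = w))]
  have : ind (y = x) = ind (x = y) := by
    congr 1; exact propext eq_comm
  rw [this]
  simp only [Finset.sum_const, Finset.card_univ, Fintype.card_fin, nsmul_eq_mul, mul_one]

theorem sum_snoc {M m : ℕ} (f : (Fin (M + 3) → Fin m) → ℝ) :
    ∑ c : Fin (M + 3) → Fin m, f c =
      ∑ c : Fin (M + 2) → Fin m, ∑ w : Fin m, f (Fin.snoc (α := fun _ => Fin m) c w) := by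
  rw [← (Fin.snocEquiv (fun _ : Fin (M + 3) => Fin m)).sum_comp, Fintype.sum_prod_type,
    Finset.sum_comm]
  rfl

theorem cX_succ (A : ℕ → ℕ → Prop) (M m : ℕ) :
    cX A (M + 1) m = ((m : ℝ) - ind (A M (M + 2)) - ind (A (M + 1) (M + 2))) * cX A M m +
      ind (A M (M + 2)) * ind (A (M + 1) (M + 2)) * cE A M m := by
  unfold cX cE
  rw [sum_snoc, Finset.mul_sum, Finset.mul_sum, ← Finset.sum_add_distrib]
  refine Finset.sum_congr rfl (fun c _ => ?_)
  have h : ∀ w : Fin m, ind (Pr A (M + 3) m (Fin.snoc (α := fun _ => Fin m) c w)) =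
      ind (Pr A (M + 2) m c) * ((1 - ind (A M (M + 2)) * ind (c (Fin.last M).castSucc = w)) *
        (1 - ind (A (M + 1) (M + 2)) * ind (c (Fin.last (M + 1)) = w))) := by
    intro w
    rw [show ind (Pr A (M + 3) m (Fin.snoc (α := fun _ => Fin m) c w)) =
      ind (Pr A (M + 2) m c ∧ (A M (M + 2) → c (Fin.last M).castSucc ≠ w) ∧
        (A (M + 1) (M + 2) → c (Fin.last (M + 1)) ≠ w)) from by
        congr 1; exact propext (Pr_snoc A M m c w)]
    rw [ind_and, ind_and, ind_imp_ne, ind_imp_ne]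
  rw [Finset.sum_congr rfl (fun w _ => h w), ← Finset.mul_sum, inner_sum]
  ring

theorem cE_succ (A : ℕ → ℕ → Prop) (M m : ℕ) :
    cE A (M + 1) m = (1 - ind (A (M + 1) (M + 2))) * (cX A M m - ind (A M (M + 2)) * cE A M m) := by
  unfold cX cE
  rw [sum_snoc, Finset.mul_sum, ← Finset.sum_sub_distrib, Finset.mul_sum]
  refine Finset.sum_congr rfl (fun c _ => ?_)
  have h : ∀ w : Fin m, ind (Pr A (M + 1 + 2) m (Fin.snoc (α := fun _ => Fin m) c w)) *
      ind ((Fin.snoc (α := fun _ => Fin m) c w : Fin (M + 3) → Fin m) (Fin.last (M + 1)).castSucc =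
        (Fin.snoc (α := fun _ => Fin m) c w : Fin (M + 3) → Fin m) (Fin.last (M + 1 + 1))) =
      ind (c (Fin.last (M + 1)) = w) *
      (ind (Pr A (M + 2) m c) * ((1 - ind (A M (M + 2)) * ind (c (Fin.last M).castSucc = w)) *
        (1 - ind (A (M + 1) (M + 2)) * ind (c (Fin.last (M + 1)) = w)))) := by
    intro w
    have e1 : (Fin.snoc (α := fun _ => Fin m) c w : Fin (M + 3) → Fin m)
      (Fin.last (M + 1)).castSucc = c (Fin.last (M + 1)) :=
        Fin.snoc_castSucc (α := fun _ => Fin m) _ _ _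
    have e2 : (Fin.snoc (α := fun _ => Fin m) c w : Fin (M + 3) → Fin m) (Fin.last (M + 1 + 1)) = w :=
      Fin.snoc_last (α := fun _ => Fin m) _ _
    rw [e1, e2]
    rw [show ind (Pr A (M + 1 + 2) m (Fin.snoc (α := fun _ => Fin m) c w)) =
      ind (Pr A (M + 2) m c ∧ (A M (M + 2) → c (Fin.last M).castSucc ≠ w) ∧
        (A (M + 1) (M + 2) → c (Fin.last (M + 1)) ≠ w)) from by
        congr 1; exact propext (Pr_snoc A M m c w)]
    rw [ind_and, ind_and, ind_imp_ne, ind_imp_ne]
    ring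
  rw [Finset.sum_congr rfl (fun w _ => h w), sum_ind_mul]
  have e3 : ind (c (Fin.last (M + 1)) = c (Fin.last (M + 1))) = 1 := ind_pos rfl
  rw [e3]
  ring

theorem cX_zero (A : ℕ → ℕ → Prop) (m : ℕ) : cX A 0 m = (m : ℝ) ^ 2 - ind (A 0 1) * m := by
  unfold cX
  have h : ∀ c : Fin 2 → Fin m, ind (Pr A 2 m c) = 1 - ind (A 0 1) * ind (c 0 = c 1) := by
    intro c
    rw [← ind_imp_ne]
    congr 1
    apply propext
    constructor
    · intro h hA
      exact h 0 1 (by simp) (by simp) hA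
    · intro h u v h1 h2 h3
      have hu : u = 0 := Fin.ext (by have := v.isLt; simp; omega)
      have hv : v = 1 := Fin.ext (by have := v.isLt; simp; omega)
      subst hu; subst hv
      exact h h3
  rw [Finset.sum_congr rfl (fun c _ => h c), sum_two (fun a b => 1 - ind (A 0 1) * ind (a = b))]
  simp only [Finset.sum_sub_distrib, ← Finset.mul_sum, sum_ind_eq, Finset.sum_const,
    Finset.card_univ, Fintype.card_fin, nsmul_eq_mul, mul_one]
  ring

theorem cE_zero (A : ℕ → ℕ → Prop) (m : ℕ) : cE A 0 m = (1 - ind (A 0 1)) * m := by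
  unfold cE
  have h : ∀ c : Fin 2 → Fin m, ind (Pr A 2 m c) * ind (c (Fin.last 0).castSucc = c (Fin.last 1)) =
      (1 - ind (A 0 1)) * ind (c 0 = c 1) := by
    intro c
    have h1 : ind (Pr A 2 m c) = 1 - ind (A 0 1) * ind (c 0 = c 1) := by
      rw [← ind_imp_ne]
      congr 1
      apply propext
      constructor
      · intro h hA
        exact h 0 1 (by simp) (by simp) hA
      · intro h u v h1 h2 h3
        have hu : u = 0 := Fin.ext (by have := v.isLt; simp; omega)
        have hv : v = 1 := Fin.ext (by have := v.isLt; simp; omega)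
        subst hu; subst hv
        exact h h3
    rw [h1]
    change (1 - ind (A 0 1) * ind (c 0 = c 1)) * ind (c 0 = c 1) = _
    by_cases h2 : c 0 = c 1
    · rw [ind_pos h2]; ring
    · rw [ind_neg h2]; ring
  rw [Finset.sum_congr rfl (fun c _ => h c), ← Finset.mul_sum, sum_two (fun a b => ind (a = b))]
  simp only [sum_ind_eq, Finset.sum_const, Finset.card_univ, Fintype.card_fin, nsmul_eq_mul, mul_one]

theorem ind_zero_or_one (P : Prop) : ind P = 0 ∨ ind P = 1 := by
  by_cases h : P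
  · right; exact ind_pos h
  · left; exact ind_neg h

/-- The two counts are polynomials, with the right signs at `q ≥ 4`. -/
theorem exists_band (A : ℕ → ℕ → Prop) (M : ℕ) : ∃ pX pE : Polynomial ℝ,
    (∀ m : ℕ, pX.eval (m : ℝ) = cX A M m) ∧ (∀ m : ℕ, pE.eval (m : ℝ) = cE A M m) ∧
    (∀ q : ℝ, 4 ≤ q → 0 ≤ pE.eval q ∧ 0 < pX.eval q - pE.eval q) := by
  induction M with
  | zero =>
    refine ⟨X ^ 2 - C (ind (A 0 1)) * X, C (1 - ind (A 0 1)) * X, ?_, ?_, ?_⟩
    · intro m; rw [cX_zero]; simp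
    · intro m; rw [cE_zero]; simp
    · intro q hq
      simp only [eval_sub, eval_mul, eval_pow, eval_X, eval_C]
      rcases ind_zero_or_one (A 0 1) with h | h <;> rw [h] <;> constructor <;> nlinarith
  | succ M ih =>
    obtain ⟨pX, pE, h1, h2, h3⟩ := ih
    refine ⟨(X - C (ind (A M (M + 2))) - C (ind (A (M + 1) (M + 2)))) * pX +
      C (ind (A M (M + 2)) * ind (A (M + 1) (M + 2))) * pE,
      C (1 - ind (A (M + 1) (M + 2))) * (pX - C (ind (A M (M + 2))) * pE), ?_, ?_, ?_⟩
    · intro m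
      rw [cX_succ, ← h1, ← h2]
      simp
    · intro m
      rw [cE_succ, ← h1, ← h2]
      simp
    · intro q hq
      obtain ⟨g1, g2⟩ := h3 q hq
      simp only [eval_sub, eval_mul, eval_add, eval_X, eval_C]
      have g3 : 0 < pX.eval q := by linarith
      rcases ind_zero_or_one (A M (M + 2)) with h | h <;>
      rcases ind_zero_or_one (A (M + 1) (M + 2)) with h' | h' <;> rw [h, h'] <;>
      constructor <;> nlinarith

theorem band_pos (A : ℕ → ℕ → Prop) (M : ℕ) {p : Polynomial ℝ} (hp : IsChrom (Bd A (M + 2)) p)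
    {q : ℝ} (hq : 4 ≤ q) : 0 < p.eval q := by
  obtain ⟨pX, pE, h1, _, h3⟩ := exists_band A M
  have hX : IsChrom (Bd A (M + 2)) pX := by
    intro m
    rw [h1]
    unfold cX
    rw [← card_eq_sum]
    congr 1
    apply Nat.card_congr
    refine ⟨fun c => SimpleGraph.Coloring.mk c.1 ?_, fun c => ⟨fun v => c v, ?_⟩, ?_, ?_⟩
    · intro u v huv
      rcases huv with ⟨a1, a2, a3⟩ | ⟨a1, a2, a3⟩
      · exact c.2 u v a1 a2 a3
      · exact (c.2 v u a1 a2 a3).symm
    · intro u v a1 a2 a3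
      exact c.valid (Or.inl ⟨a1, a2, a3⟩)
    · intro c; rfl
    · intro c; rfl
  rw [chrom_unique hp hX]
  obtain ⟨g1, g2⟩ := h3 q hq
  linarith

end Pool.Agent.H413R2.RP
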