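import Pool.Agent.H413R2.RP.Strip2

set_option autoImplicit false

namespace Pool.Agent.H413R2.RP

open Polynomial

/-- chromatic polynomial of the layered graph -/
noncomputable def lp (h : ℕ → ℕ → Prop) (E : ℕ → ℕ → Prop) (m k : ℕ) : Polynomial ℝ :=
  (exists_chrom (Lat h E m k)).choose

theorem lp_spec (h : ℕ → ℕ → Prop) (E : ℕ → ℕ → Prop) (m k : ℕ) :
    IsChrom (Lat h E m k) (lp h E m k) := (exists_chrom (Lat h E m k)).choose_spec

theorem lat_cs {h : ℕ → ℕ → Prop} {E : ℕ → ℕ → Prop} (hE : NoCross E) (m j l : ℕ)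
    (hjl : (j + l) % 2 = 0) {q : ℝ} (hq : 4 ≤ q) :
    0 ≤ (lp h E m (j + j + 1)).eval q ∧ 0 ≤ (lp h E m (l + l + 1)).eval q ∧
    ((lp h E m (j + l + 1)).eval q) ^ 2 ≤
      (lp h E m (j + j + 1)).eval q * (lp h E m (l + l + 1)).eval q :=
  glue_cs hq (unlinked_lat hE m j) (unlinked_lat hE m l) (glue_lat h E m j l hjl)
    (glue_lat h E m j j (by omega)) (glue_lat h E m l l (by omega)) (lp_spec _ _ _ _)
    (lp_spec _ _ _ _) (lp_spec _ _ _ _)

theorem strip_pos {h : ℕ → ℕ → Prop} {E : ℕ → ℕ → Prop} (hE : NoCross E) (m : ℕ) {q : ℝ}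
    (hq : 4 ≤ q) (h2 : (lp h E m 2).eval q ≠ 0) (i : ℕ) : 0 < (lp h E m (2 * i + 1)).eval q := by
  have h3 : 0 < (lp h E m 3).eval q := by
    have := (double_ge (lastCol_inj m 1) (unlinked_lat (h := h) hE m 1)
      (glue_lat h E m 1 1 (by omega)) (lp_spec h E m 3) (lp_spec h E m 2) hq).2
    have h4 : 0 < ((lp h E m 2).eval q) ^ 2 := by positivity
    have h5 : 0 < q ^ m := pow_pos (by linarith) m
    by_contra hc
    have h6 : q ^ m * (lp h E m 3).eval q ≤ 0 :=
      mul_nonpos_iff.mpr (Or.inl ⟨h5.le, not_lt.mp hc⟩)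
    linarith
  have h1 : 0 < (lp h E m 1).eval q := by
    have := lat_cs (h := h) hE m 0 2 (by omega) hq
    norm_num at this
    obtain ⟨a1, a2, a3⟩ := this
    by_contra hc
    have h6 : (lp h E m 1).eval q * (lp h E m 5).eval q ≤ 0 :=
      mul_nonpos_iff.mpr (Or.inr ⟨not_lt.mp hc, a2⟩)
    have : 0 < ((lp h E m 3).eval q) ^ 2 := by positivity
    linarith
  have key : ∀ i : ℕ, 0 < (lp h E m (2 * i + 1)).eval q ∧ 0 < (lp h E m (2 * i + 3)).eval q := by
    intro i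
    induction i with
    | zero => exact ⟨h1, h3⟩
    | succ i ih =>
      refine ⟨ih.2, ?_⟩
      have := lat_cs (h := h) hE m i (i + 2) (by omega) hq
      have e3 : i + (i + 2) + 1 = 2 * i + 3 := by ring
      have e4 : i + i + 1 = 2 * i + 1 := by ring
      have e5 : i + 2 + (i + 2) + 1 = 2 * (i + 1) + 3 := by ring
      rw [e3, e4, e5] at this
      obtain ⟨a1, a2, a3⟩ := this
      by_contra hc
      have h6 : (lp h E m (2 * i + 1)).eval q * (lp h E m (2 * (i + 1) + 3)).eval q ≤ 0 :=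
        mul_nonpos_iff.mpr (Or.inl ⟨a1, not_lt.mp hc⟩)
      have := ih.2
      have : 0 < ((lp h E m (2 * i + 3)).eval q) ^ 2 := by positivity
      linarith
  exact (key i).1

/-- edges of the two-row graph in the zigzag order -/
def ZA (h : ℕ → ℕ → Prop) (E : ℕ → ℕ → Prop) (u v : ℕ) : Prop :=
  (∃ i, u = 2 * i ∧ v = 2 * i + 2 ∧ h 0 i) ∨ (∃ i, u = 2 * i + 1 ∧ v = 2 * i + 3 ∧ h 1 i) ∨
  (∃ i, u = 2 * i ∧ v = 2 * i + 1 ∧ E i i) ∨ (∃ i, u = 2 * i + 1 ∧ v = 2 * i + 2 ∧ E (i + 1) i)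

theorem zigzag {h : ℕ → ℕ → Prop} {E : ℕ → ℕ → Prop} (hE : ∀ a b, E a b → a = b ∨ a = b + 1)
    (i r j s : ℕ) (hr : r < 2) (hs : s < 2) :
    (LAdj h E (i, r) (j, s) ∨ LAdj h E (j, s) (i, r)) ↔
      ((r + 2 * i < s + 2 * j ∧ s + 2 * j ≤ r + 2 * i + 2 ∧ ZA h E (r + 2 * i) (s + 2 * j)) ∨
      (s + 2 * j < r + 2 * i ∧ r + 2 * i ≤ s + 2 * j + 2 ∧ ZA h E (s + 2 * j) (r + 2 * i))) := by
  have key : ∀ i r j s : ℕ, r < 2 → s < 2 → LAdj h E (i, r) (j, s) →
      ((r + 2 * i < s + 2 * j ∧ s + 2 * j ≤ r + 2 * i + 2 ∧ ZA h E (r + 2 * i) (s + 2 * j)) ∨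
      (s + 2 * j < r + 2 * i ∧ r + 2 * i ≤ s + 2 * j + 2 ∧ ZA h E (s + 2 * j) (r + 2 * i))) := by
    intro i r j s hr hs hA
    rcases hA with ⟨h1, h2, h3⟩ | ⟨h1, h2⟩
    · simp only at h1 h2 h3
      subst h1; subst h2
      left
      refine ⟨by omega, by omega, ?_⟩
      have : r = 0 ∨ r = 1 := by omega
      rcases this with rfl | rfl
      · left; exact ⟨i, by omega, by omega, h3⟩
      · right; left; exact ⟨i, by omega, by omega, h3⟩
    · simp only at h1 h2
      have hr0 : r = 0 := by omega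
      subst hr0
      have hs1 : s = 1 := by omega
      subst hs1
      rcases h2 with ⟨_, h3⟩ | ⟨h3, _⟩
      · rcases hE _ _ h3 with h4 | h4
        · left
          subst h4
          exact ⟨by omega, by omega, Or.inr (Or.inr (Or.inl ⟨i, by omega, by omega, h3⟩))⟩
        · right
          subst h4
          exact ⟨by omega, by omega, Or.inr (Or.inr (Or.inr ⟨j, by omega, by omega, h3⟩))⟩
      · omega
  have key2 : ∀ i r j s : ℕ, r < 2 → s < 2 → ZA h E (r + 2 * i) (s + 2 * j) →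
      (LAdj h E (i, r) (j, s) ∨ LAdj h E (j, s) (i, r)) := by
    intro i r j s hr hs hZ
    rcases hZ with ⟨a, h1, h2, h3⟩ | ⟨a, h1, h2, h3⟩ | ⟨a, h1, h2, h3⟩ | ⟨a, h1, h2, h3⟩
    · have e1 : r = 0 := by omega
      have e2 : s = 0 := by omega
      have e3 : i = a := by omega
      have e4 : j = a + 1 := by omega
      subst e1; subst e2; subst e3; subst e4
      left; left; exact ⟨rfl, rfl, h3⟩
    · have e1 : r = 1 := by omega
      have e2 : s = 1 := by omega
      have e3 : i = a := by omega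
      have e4 : j = a + 1 := by omega
      subst e1; subst e2; subst e3; subst e4
      left; left; exact ⟨rfl, rfl, h3⟩
    · have e1 : r = 0 := by omega
      have e2 : s = 1 := by omega
      have e3 : i = a := by omega
      have e4 : j = a := by omega
      subst e1; subst e2; subst e3; subst e4
      left; right; exact ⟨rfl, Or.inl ⟨rfl, h3⟩⟩
    · have e1 : r = 1 := by omega
      have e2 : s = 0 := by omega
      have e3 : i = a := by omega
      have e4 : j = a + 1 := by omega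
      subst e1; subst e2; subst e3; subst e4
      right; right; exact ⟨rfl, Or.inl ⟨rfl, h3⟩⟩
  constructor
  · rintro (hA | hA)
    · exact key i r j s hr hs hA
    · exact (key j s i r hs hr hA).symm
  · rintro (⟨_, _, hZ⟩ | ⟨_, _, hZ⟩)
    · exact key2 i r j s hr hs hZ
    · exact (key2 j s i r hs hr hZ).symm

theorem two_rows_pos {h : ℕ → ℕ → Prop} {E : ℕ → ℕ → Prop}
    (hE : ∀ a b, E a b → a = b ∨ a = b + 1) (m : ℕ) (hm : 1 ≤ m) {q : ℝ} (hq : 4 ≤ q) :
    0 < (lp h E m 2).eval q := by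
  obtain ⟨m', rfl⟩ : ∃ m', m = m' + 1 := ⟨m - 1, by omega⟩
  let e : Lat h E (m' + 1) 2 ≃g Bd (ZA h E) ((m' + 1) * 2) :=
    { toEquiv := finProdFinEquiv
      map_rel_iff' := by
        intro x y
        rw [lat_adj, zigzag hE _ _ _ _ x.2.isLt y.2.isLt]
        unfold Bd
        simp only [finProdFinEquiv_apply_val] }
  have hp := (lp_spec h E (m' + 1) 2).of_iso e
  have e1 : (m' + 1) * 2 = 2 * m' + 2 := by ring
  rw [e1] at hp
  exact band_pos _ _ hp hq

theorem noCross_of_band {E : ℕ → ℕ → Prop} (hE : ∀ a b, E a b → a = b ∨ a = b + 1) : NoCross E := by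
  intro a b a' b' h1 h2 h3
  have := hE _ _ h1
  have := hE _ _ h2
  omega

theorem band_strip_pos {h : ℕ → ℕ → Prop} {E : ℕ → ℕ → Prop}
    (hE : ∀ a b, E a b → a = b ∨ a = b + 1) (m : ℕ) (hm : 1 ≤ m) {q : ℝ} (hq : 4 ≤ q) (i : ℕ) :
    0 < (lp h E m (2 * i + 1)).eval q :=
  strip_pos (noCross_of_band hE) m hq (two_rows_pos hE m hm hq).ne' i

end Pool.Agent.H413R2.RP
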