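import Pool.Agent.H413R2.RP.Nx2

set_option autoImplicit false

namespace Pool.Agent.H413R2.RP

open Finset Function

variable {n : ℕ}

/-- The states: one sign for each of the `2n` strands. -/
abbrev St (n : ℕ) := (Fin n ⊕ Fin n) → Bool

/-- The weight of a sign. -/
noncomputable def wt (α : ℝ) (b : Bool) : ℝ := if b then α else α⁻¹

theorem wt_ne {α : ℝ} (hα : α ≠ 0) (b : Bool) : wt α b ≠ 0 := by
  unfold wt
  split_ifs
  · exact hα
  · exact inv_ne_zero hα

/-- The factor of an arc. -/
noncomputable def fac (α : ℝ) (ρ : Fin n → Fin n) (e : Fin n → ℤ) (x : St n) (k : Fin n) : ℝ :=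
  if x (Sum.inr k) = x (Sum.inl (ρ k)) then (wt α (x (Sum.inr k))) ^ (e k) else 0

/-- The vector of a permutation with exponents. -/
noncomputable def W (α : ℝ) (ρ : Fin n → Fin n) (e : Fin n → ℤ) (x : St n) : ℝ :=
  ∏ k, fac α ρ e x k

/-- Put the sign `u` on both strands `inr i`, `inl j`. -/
def up (i j : Fin n) (x : St n) (u : Bool) : St n :=
  update (update x (Sum.inr i) u) (Sum.inl j) u

/-- Contraction. -/
noncomputable def Sc (α : ℝ) (i j : Fin n) (c : ℤ) (f : St n → ℝ) (x : St n) : ℝ :=
  ∑ u : Bool, (wt α u) ^ c * f (up i j x u)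

/-- The Temperley-Lieb type operator. -/
noncomputable def T (α : ℝ) (i j : Fin n) (c : ℤ) (f : St n → ℝ) (x : St n) : ℝ :=
  (if x (Sum.inr i) = x (Sum.inl j) then (wt α (x (Sum.inr i))) ^ c else 0) * Sc α i j c f x

theorem sum_update (F : St n → ℝ) (p : Fin n ⊕ Fin n) :
    ∑ x : St n, ∑ u : Bool, F (update x p u) = 2 * ∑ x : St n, F x := by
  let e : St n ≃ St n :=
    { toFun := fun x => update x p (!(x p))
      invFun := fun x => update x p (!(x p))
      left_inv := by intro x; simp
      right_inv := by intro x; simp }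
  have h1 : ∀ x : St n, ∑ u : Bool, F (update x p u) = F x + F (e x) := by
    intro x
    rw [Fintype.sum_bool]
    rcases hx : x p with _ | _
    · have h2 : update x p false = x := by rw [← hx, update_eq_self]
      have h3 : e x = update x p true := by
        change update x p (!(x p)) = _
        rw [hx]; rfl
      rw [h2, h3, add_comm]
    · have h2 : update x p true = x := by rw [← hx, update_eq_self]
      have h3 : e x = update x p false := by
        change update x p (!(x p)) = _
        rw [hx]; rfl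
      rw [h2, h3]
  rw [Finset.sum_congr rfl (fun x _ => h1 x), Finset.sum_add_distrib, e.sum_comp F]
  ring

theorem T_adj (α : ℝ) (i j : Fin n) (c : ℤ) (f g : St n → ℝ) :
    4 * ∑ x : St n, T α i j c f x * g x = ∑ x : St n, Sc α i j c f x * Sc α i j c g x := by
  have h1 := sum_update (fun x => T α i j c f x * g x) (Sum.inl j)
  have h2 := sum_update (fun x => ∑ v : Bool, T α i j c f (update x (Sum.inl j) v) *
    g (update x (Sum.inl j) v)) (Sum.inr i)
  have h3 : 4 * ∑ x : St n, T α i j c f x * g x = ∑ x : St n, ∑ u : Bool, ∑ v : Bool,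
      T α i j c f (update (update x (Sum.inr i) u) (Sum.inl j) v) *
        g (update (update x (Sum.inr i) u) (Sum.inl j) v) := by
    rw [h2, h1]; ring
  rw [h3]
  refine Finset.sum_congr rfl (fun x _ => ?_)
  have h4 : ∀ u v : Bool, Sc α i j c f (update (update x (Sum.inr i) u) (Sum.inl j) v) =
      Sc α i j c f x := by
    intro u v
    unfold Sc
    refine Finset.sum_congr rfl (fun w _ => ?_)
    congr 2
    unfold up
    funext y
    by_cases hy : y = Sum.inl j
    · subst hy; simp
    · rw [update_of_ne hy, update_of_ne hy]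
      by_cases hy2 : y = Sum.inr i
      · subst hy2; simp
      · rw [update_of_ne hy2, update_of_ne hy2, update_of_ne hy, update_of_ne hy2]
  have h5 : ∀ u v : Bool, T α i j c f (update (update x (Sum.inr i) u) (Sum.inl j) v) =
      (if u = v then (wt α u) ^ c else 0) * Sc α i j c f x := by
    intro u v
    unfold T
    rw [h4]
    have e1 : (update (update x (Sum.inr i) u) (Sum.inl j) v) (Sum.inr i) = u := by
      rw [update_of_ne (by simp), update_self]
    have e2 : (update (update x (Sum.inr i) u) (Sum.inl j) v) (Sum.inl j) = v := by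
      rw [update_self]
    rw [e1, e2]
  have h6 : ∀ u : Bool, ∑ v : Bool,
      T α i j c f (update (update x (Sum.inr i) u) (Sum.inl j) v) *
        g (update (update x (Sum.inr i) u) (Sum.inl j) v) =
      (wt α u) ^ c * Sc α i j c f x * g (up i j x u) := by
    intro u
    rw [Finset.sum_eq_single u]
    · rw [h5]; simp [up]
    · intro v _ hv
      rw [h5, if_neg (Ne.symm hv)]; simp
    · intro h; exact absurd (Finset.mem_univ _) h
  rw [Finset.sum_congr rfl (fun u _ => h6 u)]
  conv_rhs => rw [show Sc α i j c g x = ∑ u : Bool, (wt α u) ^ c * g (up i j x u) from rfl]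
  rw [Finset.mul_sum]
  refine Finset.sum_congr rfl (fun u _ => ?_)
  ring

theorem T_selfadj (α : ℝ) (i j : Fin n) (c : ℤ) (f g : St n → ℝ) :
    ∑ x : St n, T α i j c f x * g x = ∑ x : St n, f x * T α i j c g x := by
  have h1 := T_adj α i j c f g
  have h2 := T_adj α i j c g f
  have h3 : ∑ x : St n, Sc α i j c f x * Sc α i j c g x =
      ∑ x : St n, Sc α i j c g x * Sc α i j c f x :=
    Finset.sum_congr rfl (fun x _ => mul_comm _ _)
  have h4 : ∑ x : St n, f x * T α i j c g x = ∑ x : St n, T α i j c g x * f x :=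
    Finset.sum_congr rfl (fun x _ => mul_comm _ _)
  rw [h4]
  linarith

theorem prod_two {ι : Type*} [Fintype ι] [DecidableEq ι] (F : ι → ℝ) {i b : ι} (h : b ≠ i) :
    ∏ k, F k = F i * (F b * ∏ k ∈ (Finset.univ.erase i).erase b, F k) := by
  rw [← Finset.mul_prod_erase Finset.univ F (Finset.mem_univ i)]
  congr 1
  rw [← Finset.mul_prod_erase (Finset.univ.erase i) F (a := b) (by simp [h])]

theorem T_W_ne {α : ℝ} (hα : α ≠ 0) (ρ : Equiv.Perm (Fin n)) (e : Fin n → ℤ) {i j : Fin n}
    (c : ℤ) (hij : ρ i ≠ j) :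
    T α i j c (W α ρ e) = W α (ρ * Equiv.swap i (ρ.symm j))
      (update (update e i c) (ρ.symm j) (c + e i + e (ρ.symm j))) := by
  set b := ρ.symm j with hb
  have hb' : ρ b = j := by rw [hb, Equiv.apply_symm_apply]
  have hbi : b ≠ i := by
    intro h; rw [h] at hb'; exact hij hb'
  funext x
  unfold T
  -- right side
  have hR : W α (ρ * Equiv.swap i b) (update (update e i c) b (c + e i + e b)) x =
      (if x (Sum.inr i) = x (Sum.inl j) then (wt α (x (Sum.inr i))) ^ c else 0) *
      ((if x (Sum.inr b) = x (Sum.inl (ρ i)) then (wt α (x (Sum.inr b))) ^ (c + e i + e b)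
        else 0) * ∏ k ∈ (Finset.univ.erase i).erase b, fac α ρ e x k) := by
    unfold W
    rw [prod_two _ hbi]
    have a1 : fac α (ρ * Equiv.swap i b) (update (update e i c) b (c + e i + e b)) x i =
        (if x (Sum.inr i) = x (Sum.inl j) then (wt α (x (Sum.inr i))) ^ c else 0) := by
      unfold fac
      rw [Equiv.Perm.mul_apply, Equiv.swap_apply_left, hb', update_of_ne (Ne.symm hbi),
        update_self]
    have a2 : fac α (ρ * Equiv.swap i b) (update (update e i c) b (c + e i + e b)) x b =
        (if x (Sum.inr b) = x (Sum.inl (ρ i)) then (wt α (x (Sum.inr b))) ^ (c + e i + e b)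
        else 0) := by
      unfold fac
      rw [Equiv.Perm.mul_apply, Equiv.swap_apply_right, update_self]
    rw [a1, a2]
    congr 2
    refine Finset.prod_congr rfl (fun k hk => ?_)
    simp only [Finset.mem_erase, Finset.mem_univ, and_true] at hk
    unfold fac
    rw [Equiv.Perm.mul_apply, Equiv.swap_apply_of_ne_of_ne hk.2 hk.1, update_of_ne hk.1,
      update_of_ne hk.2]
  rw [hR]
  congr 1
  unfold Sc
  have hL : ∀ u : Bool, W α ρ e (up i j x u) =
      (if u = x (Sum.inl (ρ i)) then (wt α u) ^ (e i) else 0) *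
      ((if x (Sum.inr b) = u then (wt α (x (Sum.inr b))) ^ (e b) else 0) *
        ∏ k ∈ (Finset.univ.erase i).erase b, fac α ρ e x k) := by
    intro u
    unfold W
    rw [prod_two _ hbi]
    have a1 : fac α ρ e (up i j x u) i =
        (if u = x (Sum.inl (ρ i)) then (wt α u) ^ (e i) else 0) := by
      unfold fac
      have e1 : up i j x u (Sum.inr i) = u := by
        unfold up; rw [update_of_ne (by simp), update_self]
      have e2 : up i j x u (Sum.inl (ρ i)) = x (Sum.inl (ρ i)) := by
        unfold up; rw [update_of_ne (by simpa using hij), update_of_ne (by simp)]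
      rw [e1, e2]
    have a2 : fac α ρ e (up i j x u) b =
        (if x (Sum.inr b) = u then (wt α (x (Sum.inr b))) ^ (e b) else 0) := by
      unfold fac
      have e1 : up i j x u (Sum.inr b) = x (Sum.inr b) := by
        unfold up; rw [update_of_ne (by simp), update_of_ne (by simpa using hbi)]
      have e2 : up i j x u (Sum.inl (ρ b)) = u := by
        unfold up; rw [hb', update_self]
      rw [e1, e2]
    rw [a1, a2]
    congr 2
    refine Finset.prod_congr rfl (fun k hk => ?_)
    simp only [Finset.mem_erase, Finset.mem_univ, and_true] at hk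
    unfold fac
    have e1 : up i j x u (Sum.inr k) = x (Sum.inr k) := by
      unfold up; rw [update_of_ne (by simp), update_of_ne (by simpa using hk.2)]
    have e2 : up i j x u (Sum.inl (ρ k)) = x (Sum.inl (ρ k)) := by
      unfold up
      rw [update_of_ne, update_of_ne (by simp)]
      intro h
      have h' : ρ k = j := by simpa using h
      apply hk.1
      rw [hb, ← h', Equiv.symm_apply_apply]
    rw [e1, e2]
  rw [Finset.sum_congr rfl (fun u _ => by rw [hL u])]
  set R := ∏ k ∈ (Finset.univ.erase i).erase b, fac α ρ e x k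
  rw [Finset.sum_eq_single (x (Sum.inr b))]
  · by_cases h : x (Sum.inr b) = x (Sum.inl (ρ i))
    · rw [if_pos h, if_pos rfl, if_pos h]
      rw [zpow_add₀ (wt_ne hα _), zpow_add₀ (wt_ne hα _)]
      ring
    · rw [if_neg h, if_neg h]; ring
  · intro u _ hu
    rw [if_neg (Ne.symm hu)]; ring
  · intro h; exact absurd (Finset.mem_univ _) h

theorem T_W_eq {α : ℝ} (hα : α ≠ 0) (ρ : Equiv.Perm (Fin n)) (e : Fin n → ℤ) {i j : Fin n}
    (c : ℤ) (hij : ρ i = j) (he : e i = c) :
    T α i j c (W α ρ e) = fun x => (∑ u : Bool, (wt α u) ^ (2 * c)) * W α ρ e x := by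
  funext x
  unfold T Sc
  have hL : ∀ u : Bool, W α ρ e (up i j x u) =
      (wt α u) ^ c * ∏ k ∈ Finset.univ.erase i, fac α ρ e x k := by
    intro u
    unfold W
    rw [← Finset.mul_prod_erase Finset.univ _ (Finset.mem_univ i)]
    have a1 : fac α ρ e (up i j x u) i = (wt α u) ^ c := by
      unfold fac
      have e1 : up i j x u (Sum.inr i) = u := by
        unfold up; rw [update_of_ne (by simp), update_self]
      have e2 : up i j x u (Sum.inl (ρ i)) = u := by
        unfold up; rw [hij, update_self]
      rw [e1, e2, if_pos rfl, he]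
    rw [a1]
    congr 1
    refine Finset.prod_congr rfl (fun k hk => ?_)
    simp only [Finset.mem_erase, Finset.mem_univ, and_true] at hk
    unfold fac
    have e1 : up i j x u (Sum.inr k) = x (Sum.inr k) := by
      unfold up; rw [update_of_ne (by simp), update_of_ne (by simpa using hk)]
    have e2 : up i j x u (Sum.inl (ρ k)) = x (Sum.inl (ρ k)) := by
      unfold up
      rw [update_of_ne, update_of_ne (by simp)]
      intro h
      have h' : ρ k = j := by simpa using h
      apply hk
      apply ρ.injective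
      rw [h', hij]
    rw [e1, e2]
  have hR : W α ρ e x = (if x (Sum.inr i) = x (Sum.inl j) then (wt α (x (Sum.inr i))) ^ c
      else 0) * ∏ k ∈ Finset.univ.erase i, fac α ρ e x k := by
    unfold W
    rw [← Finset.mul_prod_erase Finset.univ _ (Finset.mem_univ i)]
    congr 1
    unfold fac
    rw [hij, he]
  rw [Finset.sum_congr rfl (fun u _ => by rw [hL u]), hR]
  set R := ∏ k ∈ Finset.univ.erase i, fac α ρ e x k
  have : ∀ u : Bool, (wt α u) ^ c * ((wt α u) ^ c * R) = (wt α u) ^ (2 * c) * R := by
    intro u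
    rw [two_mul, zpow_add₀ (wt_ne hα u)]; ring
  rw [Finset.sum_congr rfl (fun u _ => this u), ← Finset.sum_mul]
  ring

theorem sum_wt (α : ℝ) : ∑ u : Bool, (wt α u) ^ (2 * (1 : ℤ)) = α ^ 2 + (α ^ 2)⁻¹ := by
  rw [Fintype.sum_bool]
  unfold wt
  simp only [if_true, mul_one, Bool.false_eq_true, if_false]
  norm_cast
  rw [inv_pow]

theorem sum_wt' (α : ℝ) : ∑ u : Bool, (wt α u) ^ (2 * (-1 : ℤ)) = α ^ 2 + (α ^ 2)⁻¹ := by
  rw [Fintype.sum_bool]
  unfold wt
  simp only [if_true, Bool.false_eq_true, if_false]
  have h1 : α ^ (2 * (-1 : ℤ)) = (α ^ 2)⁻¹ := by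
    rw [mul_neg, mul_one, zpow_neg]; norm_cast
  have h2 : α⁻¹ ^ (2 * (-1 : ℤ)) = α ^ 2 := by
    rw [mul_neg, mul_one, zpow_neg, inv_zpow, inv_inv]; norm_cast
  rw [h1, h2, add_comm]

end Pool.Agent.H413R2.RP
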